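import Pool.Agent.Helper650_LocX.Defs

/-!
# Choosing the edge and the set

Plain words.  TARGET 1.  Let `M = (n - w₀ - k₂).choose d` and let `𝓔` be the set of the `e ⊆ hi w₀ \ Z₁` with
`d` elements; `|hi w₀ \ Z₁| ≥ n - w₀ - k₂`, so `|𝓔| ≥ M`.  (If `w₀ > n` then `M ≥ 1` and `d ≥ 1` are
contradictory; the cardinality of `hi w₀` is `n - w₀`.)  `∑ e ∈ 𝓔, |covSet e| ≤ covCount ≤ 8 K₀`, so the
number of `e ∈ 𝓔` with `|covSet e| > m` is at most `8 K₀ / m ≤ M / 4` (by `hm2`).  For `1 ≤ j < r`,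
`∑ e ∈ 𝓔, ∑ X, |pivSet X e| ≤ 8 r (d r q)^j K₀`, so the number of `e ∈ 𝓔` with
`∑ X, |pivSet X e| > (d r q)^j m` is at most `8 r K₀ / m ≤ M / (4 r)`; together for all `j` at most `M / 4`.
Finally, the number of `e` which are equal to `{v ∈ hi w₀ | Dd C (insert v Z₁)}` for some `C ∈ 𝒞` is at
most `K ≤ M / 4`.  Since `3 M / 4 < M` some `e ∈ 𝓔` is none of these.  If `C ∈ 𝒞` and
`∀ v ∈ e, Dd C (insert v Z₁)`, then `e` is a subset of `{v ∈ hi w₀ | Dd C (insert v Z₁)}` different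
from it, which gives `v`.

TARGET 2.  For `C ∈ covSet Dd 𝒞 Z₁ e` choose by `hA` a vertex `v_C`, `w₀ ≤ v_C`, `v_C ∉ e`,
`Dd C (insert v_C Z₁)`.  `Z₂ = Z₁ ∪ {v_C}` has at most `k₁ + k₂ + m ≤ k` elements and is disjoint from `e`;
`Z₂ ∪ (hi w₀ \ e)` has at least `n - w₀ - d ≥ k` elements; so there is `Z` between with exactly `k`
elements.  If `C ∈ 𝒞`, `¬ Dd C Z` and `∀ v ∈ e, Dd C (insert v Z₁)` then `¬ Dd C Z₁`, so
`C ∈ covSet Dd 𝒞 Z₁ e`, and `insert v_C Z₁ ⊆ Z` gives `Dd C Z`, a contradiction.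
-/

namespace Pool.Agent.Helper650_LocX

theorem j349x_card_hi (n w₀ : ℕ) : (hi w₀ : Finset (Fin n)).card = n - w₀ := by
  classical
  have h1 : ((hi w₀ : Finset (Fin n)).image (fun x => x.val)) = Finset.Ico w₀ n := by
    ext a
    simp only [Finset.mem_image, Finset.mem_Ico]
    constructor
    · rintro ⟨x, hx, rfl⟩
      exact ⟨(Finset.mem_filter.1 hx).2, x.isLt⟩
    · rintro ⟨h2, h3⟩
      exact ⟨⟨a, h3⟩, Finset.mem_filter.2 ⟨Finset.mem_univ _, h2⟩, rfl⟩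
  rw [← Finset.card_image_of_injective _ Fin.val_injective, h1, Nat.card_Ico]

theorem j349x_markov {α : Type*} (E : Finset α) (f : α → ℕ) (m : ℕ) [DecidablePred fun e => ¬ f e ≤ m] :
    (E.filter (fun e => ¬ f e ≤ m)).card * m ≤ ∑ e ∈ E, f e := by
  classical
  calc (E.filter (fun e => ¬ f e ≤ m)).card * m = ∑ e ∈ E.filter (fun e => ¬ f e ≤ m), m := by
        rw [Finset.sum_const, smul_eq_mul]
    _ ≤ ∑ e ∈ E.filter (fun e => ¬ f e ≤ m), f e :=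
        Finset.sum_le_sum fun e he => (not_le.1 (Finset.mem_filter.1 he).2).le
    _ ≤ ∑ e ∈ E, f e := Finset.sum_le_sum_of_subset (Finset.filter_subset _ _)

open Classical in
theorem j349x_count {α β : Type*} (A : Finset α) (B E : Finset β) (hE : E ⊆ B)
    (P : α → β → Prop) :
    ∑ e ∈ E, (A.filter (fun C => P C e)).card ≤ ((A ×ˢ B).filter (fun p => P p.1 p.2)).card := by
  refine (Finset.sum_le_sum_of_subset hE).trans (le_of_eq ?_)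
  rw [Finset.card_filter, Finset.sum_product_right]
  exact Finset.sum_congr rfl fun e _ => Finset.card_filter _ _

theorem j349x_cov {ι : Type*} {n : ℕ} (Dd : ι → Finset (Fin n) → Prop) (𝒞 : Finset ι)
    (d w₀ : ℕ) (Z₁ : Finset (Fin n)) (E : Finset (Finset (Fin n)))
    (hE : E ⊆ (hi w₀).powersetCard d) :
    ∑ e ∈ E, (covSet Dd 𝒞 Z₁ e).card ≤ covCount Dd 𝒞 d w₀ Z₁ :=
  j349x_count 𝒞 _ E hE (Cov Dd Z₁)

theorem j349x_piv {ι : Type*} {n : ℕ} (Dd : ι → Finset (Fin n) → Prop) (𝒞 : Finset ι)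
    (d w₀ : ℕ) (Z₁ X : Finset (Fin n)) (E : Finset (Finset (Fin n)))
    (hE : E ⊆ (hi w₀).powersetCard d) :
    ∑ e ∈ E, (pivSet Dd 𝒞 Z₁ X e).card ≤ pivCount Dd 𝒞 d w₀ Z₁ X :=
  j349x_count 𝒞 _ E hE (Piv Dd Z₁ X)

/-- TARGET 1. -/
theorem rx_choose {ι : Type*} (n r d q K K₀ m k₂ w₀ : ℕ) (Dd : ι → Finset (Fin n) → Prop)
    (𝒞 : Finset ι) (hK : 𝒞.card ≤ K) (Z₁ : Finset (Fin n)) (h2 : (Z₁ ∩ hi w₀).card ≤ k₂)
    (hr : 1 ≤ r) (hd : 1 ≤ d) (hq : 1 ≤ q) (hm : 1 ≤ m)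
    (hcov : covCount Dd 𝒞 d w₀ Z₁ ≤ 8 * K₀)
    (hpiv : ∀ j, 1 ≤ j → j < r → ∑ X ∈ (hi w₀).powersetCard j, pivCount Dd 𝒞 d w₀ Z₁ X ≤
        8 * r * (d * r * q) ^ j * K₀)
    (hM : 1 ≤ (n - w₀ - k₂).choose d)
    (hm2 : 32 * r ^ 2 * K₀ ≤ m * (n - w₀ - k₂).choose d) (hK4 : 4 * K ≤ (n - w₀ - k₂).choose d) :
    ∃ e : Finset (Fin n), e.card = d ∧ (∀ v ∈ e, w₀ ≤ v.val ∧ v ∉ Z₁) ∧
      (covSet Dd 𝒞 Z₁ e).card ≤ m ∧
      (∀ j, 1 ≤ j → j < r → ∑ X ∈ (hi w₀).powersetCard j, (pivSet Dd 𝒞 Z₁ X e).card ≤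
        (d * r * q) ^ j * m) ∧
      ∀ C ∈ 𝒞, (∀ v ∈ e, Dd C (insert v Z₁)) →
        ∃ v : Fin n, w₀ ≤ v.val ∧ v ∉ e ∧ Dd C (insert v Z₁) := by
  classical
  set M := (n - w₀ - k₂).choose d with hMd
  set E := (hi w₀ \ Z₁).powersetCard d with hE
  have hsub : E ⊆ (hi w₀).powersetCard d := Finset.powersetCard_mono Finset.sdiff_subset
  have hEcard : M ≤ E.card := by
    rw [hE, Finset.card_powersetCard, hMd]
    apply Nat.choose_le_choose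
    have h3 : ((hi w₀ : Finset (Fin n)) \ Z₁).card = (hi w₀ : Finset (Fin n)).card
        - (Z₁ ∩ hi w₀).card := Finset.card_sdiff
    rw [h3, j349x_card_hi]
    omega
  -- the first bad set
  have hB0 : 4 * (E.filter (fun e => ¬ (covSet Dd 𝒞 Z₁ e).card ≤ m)).card ≤ M := by
    have h3 : (E.filter (fun e => ¬ (covSet Dd 𝒞 Z₁ e).card ≤ m)).card * m ≤ 8 * K₀ := by
      refine (j349x_markov E (fun e => (covSet Dd 𝒞 Z₁ e).card) m).trans (le_trans ?_ hcov)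
      exact j349x_cov Dd 𝒞 d w₀ Z₁ E hsub
    have h4 : m * (4 * (E.filter (fun e => ¬ (covSet Dd 𝒞 Z₁ e).card ≤ m)).card) ≤ m * M := by
      refine le_trans ?_ hm2
      have h5 : 32 * K₀ ≤ 32 * r ^ 2 * K₀ := by
        have : 1 ≤ r ^ 2 := Nat.one_le_pow _ _ hr
        nlinarith
      nlinarith
    exact Nat.le_of_mul_le_mul_left h4 hm
  have hBj : ∀ j, 1 ≤ j → j < r → 4 * r * (E.filter (fun e => ¬ ∑ X ∈ (hi w₀).powersetCard j,
      (pivSet Dd 𝒞 Z₁ X e).card ≤ (d * r * q) ^ j * m)).card ≤ M := by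
    intro j hj1 hjr
    have hp : 1 ≤ (d * r * q) ^ j := Nat.one_le_pow _ _ (by positivity)
    have h3 : (E.filter (fun e => ¬ ∑ X ∈ (hi w₀).powersetCard j,
      (pivSet Dd 𝒞 Z₁ X e).card ≤ (d * r * q) ^ j * m)).card * ((d * r * q) ^ j * m) ≤
        8 * r * (d * r * q) ^ j * K₀ := by
      refine (j349x_markov E (fun e => ∑ X ∈ (hi w₀).powersetCard j,
        (pivSet Dd 𝒞 Z₁ X e).card) _).trans (le_trans ?_ (hpiv j hj1 hjr))
      rw [Finset.sum_comm]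
      exact Finset.sum_le_sum fun X _ => j349x_piv Dd 𝒞 d w₀ Z₁ X E hsub
    set b := (E.filter (fun e => ¬ ∑ X ∈ (hi w₀).powersetCard j,
      (pivSet Dd 𝒞 Z₁ X e).card ≤ (d * r * q) ^ j * m)).card with hb
    have h4 : b * m ≤ 8 * r * K₀ := by
      have h5 : (d * r * q) ^ j * (b * m) ≤ (d * r * q) ^ j * (8 * r * K₀) :=
        calc (d * r * q) ^ j * (b * m) = b * ((d * r * q) ^ j * m) := by ring
          _ ≤ 8 * r * (d * r * q) ^ j * K₀ := h3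
          _ = (d * r * q) ^ j * (8 * r * K₀) := by ring
      exact Nat.le_of_mul_le_mul_left h5 hp
    have h6 : m * (4 * r * b) ≤ m * M :=
      calc m * (4 * r * b) = 4 * r * (b * m) := by ring
        _ ≤ 4 * r * (8 * r * K₀) := Nat.mul_le_mul_left _ h4
        _ = 32 * r ^ 2 * K₀ := by ring
        _ ≤ m * M := hm2
    exact Nat.le_of_mul_le_mul_left h6 hm
  set BJ := (Finset.Ico 1 r).biUnion (fun j => E.filter (fun e => ¬ ∑ X ∈ (hi w₀).powersetCard j,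
      (pivSet Dd 𝒞 Z₁ X e).card ≤ (d * r * q) ^ j * m)) with hBJ
  have hBJc : 4 * BJ.card ≤ M := by
    have h3 : BJ.card ≤ ∑ j ∈ Finset.Ico 1 r, (E.filter (fun e =>
        ¬ ∑ X ∈ (hi w₀).powersetCard j, (pivSet Dd 𝒞 Z₁ X e).card ≤
          (d * r * q) ^ j * m)).card := Finset.card_biUnion_le
    have h4 : ∑ j ∈ Finset.Ico 1 r, 4 * r * (E.filter (fun e =>
        ¬ ∑ X ∈ (hi w₀).powersetCard j, (pivSet Dd 𝒞 Z₁ X e).card ≤
          (d * r * q) ^ j * m)).card ≤ ∑ j ∈ Finset.Ico 1 r, M :=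
      Finset.sum_le_sum fun j hj => hBj j (Finset.mem_Ico.1 hj).1 (Finset.mem_Ico.1 hj).2
    rw [← Finset.mul_sum, Finset.sum_const, Nat.card_Ico, smul_eq_mul] at h4
    have h5 : r * (4 * BJ.card) ≤ r * M :=
      calc r * (4 * BJ.card) = 4 * r * BJ.card := by ring
        _ ≤ _ := Nat.mul_le_mul_left _ h3
        _ ≤ (r - 1) * M := h4
        _ ≤ r * M := Nat.mul_le_mul_right _ (Nat.sub_le _ _)
    exact Nat.le_of_mul_le_mul_left h5 hr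
  set BF := 𝒞.image (fun C => (hi w₀).filter (fun v => Dd C (insert v Z₁))) with hBF
  have hBFc : 4 * BF.card ≤ M := by
    have : BF.card ≤ 𝒞.card := Finset.card_image_le
    omega
  obtain ⟨e, heE, heb⟩ : ∃ e ∈ E, e ∉ (E.filter (fun e => ¬ (covSet Dd 𝒞 Z₁ e).card ≤ m)) ∪
      (BJ ∪ BF) := by
    by_contra hcon
    have h3 : E ⊆ (E.filter (fun e => ¬ (covSet Dd 𝒞 Z₁ e).card ≤ m)) ∪ (BJ ∪ BF) :=
      fun e he => by_contra fun h => hcon ⟨e, he, h⟩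
    have h4 := Finset.card_le_card h3
    have h5 := Finset.card_union_le (E.filter (fun e => ¬ (covSet Dd 𝒞 Z₁ e).card ≤ m)) (BJ ∪ BF)
    have h6 := Finset.card_union_le BJ BF
    omega
  rw [Finset.mem_union, Finset.mem_union, not_or, not_or] at heb
  obtain ⟨hb1, hb2, hb3⟩ := heb
  obtain ⟨heh, hec⟩ := Finset.mem_powersetCard.1 heE
  refine ⟨e, hec, ?_, ?_, ?_, ?_⟩
  · intro v hv
    have := Finset.mem_sdiff.1 (heh hv)
    exact ⟨(Finset.mem_filter.1 this.1).2, this.2⟩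
  · by_contra hcon
    exact hb1 (Finset.mem_filter.2 ⟨heE, hcon⟩)
  · intro j hj1 hjr
    by_contra hcon
    exact hb2 (Finset.mem_biUnion.2 ⟨j, Finset.mem_Ico.2 ⟨hj1, hjr⟩,
      Finset.mem_filter.2 ⟨heE, hcon⟩⟩)
  · intro C hC hD
    have h3 : e ⊆ (hi w₀).filter (fun v => Dd C (insert v Z₁)) := by
      intro v hv
      exact Finset.mem_filter.2 ⟨(Finset.mem_sdiff.1 (heh hv)).1, hD v hv⟩
    have h4 : (hi w₀).filter (fun v => Dd C (insert v Z₁)) ≠ e := by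
      intro h5
      exact hb3 (Finset.mem_image.2 ⟨C, hC, h5⟩)
    obtain ⟨v, hv, hve⟩ : ∃ v ∈ (hi w₀).filter (fun v => Dd C (insert v Z₁)), v ∉ e := by
      by_contra hcon
      exact h4 (Finset.Subset.antisymm (fun v hv => by_contra fun h => hcon ⟨v, hv, h⟩) h3)
    rw [Finset.mem_filter] at hv
    exact ⟨v, (Finset.mem_filter.1 hv.1).2, hve, hv.2⟩

/-- TARGET 2. -/
theorem rx_Z {ι : Type*} (n d k k₁ k₂ m w₀ : ℕ) (Dd : ι → Finset (Fin n) → Prop)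
    (hmono : ∀ C S S', S ⊆ S' → Dd C S → Dd C S')
    (𝒞 : Finset ι) (Z₁ e : Finset (Fin n)) (h1 : (Z₁ ∩ lo w₀).card ≤ k₁)
    (h2 : (Z₁ ∩ hi w₀).card ≤ k₂) (he : e.card = d) (heZ : ∀ v ∈ e, w₀ ≤ v.val ∧ v ∉ Z₁)
    (hcov : (covSet Dd 𝒞 Z₁ e).card ≤ m)
    (hA : ∀ C ∈ 𝒞, (∀ v ∈ e, Dd C (insert v Z₁)) →
      ∃ v : Fin n, w₀ ≤ v.val ∧ v ∉ e ∧ Dd C (insert v Z₁))
    (hk : k₁ + k₂ + m ≤ k) (hn : w₀ + k + d ≤ n) :
    ∃ Z : Finset (Fin n), Z₁ ⊆ Z ∧ Z.card = k ∧ Disjoint e Z ∧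
      (∀ x ∈ Z, x.val < w₀ → x ∈ Z₁) ∧
      ∀ C ∈ 𝒞, ¬ Dd C Z → ¬ ∀ v ∈ e, Dd C (insert v Z₁) := by
  classical
  have hch : ∀ C ∈ covSet Dd 𝒞 Z₁ e, ∃ v : Fin n, w₀ ≤ v.val ∧ v ∉ e ∧ Dd C (insert v Z₁) := by
    intro C hC
    have h3 := Finset.mem_filter.1 hC
    exact hA C h3.1 h3.2.2
  choose v hv using hch
  set Y := (covSet Dd 𝒞 Z₁ e).attach.image (fun C => v C.1 C.2) with hY
  have hYm : ∀ x ∈ Y, w₀ ≤ x.val ∧ x ∉ e := by
    intro x hx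
    obtain ⟨C, -, rfl⟩ := Finset.mem_image.1 hx
    exact ⟨(hv C.1 C.2).1, (hv C.1 C.2).2.1⟩
  have hYc : Y.card ≤ m := by
    refine (Finset.card_image_le).trans ?_
    rw [Finset.card_attach]
    exact hcov
  have hZ1 : Z₁.card ≤ k₁ + k₂ := by
    have h3 : Z₁ ⊆ (Z₁ ∩ lo w₀) ∪ (Z₁ ∩ hi w₀) := by
      intro x hx
      by_cases h4 : x.val < w₀
      · exact Finset.mem_union_left _ (Finset.mem_inter.2 ⟨hx, Finset.mem_filter.2
          ⟨Finset.mem_univ _, h4⟩⟩)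
      · exact Finset.mem_union_right _ (Finset.mem_inter.2 ⟨hx, Finset.mem_filter.2
          ⟨Finset.mem_univ _, not_lt.1 h4⟩⟩)
    have h4 := Finset.card_le_card h3
    have h5 := Finset.card_union_le (Z₁ ∩ lo w₀) (Z₁ ∩ hi w₀)
    omega
  have hZ2 : (Z₁ ∪ Y).card ≤ k := by
    have := Finset.card_union_le Z₁ Y
    omega
  have hU : k ≤ ((Z₁ ∪ Y) ∪ (hi w₀ \ e)).card := by
    have h3 : (hi w₀ \ e).card ≤ ((Z₁ ∪ Y) ∪ (hi w₀ \ e)).card :=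
      Finset.card_le_card Finset.subset_union_right
    have h4 : (hi w₀ : Finset (Fin n)).card - e.card ≤ (hi w₀ \ e).card :=
      Finset.le_card_sdiff _ _
    rw [j349x_card_hi] at h4
    omega
  obtain ⟨Z, hZl, hZu, hZc⟩ := Finset.exists_subsuperset_card_eq
    (Finset.subset_union_left : Z₁ ∪ Y ⊆ (Z₁ ∪ Y) ∪ (hi w₀ \ e)) hZ2 hU
  refine ⟨Z, (Finset.subset_union_left).trans hZl, hZc, ?_, ?_, ?_⟩
  · rw [Finset.disjoint_left]
    intro x hxe hxZ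
    have h3 := hZu hxZ
    rw [Finset.mem_union, Finset.mem_union] at h3
    rcases h3 with (h3 | h3) | h3
    · exact (heZ x hxe).2 h3
    · exact (hYm x h3).2 hxe
    · exact (Finset.mem_sdiff.1 h3).2 hxe
  · intro x hxZ hxw
    have h3 := hZu hxZ
    rw [Finset.mem_union, Finset.mem_union] at h3
    rcases h3 with (h3 | h3) | h3
    · exact h3
    · exact absurd (hYm x h3).1 (not_le.2 hxw)
    · exact absurd (Finset.mem_filter.1 (Finset.mem_sdiff.1 h3).1).2 (not_le.2 hxw)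
  · intro C hC hCZ hD
    have h3 : ¬ Dd C Z₁ := fun h =>
      hCZ (hmono C Z₁ Z ((Finset.subset_union_left).trans hZl) h)
    have h4 : C ∈ covSet Dd 𝒞 Z₁ e := Finset.mem_filter.2 ⟨hC, h3, hD⟩
    refine hCZ (hmono C (insert (v C h4) Z₁) Z ?_ (hv C h4).2.2)
    intro x hx
    rcases Finset.mem_insert.1 hx with rfl | hx
    · exact hZl (Finset.mem_union_right _ (Finset.mem_image.2 ⟨⟨C, h4⟩, Finset.mem_attach _ _, rfl⟩))
    · exact hZl (Finset.mem_union_left _ hx)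

end Pool.Agent.Helper650_LocX

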