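import Pool.Agent.Helper650_LocX.Defs

/-!
# The closure process

Plain words.  Call a number `s` together with `hs : Fin s → Finset (Fin n)`, `vs : Fin s → Fin n` a chain if
`hs i ∈ D`, `z (hs i) ∉ Z₁`, the `z (hs i)` are distinct, `vs i ∈ e`, and
`(hs i).erase (z (hs i)) ⊆ A (insert (vs i) {z (hs l) | l < i})`.  For a chain `s ≤ |D|`, so `s + 1 ≤ r`.
Take a chain with `s` maximal (the empty chain exists) and let `X₀ = {z (hs l)}`, a subset of `Z` disjoint
from `Z₁`.  Claim: `Dd C (insert v (X₀ ∪ Z₁))` for all `v ∈ e`.  Otherwise let `v ∈ e` be such that it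
fails; put `S = insert v X₀`, `|S| ≤ r`, `¬ Dd C (S ∪ Z₁)`.  By maximality for every `h ∈ D` with
`z h ∉ Z₁ ∪ X₀` the set `h.erase (z h)` is not contained in `A S` (otherwise the chain could be extended by
`h` and `v`), so it has an element `u h ∉ A S`; for the other `h ∈ D` put `u h = z h ∈ Z₁ ∪ X₀`.  By
`hdead` `Dd C (insert v (D.image u))`, so `Dd C (S ∪ Z₁ ∪ w)` where `w` is the set of the `u h` with
`z h ∉ Z₁ ∪ X₀`, which are below `w₀`; by `hA` `w` meets `A S`, a contradiction.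
Let `X` be a minimal subset of `X₀` with `∀ v ∈ e, Dd C (insert v (Z₁ ∪ X))`.  By `hnc` it is nonempty.
`¬ Dd C (Z₁ ∪ X)` since `Z₁ ∪ X ⊆ Z`.  If `x ∈ X` then by minimality there is `v ∈ e` with
`¬ Dd C (insert v (Z₁ ∪ X.erase x))`, and `(Z₁ ∪ X).erase x ⊆ Z₁ ∪ X.erase x`.  So
`Piv Dd Z₁ X C e`.
-/

namespace Pool.Agent.Helper650_LocX

/-- The chain property. -/
def hx618_Chain {n : ℕ} (Z₁ e : Finset (Fin n))
    (D : Finset (Finset (Fin n))) (z : Finset (Fin n) → Fin n)
    (A : Finset (Fin n) → Finset (Fin n)) (s : ℕ) (hs : Fin s → Finset (Fin n))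
    (vs : Fin s → Fin n) : Prop :=
  (∀ i, hs i ∈ D ∧ z (hs i) ∉ Z₁) ∧
      Function.Injective (fun i => z (hs i)) ∧
      (∀ i, vs i ∈ e ∧ (hs i).erase (z (hs i)) ⊆
        A (insert (vs i) ((Finset.univ.filter (fun l => l < i)).image (fun l => z (hs l)))))

theorem hx618_chain_le {n : ℕ} {Z₁ e : Finset (Fin n)}
    {D : Finset (Finset (Fin n))} {z : Finset (Fin n) → Fin n}
    {A : Finset (Fin n) → Finset (Fin n)} {s : ℕ} {hs : Fin s → Finset (Fin n)}
    {vs : Fin s → Fin n} (h : hx618_Chain Z₁ e D z A s hs vs) : s ≤ D.card := by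
  have hinj : Function.Injective hs := by
    intro i j hij
    apply h.2.1
    show z (hs i) = z (hs j)
    rw [hij]
  have h1 : (Finset.univ.image hs).card = s := by
    rw [Finset.card_image_of_injective _ hinj, Finset.card_univ, Fintype.card_fin]
  rw [← h1]
  apply Finset.card_le_card
  intro x hx
  rw [Finset.mem_image] at hx
  obtain ⟨i, _, rfl⟩ := hx
  exact (h.1 i).1

theorem hx618_chain_snoc {n : ℕ} {Z₁ e : Finset (Fin n)}
    {D : Finset (Finset (Fin n))} {z : Finset (Fin n) → Fin n}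
    {A : Finset (Fin n) → Finset (Fin n)} {s : ℕ} {hs : Fin s → Finset (Fin n)}
    {vs : Fin s → Fin n} (hc : hx618_Chain Z₁ e D z A s hs vs) (h : Finset (Fin n)) (v : Fin n)
    (hD : h ∈ D) (hZ : z h ∉ Z₁) (hX : ∀ i, z (hs i) ≠ z h) (hv : v ∈ e)
    (hsub : h.erase (z h) ⊆ A (insert v (Finset.univ.image (fun l => z (hs l))))) :
    hx618_Chain Z₁ e D z A (s + 1) (Fin.snoc (α := fun _ => Finset (Fin n)) hs h)
      (Fin.snoc (α := fun _ => Fin n) vs v) := by
  have himg : ∀ i : Fin s, ((Finset.univ.filter (fun l => l < i.castSucc)).image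
      (fun l => z ((Fin.snoc (α := fun _ => Finset (Fin n)) hs h : Fin (s + 1) → Finset (Fin n)) l)))
      = ((Finset.univ.filter (fun l => l < i)).image (fun l => z (hs l))) := by
    intro i
    ext x
    simp only [Finset.mem_image, Finset.mem_filter, Finset.mem_univ, true_and]
    constructor
    · rintro ⟨l, hl, rfl⟩
      have hls : l.val < s := lt_trans (Fin.lt_def.mp hl) i.isLt
      refine ⟨⟨l.val, hls⟩, Fin.lt_def.mpr (Fin.lt_def.mp hl), ?_⟩
      have : l = Fin.castSucc ⟨l.val, hls⟩ := by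
        ext
        rfl
      conv_rhs => rw [this]
      rw [Fin.snoc_castSucc]
    · rintro ⟨l, hl, rfl⟩
      refine ⟨l.castSucc, Fin.lt_def.mpr (Fin.lt_def.mp hl), ?_⟩
      rw [Fin.snoc_castSucc]
  have himg2 : ((Finset.univ.filter (fun l => l < Fin.last s)).image
      (fun l => z ((Fin.snoc (α := fun _ => Finset (Fin n)) hs h : Fin (s + 1) → Finset (Fin n)) l)))
      = (Finset.univ.image (fun l => z (hs l))) := by
    ext x
    simp only [Finset.mem_image, Finset.mem_filter, Finset.mem_univ, true_and]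
    constructor
    · rintro ⟨l, hl, rfl⟩
      have hls : l.val < s := Fin.lt_def.mp hl
      refine ⟨⟨l.val, hls⟩, ?_⟩
      have : l = Fin.castSucc ⟨l.val, hls⟩ := by
        ext
        rfl
      conv_rhs => rw [this]
      rw [Fin.snoc_castSucc]
    · rintro ⟨l, rfl⟩
      refine ⟨l.castSucc, Fin.castSucc_lt_last l, ?_⟩
      rw [Fin.snoc_castSucc]
  refine ⟨?_, ?_, ?_⟩
  · intro i
    refine Fin.lastCases ?_ (fun j => ?_) i
    · rw [Fin.snoc_last]
      exact ⟨hD, hZ⟩
    · rw [Fin.snoc_castSucc]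
      exact hc.1 j
  · intro i j
    refine Fin.lastCases ?_ (fun i' => ?_) i
    · refine Fin.lastCases ?_ (fun j' => ?_) j
      · intro _
        rfl
      · intro hij
        simp only [Fin.snoc_last, Fin.snoc_castSucc] at hij
        exact absurd hij.symm (hX j')
    · refine Fin.lastCases ?_ (fun j' => ?_) j
      · intro hij
        simp only [Fin.snoc_last, Fin.snoc_castSucc] at hij
        exact absurd hij (hX i')
      · intro hij
        simp only [Fin.snoc_castSucc] at hij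
        exact congrArg Fin.castSucc (hc.2.1 hij)
  · intro i
    refine Fin.lastCases ?_ (fun j => ?_) i
    · rw [himg2, Fin.snoc_last, Fin.snoc_last]
      exact ⟨hv, hsub⟩
    · rw [himg j, Fin.snoc_castSucc, Fin.snoc_castSucc]
      exact hc.2.2 j

/-- TARGET 1. -/
theorem rx_closure {ι : Type*} {n : ℕ} (Dd : ι → Finset (Fin n) → Prop)
    (hmono : ∀ C S S', S ⊆ S' → Dd C S → Dd C S') (r w₀ : ℕ) (Z₁ Z e : Finset (Fin n)) (C : ι)
    (D : Finset (Finset (Fin n))) (z : Finset (Fin n) → Fin n)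
    (A : Finset (Fin n) → Finset (Fin n)) (hZ : Z₁ ⊆ Z) (hDr : D.card + 1 ≤ r)
    (hz : ∀ h ∈ D, z h ∈ h ∧ z h ∈ Z ∧ ∀ x ∈ h, x ≠ z h → x.val < w₀)
    (halive : ¬ Dd C Z)
    (hdead : ∀ v ∈ e, ∀ u : Finset (Fin n) → Fin n, (∀ h ∈ D, u h ∈ h) →
      Dd C (insert v (D.image u)))
    (hA : ∀ S : Finset (Fin n), S.card ≤ r → ¬ Dd C (S ∪ Z₁) → ∀ w : Finset (Fin n),
      (∀ x ∈ w, x.val < w₀) → Dd C (S ∪ Z₁ ∪ w) → ¬ Disjoint w (A S))
    (hnc : ¬ ∀ v ∈ e, Dd C (insert v Z₁)) :
    ∃ (s : ℕ) (hs : Fin s → Finset (Fin n)) (vs : Fin s → Fin n) (X : Finset (Fin n)),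
      s + 1 ≤ r ∧ (∀ i, hs i ∈ D ∧ z (hs i) ∉ Z₁) ∧
      Function.Injective (fun i => z (hs i)) ∧
      (∀ i, vs i ∈ e ∧ (hs i).erase (z (hs i)) ⊆
        A (insert (vs i) ((Finset.univ.filter (fun l => l < i)).image (fun l => z (hs l))))) ∧
      X.Nonempty ∧ (∀ y ∈ X, ∃ i, z (hs i) = y) ∧ Piv Dd Z₁ X C e := by
  classical
  have hex : ∃ s : ℕ, ∃ (hs : Fin s → Finset (Fin n)) (vs : Fin s → Fin n),
      hx618_Chain Z₁ e D z A s hs vs := by
    refine ⟨0, fun i => i.elim0, fun i => i.elim0, fun i => i.elim0, fun i => i.elim0,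
      fun i => i.elim0⟩
  -- a maximal chain
  obtain ⟨s, ⟨hs, vs, hc⟩, hmax⟩ : ∃ s : ℕ, (∃ (hs : Fin s → Finset (Fin n)) (vs : Fin s → Fin n),
      hx618_Chain Z₁ e D z A s hs vs) ∧ ¬ (∃ (hs : Fin (s + 1) → Finset (Fin n))
        (vs : Fin (s + 1) → Fin n), hx618_Chain Z₁ e D z A (s + 1) hs vs) := by
    by_contra hno
    push Not at hno
    have hall : ∀ s : ℕ, ∃ (hs : Fin s → Finset (Fin n)) (vs : Fin s → Fin n),
        hx618_Chain Z₁ e D z A s hs vs := by
      intro s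
      induction s with
      | zero => exact ⟨fun i => i.elim0, fun i => i.elim0, fun i => i.elim0, fun i => i.elim0,
          fun i => i.elim0⟩
      | succ k ih => exact hno k ih
    obtain ⟨hs, vs, hc⟩ := hall (D.card + 1)
    have := hx618_chain_le hc
    omega
  have hsD : s ≤ D.card := hx618_chain_le hc
  set X₀ : Finset (Fin n) := Finset.univ.image (fun l => z (hs l)) with hX₀
  have hX₀card : X₀.card ≤ s := by
    rw [hX₀]
    refine le_trans Finset.card_image_le ?_
    rw [Finset.card_univ, Fintype.card_fin]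
  have hX₀Z : X₀ ⊆ Z := by
    intro x hx
    rw [hX₀, Finset.mem_image] at hx
    obtain ⟨i, _, rfl⟩ := hx
    exact (hz _ (hc.1 i).1).2.1
  have hX₀d : Disjoint X₀ Z₁ := by
    rw [Finset.disjoint_left]
    intro x hx
    rw [hX₀, Finset.mem_image] at hx
    obtain ⟨i, _, rfl⟩ := hx
    exact (hc.1 i).2
  -- the closure covers
  have hcov : ∀ v ∈ e, Dd C (insert v (Z₁ ∪ X₀)) := by
    intro v hv
    by_contra hnd
    have hScard : (insert v X₀).card ≤ r := by
      have := Finset.card_insert_le v X₀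
      omega
    have hSZ : insert v X₀ ∪ Z₁ = insert v (Z₁ ∪ X₀) := by
      rw [Finset.insert_union, Finset.union_comm X₀ Z₁]
    have hne : ∀ h ∈ D, z h ∉ Z₁ ∪ X₀ → ∃ x ∈ h.erase (z h), x ∉ A (insert v X₀) := by
      intro h hD hzh
      by_contra hno
      push Not at hno
      apply hmax
      rw [Finset.mem_union, not_or] at hzh
      refine ⟨_, _, hx618_chain_snoc hc h v hD hzh.1 ?_ hv (fun x hx => hno x hx)⟩
      intro i hi
      apply hzh.2
      rw [hX₀, Finset.mem_image]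
      exact ⟨i, Finset.mem_univ _, hi⟩
    have hu : ∀ h : Finset (Fin n), ∃ x : Fin n, h ∈ D →
        (z h ∈ Z₁ ∪ X₀ → x = z h) ∧
        (z h ∉ Z₁ ∪ X₀ → x ∈ h.erase (z h) ∧ x ∉ A (insert v X₀)) := by
      intro h
      by_cases hD : h ∈ D
      · by_cases hzh : z h ∈ Z₁ ∪ X₀
        · exact ⟨z h, fun _ => ⟨fun _ => rfl, fun hh => absurd hzh hh⟩⟩
        · obtain ⟨x, hx1, hx2⟩ := hne h hD hzh
          exact ⟨x, fun _ => ⟨fun hh => absurd hh hzh, fun _ => ⟨hx1, hx2⟩⟩⟩
      · exact ⟨v, fun hh => absurd hh hD⟩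
    choose u hu using hu
    have hum : ∀ h ∈ D, u h ∈ h := by
      intro h hD
      by_cases hzh : z h ∈ Z₁ ∪ X₀
      · rw [(hu h hD).1 hzh]
        exact (hz h hD).1
      · exact Finset.mem_of_mem_erase ((hu h hD).2 hzh).1
    have hdd := hdead v hv u hum
    set w : Finset (Fin n) := (D.filter (fun h => z h ∉ Z₁ ∪ X₀)).image u with hw
    have hsub : insert v (D.image u) ⊆ insert v X₀ ∪ Z₁ ∪ w := by
      intro x hx
      rw [Finset.mem_insert] at hx
      rcases hx with rfl | hx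
      · simp
      · rw [Finset.mem_image] at hx
        obtain ⟨h, hD, rfl⟩ := hx
        by_cases hzh : z h ∈ Z₁ ∪ X₀
        · rw [(hu h hD).1 hzh]
          rw [Finset.mem_union] at hzh
          simp only [Finset.mem_union, Finset.mem_insert]
          tauto
        · apply Finset.mem_union_right
          rw [hw, Finset.mem_image]
          exact ⟨h, Finset.mem_filter.mpr ⟨hD, hzh⟩, rfl⟩
    have hd2 : Dd C (insert v X₀ ∪ Z₁ ∪ w) := hmono C _ _ hsub hdd
    have hnd2 : ¬ Dd C (insert v X₀ ∪ Z₁) := by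
      rw [hSZ]
      exact hnd
    have hw0 : ∀ x ∈ w, x.val < w₀ := by
      intro x hx
      rw [hw, Finset.mem_image] at hx
      obtain ⟨h, hh, rfl⟩ := hx
      rw [Finset.mem_filter] at hh
      have h1 := ((hu h hh.1).2 hh.2).1
      rw [Finset.mem_erase] at h1
      exact (hz h hh.1).2.2 _ h1.2 h1.1
    apply hA (insert v X₀) hScard hnd2 w hw0 hd2
    rw [Finset.disjoint_left]
    intro x hx
    rw [hw, Finset.mem_image] at hx
    obtain ⟨h, hh, rfl⟩ := hx
    rw [Finset.mem_filter] at hh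
    exact ((hu h hh.1).2 hh.2).2
  -- a minimal covering subset
  have hmin : ∀ m : ℕ, ∀ Y : Finset (Fin n), Y.card = m → Y ⊆ X₀ →
      (∀ v ∈ e, Dd C (insert v (Z₁ ∪ Y))) →
      ∃ X ⊆ X₀, (∀ v ∈ e, Dd C (insert v (Z₁ ∪ X))) ∧
        ∀ x ∈ X, ∃ v ∈ e, ¬ Dd C (insert v (Z₁ ∪ X.erase x)) := by
    intro m
    induction m using Nat.strong_induction_on with
    | _ m ih =>
      intro Y hYc hYs hYd
      by_cases hY : ∀ x ∈ Y, ∃ v ∈ e, ¬ Dd C (insert v (Z₁ ∪ Y.erase x))
      · exact ⟨Y, hYs, hYd, hY⟩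
      · push Not at hY
        obtain ⟨x, hx, hxd⟩ := hY
        refine ih (Y.erase x).card ?_ (Y.erase x) rfl
          (fun y hy => hYs (Finset.mem_of_mem_erase hy)) hxd
        rw [← hYc]
        exact Finset.card_erase_lt_of_mem hx
  obtain ⟨X, hXs, hXd, hXm⟩ := hmin X₀.card X₀ rfl (fun _ h => h) hcov
  refine ⟨s, hs, vs, X, by omega, hc.1, hc.2.1, hc.2.2, ?_, ?_, ?_, ⟨?_, hXd⟩, ?_⟩
  · rw [Finset.nonempty_iff_ne_empty]
    rintro rfl
    apply hnc
    intro v hv
    have := hXd v hv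
    rwa [Finset.union_empty] at this
  · intro y hy
    have := hXs hy
    rw [hX₀, Finset.mem_image] at this
    obtain ⟨i, _, hi⟩ := this
    exact ⟨i, hi⟩
  · exact Finset.disjoint_of_subset_left hXs hX₀d
  · intro hd
    exact halive (hmono C _ _ (Finset.union_subset hZ (fun x hx => hX₀Z (hXs hx))) hd)
  · intro x hx
    obtain ⟨v, hv, hvd⟩ := hXm x hx
    refine ⟨v, hv, fun hd => hvd (hmono C _ _ ?_ hd)⟩
    apply Finset.insert_subset_insert
    intro y hy
    rw [Finset.mem_erase, Finset.mem_union] at hy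
    rw [Finset.mem_union, Finset.mem_erase]
    rcases hy.2 with h | h
    · exact Or.inl h
    · exact Or.inr ⟨hy.1, h⟩

end Pool.Agent.Helper650_LocX

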