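import Pool.Agent.Helper650_LocX.Defs

/-!
# Counting configurations

Plain words.  For every `κ` in the set choose `C, X, x, gg, vs`.  `X ⊆ Z` is disjoint from `Z₁` (this is part
of `Piv`), so by `hZW` `X ⊆ hi w₀`: the number of pairs `(X, C)` is at most `T` by `hT`.  For given `X`
the number of the `x : Fin s → Fin n` with `x i ∈ Z` and `X ⊆ range x` is at most `s^j k^(s - j)`: choose for
every `y ∈ X` a position `π y` with `x (π y) = y` (`π` is injective; at most `s^j` maps `π`), then `x` is
determined by its values (in `Z`, `|Z| = k`) at the `s - j` positions not in the range of `π`.  For given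
`C` and `x`, for each `i` there are at most `d` values `vs i ∈ e` and for each of them at most
`Λ.choose (d - 1) ≤ Λ^(d - 1)` sets `gg i` with `d - 1` elements contained in
`A C (insert (vs i) (...))`; for all `i` together at most `(d Λ^(d - 1))^s`.
-/

namespace Pool.Agent.Helper650_LocX

/-- auxiliary: a filtered set is at most as large as any finite set containing it -/
theorem h452x_card_filter_le {α : Type*} {inst1 : Fintype α} (P : α → Prop)
    {inst2 : DecidablePred P} (B : Finset α) (h : ∀ a, P a → a ∈ B) :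
    ((Finset.univ : Finset α).filter P).card ≤ B.card :=
  Finset.card_le_card (fun a ha => h a (Finset.mem_filter.1 ha).2)

/-- auxiliary: number of the `x` with values in `Z` covering `X` -/
theorem h452x_xcount {s n j k : ℕ} (X Z : Finset (Fin n)) (hX : X.card = j) (hZ : Z.card = k)
    (S : Finset (Fin s → Fin n))
    (hS : ∀ x ∈ S, (∀ i, x i ∈ Z) ∧ ∀ y ∈ X, ∃ i, x i = y) :
    S.card ≤ s ^ j * k ^ (s - j) := by
  classical
  let t : (X → Fin s) → Fin s → Finset (Fin n) := fun π i =>
    if h : ∃ y, π y = i then {(h.choose : Fin n)} else Z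
  have hsub : S ⊆ ((Finset.univ : Finset (X → Fin s)).filter (fun π => Function.Injective π)).biUnion
      (fun π => Fintype.piFinset (t π)) := by
    intro x hx
    obtain ⟨h1, h2⟩ := hS x hx
    have h3 : ∀ y : X, ∃ i, x i = y := fun y => h2 y y.2
    choose π hπ using h3
    refine Finset.mem_biUnion.2 ⟨π, ?_, ?_⟩
    · refine Finset.mem_filter.2 ⟨Finset.mem_univ _, ?_⟩
      intro a b hab
      apply Subtype.ext
      rw [← hπ a, ← hπ b, hab]
    · rw [Fintype.mem_piFinset]
      intro i
      by_cases h : ∃ y, π y = i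
      · have : t π i = {(h.choose : Fin n)} := by
          simp only [t]
          rw [dif_pos h]
        rw [this, Finset.mem_singleton, ← hπ h.choose, h.choose_spec]
      · have : t π i = Z := by
          simp only [t]
          rw [dif_neg h]
        rw [this]
        exact h1 i
  refine (Finset.card_le_card hsub).trans ?_
  have hcard : ∀ π ∈ (Finset.univ : Finset (X → Fin s)).filter (fun π => Function.Injective π),
      (Fintype.piFinset (t π)).card ≤ k ^ (s - j) := by
    intro π hπ
    have hinj : Function.Injective π := (Finset.mem_filter.1 hπ).2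
    rw [Fintype.card_piFinset]
    have h1 : ∀ i, (t π i).card = if i ∈ (Finset.univ : Finset X).image π then 1 else k := by
      intro i
      by_cases h : ∃ y, π y = i
      · have h2 : i ∈ (Finset.univ : Finset X).image π := by
          obtain ⟨y, hy⟩ := h
          exact Finset.mem_image.2 ⟨y, Finset.mem_univ _, hy⟩
        rw [if_pos h2]
        have : t π i = {(h.choose : Fin n)} := by
          simp only [t]
          rw [dif_pos h]
        rw [this, Finset.card_singleton]
      · have h2 : i ∉ (Finset.univ : Finset X).image π := by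
          intro h3
          obtain ⟨y, -, hy⟩ := Finset.mem_image.1 h3
          exact h ⟨y, hy⟩
        rw [if_neg h2]
        have : t π i = Z := by
          simp only [t]
          rw [dif_neg h]
        rw [this, hZ]
    rw [Finset.prod_congr rfl (fun i _ => h1 i), Finset.prod_ite, Finset.prod_const_one, one_mul,
      Finset.prod_const]
    have h2 : ((Finset.univ : Finset (Fin s)).filter
        (fun i => ¬ i ∈ (Finset.univ : Finset X).image π)).card = s - j := by
      rw [Finset.filter_not, Finset.card_sdiff_of_subset (Finset.filter_subset _ _)]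
      congr 1
      · simp
      · have h3 : (Finset.univ : Finset (Fin s)).filter
            (fun i => i ∈ (Finset.univ : Finset X).image π) = (Finset.univ : Finset X).image π := by
          ext i
          simp
        rw [h3, Finset.card_image_of_injective _ hinj]
        simp [hX]
    rw [h2]
  refine (Finset.card_biUnion_le_card_mul _ _ _ hcard).trans ?_
  refine Nat.mul_le_mul_right _ ?_
  refine (Finset.card_filter_le _ _).trans ?_
  rw [Finset.card_univ, Fintype.card_fun, Fintype.card_fin, Fintype.card_coe, hX]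

open Classical in
/-- TARGET 1. -/
theorem rx_confcount {ι : Type*} (n d k Λ T s j w₀ : ℕ) (hd : 1 ≤ d)
    (Dd : ι → Finset (Fin n) → Prop) (𝒞 : Finset ι) (Z₁ Z e : Finset (Fin n))
    (A : ι → Finset (Fin n) → Finset (Fin n)) (hA : ∀ C S, (A C S).card ≤ Λ)
    (he : e.card = d) (hZ : Z.card = k) (hZW : ∀ x ∈ Z, x.val < w₀ → x ∈ Z₁)
    (hT : ∑ X ∈ (hi w₀).powersetCard j, (pivSet Dd 𝒞 Z₁ X e).card ≤ T) (hjs : j ≤ s) :
    ((Finset.univ : Finset (Finset (Fin n × Finset (Fin n)))).filter (fun κ =>
      ∃ C ∈ 𝒞, ∃ X : Finset (Fin n), X.card = j ∧ Piv Dd Z₁ X C e ∧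
        ∃ (x : Fin s → Fin n) (gg : Fin s → Finset (Fin n)) (vs : Fin s → Fin n),
          (∀ i, x i ∈ Z) ∧ (∀ y ∈ X, ∃ i, x i = y) ∧
          (∀ i, (gg i).card = d - 1 ∧ vs i ∈ e ∧
            gg i ⊆ A C (insert (vs i) ((Finset.univ.filter (fun l => l < i)).image x))) ∧
          κ = Finset.univ.image (fun i => (x i, gg i)))).card ≤
      T * (s ^ j * k ^ (s - j)) * (d * Λ ^ (d - 1)) ^ s := by
  let XS : Finset (Fin n) → Finset (Fin s → Fin n) := fun X =>
    Finset.univ.filter (fun x => (∀ i, x i ∈ Z) ∧ ∀ y ∈ X, ∃ i, x i = y)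
  let G : ι → (Fin s → Fin n) → Fin s → Finset (Finset (Fin n)) := fun C x i =>
    e.biUnion (fun v =>
      (A C (insert v ((Finset.univ.filter (fun l => l < i)).image x))).powersetCard (d - 1))
  let F : ι → (Fin s → Fin n) → Finset (Finset (Fin n × Finset (Fin n))) := fun C x =>
    (Fintype.piFinset (G C x)).image (fun gg => Finset.univ.image (fun i => (x i, gg i)))
  refine le_trans (h452x_card_filter_le _ (((hi w₀).powersetCard j).biUnion (fun X =>
      (pivSet Dd 𝒞 Z₁ X e).biUnion (fun C => (XS X).biUnion (fun x => F C x)))) ?_) ?_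
  · rintro κ ⟨C, hC, X, hXj, hPiv, x, gg, vs, hxZ, hXx, hgg, hκ⟩
    refine Finset.mem_biUnion.2 ⟨X, ?_, ?_⟩
    · rw [Finset.mem_powersetCard]
      refine ⟨?_, hXj⟩
      intro y hy
      obtain ⟨i, hi'⟩ := hXx y hy
      have hyZ : y ∈ Z := hi' ▸ hxZ i
      refine Finset.mem_filter.2 ⟨Finset.mem_univ _, ?_⟩
      by_contra hlt
      have h1 := hZW y hyZ (not_le.1 hlt)
      exact (Finset.disjoint_left.1 hPiv.1) hy h1
    · refine Finset.mem_biUnion.2 ⟨C, ?_, ?_⟩
      · exact Finset.mem_filter.2 ⟨hC, hPiv⟩
      · refine Finset.mem_biUnion.2 ⟨x, ?_, ?_⟩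
        · exact Finset.mem_filter.2 ⟨Finset.mem_univ _, hxZ, hXx⟩
        · refine Finset.mem_image.2 ⟨gg, ?_, hκ.symm⟩
          rw [Fintype.mem_piFinset]
          intro i
          refine Finset.mem_biUnion.2 ⟨vs i, (hgg i).2.1, ?_⟩
          rw [Finset.mem_powersetCard]
          exact ⟨(hgg i).2.2, (hgg i).1⟩
  have hG : ∀ C x i, (G C x i).card ≤ d * Λ ^ (d - 1) := by
    intro C x i
    have h1 : (G C x i).card ≤ e.card * Λ ^ (d - 1) := by
      refine Finset.card_biUnion_le_card_mul _ _ _ ?_
      intro v _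
      rw [Finset.card_powersetCard]
      exact (Nat.choose_le_pow _ _).trans (Nat.pow_le_pow_left (hA _ _) _)
    rwa [he] at h1
  have hF : ∀ C x, (F C x).card ≤ (d * Λ ^ (d - 1)) ^ s := by
    intro C x
    refine Finset.card_image_le.trans ?_
    rw [Fintype.card_piFinset]
    refine (Finset.prod_le_pow_card _ _ _ (fun i _ => hG C x i)).trans ?_
    rw [Finset.card_univ, Fintype.card_fin]
  have hXS : ∀ X : Finset (Fin n), X.card = j → (XS X).card ≤ s ^ j * k ^ (s - j) := by
    intro X hX
    refine h452x_xcount X Z hX hZ (XS X) ?_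
    intro x hx
    exact (Finset.mem_filter.1 hx).2
  calc _ ≤ ∑ X ∈ (hi w₀).powersetCard j, ((pivSet Dd 𝒞 Z₁ X e).biUnion
          (fun C => (XS X).biUnion (fun x => F C x))).card := Finset.card_biUnion_le
    _ ≤ ∑ X ∈ (hi w₀).powersetCard j, (pivSet Dd 𝒞 Z₁ X e).card *
          ((s ^ j * k ^ (s - j)) * (d * Λ ^ (d - 1)) ^ s) := by
        refine Finset.sum_le_sum ?_
        intro X hX
        refine Finset.card_biUnion_le_card_mul _ _ _ ?_
        intro C _
        refine (Finset.card_biUnion_le_card_mul _ _ _ (fun x _ => hF C x)).trans ?_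
        exact Nat.mul_le_mul_right _ (hXS X (Finset.mem_powersetCard.1 hX).2)
    _ = (∑ X ∈ (hi w₀).powersetCard j, (pivSet Dd 𝒞 Z₁ X e).card) *
          ((s ^ j * k ^ (s - j)) * (d * Λ ^ (d - 1)) ^ s) := by rw [Finset.sum_mul]
    _ ≤ T * ((s ^ j * k ^ (s - j)) * (d * Λ ^ (d - 1)) ^ s) := Nat.mul_le_mul_right _ hT
    _ = T * (s ^ j * k ^ (s - j)) * (d * Λ ^ (d - 1)) ^ s := by ring

end Pool.Agent.Helper650_LocX

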