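import Pool.Agent.Helper650_LocX.Select
import Pool.Agent.Helper650_LocX.Conf
import Pool.Agent.Helper650_LocR.CoreR

/-!
# The gadget hypergraph

Plain words.  Let `Ω = Fin n × Finset (Fin n)`, `P₀ = d Λ^(d - 1)`.  Let `𝓤` be the set of the `g` with
`d - 1` elements, all below `w₀` and not in `Z`, which are good: for all `C ∈ 𝒞`, all `X` with `|X| = 1`
and `X ⊆ hi w₀` and `Piv Dd Z₁ X C e`, and all `v ∈ e`, `g` is not contained in `A C {v}`.  By `hpiv` with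
`j = 1` there are at most `(d r q) m` pairs `(X, C)`, so at most `(d r q) m P₀` sets `g` are not good.
For `z ∈ Z` and a set `T` with at most `k` elements let `b z T` be the set of the pairs `(z, g)` with `g ∈ 𝓤`
disjoint from `T`.  `Z` and `Z₁` contain at most `k₁` elements below `w₀`, so `lo w₀ \ (Z ∪ T)` has at
least `w₀ - k₁ - k` elements, and by `n9` `|b z T| ≥ G`.  Let `𝓑` be the set of all these `b z T`,
`|𝓑| ≤ k (n + 1)^k` (by `h223_count`).  Let `𝓐` be the set of all `κ = {(x i, gg i)}`, where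
`s < r`, `x : Fin s → Fin n` is injective and
`C, X, x, gg, vs` are as in `rx_confcount` with `2 ≤ |X|`; then `j := |X| ≤ s` and `|κ| = s`.  By
`rx_confcount` (with `T = (d r q)^j m`) and `n11` the sum of the `(1 / Q)^|κ|` over the `κ` with given `s` and
`j` is at most `1 / (4 r^2)`, and so over all `κ ∈ 𝓐` at most `1 / 4`.  With `n10` the hypothesis of
`rx_select` holds, which gives `P`.  Put `𝒢 z = {g ∈ 𝓤 | (z, g) ∈ P}`.  For the last claim let
`C, s, x, gg, vs, X` be given with `Piv Dd Z₁ X C e`; `X` is contained in `hi w₀` by `hZW` (it is contained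
in `Z` and disjoint from `Z₁`).  If `|X| = 1` then `s ≥ 1` and `gg 0 ⊆ A C {vs 0}` contradicts
`gg 0 ∈ 𝓤`.  If `|X| ≥ 2` then `κ = {(x i, gg i)}` is in `𝓐` and contained in `P`, a contradiction.
-/

namespace Pool.Agent.Helper650_LocX

open Pool.Agent.Helper650_LocR (h93_main lr_tree h223_count)

theorem h177_lo_card {n : ℕ} (w₀ : ℕ) (hw : w₀ ≤ n) : (lo w₀ : Finset (Fin n)).card = w₀ := by
  unfold lo
  rw [Fin.card_filter_val_lt]
  exact min_eq_right hw

open Classical in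
/-- the sets which are not good -/
noncomputable def h177_bad {ι : Type*} {n : ℕ} (d w₀ : ℕ) (Dd : ι → Finset (Fin n) → Prop)
    (𝒞 : Finset ι) (Z₁ e : Finset (Fin n)) (A : ι → Finset (Fin n) → Finset (Fin n)) :
    Finset (Finset (Fin n)) :=
  ((hi w₀).powersetCard 1).biUnion fun X => (pivSet Dd 𝒞 Z₁ X e).biUnion fun C =>
    e.biUnion fun v => (A C {v}).powersetCard (d - 1)

open Classical in
theorem h177_bad_card {ι : Type*} {n : ℕ} (d w₀ Λ M : ℕ) (Dd : ι → Finset (Fin n) → Prop)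
    (𝒞 : Finset ι) (Z₁ e : Finset (Fin n)) (A : ι → Finset (Fin n) → Finset (Fin n))
    (hA : ∀ C S, (A C S).card ≤ Λ) (he : e.card = d)
    (hM : ∑ X ∈ (hi w₀).powersetCard 1, (pivSet Dd 𝒞 Z₁ X e).card ≤ M) :
    (h177_bad d w₀ Dd 𝒞 Z₁ e A).card ≤ M * (d * Λ ^ (d - 1)) := by
  unfold h177_bad
  refine (Finset.card_biUnion_le).trans ?_
  refine le_trans ?_ (Nat.mul_le_mul_right _ hM)
  rw [Finset.sum_mul]
  refine Finset.sum_le_sum fun X _ => ?_
  refine (Finset.card_biUnion_le).trans ?_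
  have h1 : ∀ C ∈ pivSet Dd 𝒞 Z₁ X e,
      (e.biUnion fun v => (A C {v}).powersetCard (d - 1)).card ≤ d * Λ ^ (d - 1) := by
    intro C _
    refine (Finset.card_biUnion_le).trans ?_
    have h2 : ∀ v ∈ e, ((A C {v}).powersetCard (d - 1)).card ≤ Λ ^ (d - 1) := by
      intro v _
      rw [Finset.card_powersetCard]
      exact (Nat.choose_le_pow _ _).trans (Nat.pow_le_pow_left (hA C {v}) _)
    refine (Finset.sum_le_card_nsmul _ _ _ h2).trans ?_
    rw [he, smul_eq_mul]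
  refine (Finset.sum_le_card_nsmul _ _ _ h1).trans ?_
  rw [smul_eq_mul]

open Classical in
/-- the good sets -/
noncomputable def h177_U {ι : Type*} {n : ℕ} (d w₀ : ℕ) (Dd : ι → Finset (Fin n) → Prop)
    (𝒞 : Finset ι) (Z₁ Z e : Finset (Fin n)) (A : ι → Finset (Fin n) → Finset (Fin n)) :
    Finset (Finset (Fin n)) :=
  ((lo w₀ \ Z).powersetCard (d - 1)).filter fun g => g ∉ h177_bad d w₀ Dd 𝒞 Z₁ e A

open Classical in
/-- the pairs for `z` and `T` -/
noncomputable def h177_b {ι : Type*} {n : ℕ} (d w₀ : ℕ) (Dd : ι → Finset (Fin n) → Prop)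
    (𝒞 : Finset ι) (Z₁ Z e : Finset (Fin n)) (A : ι → Finset (Fin n) → Finset (Fin n))
    (z : Fin n) (T : Finset (Fin n)) : Finset (Fin n × Finset (Fin n)) :=
  ((h177_U d w₀ Dd 𝒞 Z₁ Z e A).filter fun g => Disjoint g T).image fun g => (z, g)

open Classical in
theorem h177_b_card {ι : Type*} {n : ℕ} (d w₀ k k₁ G M : ℕ) (Dd : ι → Finset (Fin n) → Prop)
    (𝒞 : Finset ι) (Z₁ Z e : Finset (Fin n)) (A : ι → Finset (Fin n) → Finset (Fin n))
    (hw : w₀ ≤ n) (hZ₁ : (Z₁ ∩ lo w₀).card ≤ k₁)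
    (hZW : ∀ x ∈ Z, x.val < w₀ → x ∈ Z₁)
    (hM : (h177_bad d w₀ Dd 𝒞 Z₁ e A).card ≤ M)
    (n9 : G + M ≤ (w₀ - k₁ - k).choose (d - 1)) (z : Fin n) (T : Finset (Fin n))
    (hT : T.card ≤ k) : G ≤ (h177_b d w₀ Dd 𝒞 Z₁ Z e A z T).card := by
  unfold h177_b
  rw [Finset.card_image_of_injective _ (fun a b h => (Prod.mk.inj h).2)]
  have h1 : ((lo w₀ : Finset (Fin n)) \ (Z ∪ T)).powersetCard (d - 1) \
      h177_bad d w₀ Dd 𝒞 Z₁ e A ⊆ (h177_U d w₀ Dd 𝒞 Z₁ Z e A).filter fun g => Disjoint g T := by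
    intro g hg
    rw [Finset.mem_sdiff, Finset.mem_powersetCard] at hg
    obtain ⟨⟨h1, h2⟩, h3⟩ := hg
    rw [Finset.mem_filter]
    unfold h177_U
    rw [Finset.mem_filter, Finset.mem_powersetCard]
    refine ⟨⟨⟨?_, h2⟩, h3⟩, ?_⟩
    · intro x hx
      have := h1 hx
      rw [Finset.mem_sdiff, Finset.mem_union] at this
      rw [Finset.mem_sdiff]
      exact ⟨this.1, fun h => this.2 (Or.inl h)⟩
    · rw [Finset.disjoint_left]
      intro x hx hxT
      have := h1 hx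
      rw [Finset.mem_sdiff, Finset.mem_union] at this
      exact this.2 (Or.inr hxT)
  refine le_trans ?_ (Finset.card_le_card h1)
  have h2 : w₀ - k₁ - k ≤ ((lo w₀ : Finset (Fin n)) \ (Z ∪ T)).card := by
    have h3 : (lo w₀ : Finset (Fin n)).card ≤ ((lo w₀ : Finset (Fin n)) \ (Z ∪ T)).card +
        ((Z₁ ∩ lo w₀).card + T.card) := by
      have h4 : (lo w₀ : Finset (Fin n)) ⊆ ((lo w₀ : Finset (Fin n)) \ (Z ∪ T)) ∪
          ((Z₁ ∩ lo w₀) ∪ T) := by
        intro x hx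
        by_cases hxZ : x ∈ Z
        · have : x.val < w₀ := by
            unfold lo at hx
            exact (Finset.mem_filter.1 hx).2
          exact Finset.mem_union_right _ (Finset.mem_union_left _
            (Finset.mem_inter.2 ⟨hZW x hxZ this, hx⟩))
        · by_cases hxT : x ∈ T
          · exact Finset.mem_union_right _ (Finset.mem_union_right _ hxT)
          · refine Finset.mem_union_left _ (Finset.mem_sdiff.2 ⟨hx, ?_⟩)
            rw [Finset.mem_union]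
            rintro (h | h)
            · exact hxZ h
            · exact hxT h
      refine (Finset.card_le_card h4).trans ((Finset.card_union_le _ _).trans ?_)
      exact Nat.add_le_add_left (Finset.card_union_le _ _) _
    rw [h177_lo_card w₀ hw] at h3
    omega
  have h5 : (w₀ - k₁ - k).choose (d - 1) ≤
      (((lo w₀ : Finset (Fin n)) \ (Z ∪ T)).powersetCard (d - 1)).card := by
    rw [Finset.card_powersetCard]
    exact Nat.choose_le_choose _ h2
  have h6 := Finset.le_card_sdiff (h177_bad d w₀ Dd 𝒞 Z₁ e A)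
    (((lo w₀ : Finset (Fin n)) \ (Z ∪ T)).powersetCard (d - 1))
  omega

theorem h177_sum_biUnion_le {α β : Type*} [DecidableEq β] (S : Finset α) (t : α → Finset β)
    (f : β → ℝ) (hf : ∀ b, 0 ≤ f b) : ∑ b ∈ S.biUnion t, f b ≤ ∑ a ∈ S, ∑ b ∈ t a, f b := by
  classical
  induction S using Finset.induction_on with
  | empty => simp
  | insert a S ha ih =>
    rw [Finset.biUnion_insert, Finset.sum_insert ha]
    have h1 := Finset.sum_union_inter (s₁ := t a) (s₂ := S.biUnion t) (f := f)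
    have h2 : 0 ≤ ∑ b ∈ t a ∩ S.biUnion t, f b := Finset.sum_nonneg fun b _ => hf b
    linarith

open Classical in
/-- the forbidden configurations with given parameters -/
noncomputable def h177_A {ι : Type*} {n : ℕ} (d : ℕ) (Dd : ι → Finset (Fin n) → Prop)
    (𝒞 : Finset ι) (Z₁ Z e : Finset (Fin n)) (A : ι → Finset (Fin n) → Finset (Fin n))
    (s j : ℕ) : Finset (Finset (Fin n × Finset (Fin n))) :=
  ((Finset.univ : Finset (Finset (Fin n × Finset (Fin n)))).filter (fun κ =>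
      ∃ C ∈ 𝒞, ∃ X : Finset (Fin n), X.card = j ∧ Piv Dd Z₁ X C e ∧
        ∃ (x : Fin s → Fin n) (gg : Fin s → Finset (Fin n)) (vs : Fin s → Fin n),
          (∀ i, x i ∈ Z) ∧ (∀ y ∈ X, ∃ i, x i = y) ∧
          (∀ i, (gg i).card = d - 1 ∧ vs i ∈ e ∧
            gg i ⊆ A C (insert (vs i) ((Finset.univ.filter (fun l => l < i)).image x))) ∧
          κ = Finset.univ.image (fun i => (x i, gg i)))).filter fun κ => κ.card = s

open Classical in
theorem h177_mem_A {ι : Type*} {n : ℕ} (d : ℕ) (Dd : ι → Finset (Fin n) → Prop)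
    (𝒞 : Finset ι) (Z₁ Z e : Finset (Fin n)) (A : ι → Finset (Fin n) → Finset (Fin n))
    (s j : ℕ) (κ : Finset (Fin n × Finset (Fin n)))
    (h : ∃ C ∈ 𝒞, ∃ X : Finset (Fin n), X.card = j ∧ Piv Dd Z₁ X C e ∧
        ∃ (x : Fin s → Fin n) (gg : Fin s → Finset (Fin n)) (vs : Fin s → Fin n),
          (∀ i, x i ∈ Z) ∧ (∀ y ∈ X, ∃ i, x i = y) ∧
          (∀ i, (gg i).card = d - 1 ∧ vs i ∈ e ∧
            gg i ⊆ A C (insert (vs i) ((Finset.univ.filter (fun l => l < i)).image x))) ∧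
          κ = Finset.univ.image (fun i => (x i, gg i))) (hκ : κ.card = s) :
    κ ∈ h177_A d Dd 𝒞 Z₁ Z e A s j := by
  unfold h177_A
  refine (@Finset.mem_filter _ _ (_) _ _).2 ⟨?_, hκ⟩
  refine (@Finset.mem_filter _ _ (_) _ _).2 ⟨?_, ?_⟩
  · exact Finset.mem_univ _
  · exact h

open Classical in
theorem h177_A_sum {ι : Type*} {n : ℕ} (d r k m Λ Q q w₀ : ℕ) (hd : 2 ≤ d) (hr : 2 ≤ r)
    (hQ : 1 ≤ Q) (Dd : ι → Finset (Fin n) → Prop)
    (𝒞 : Finset ι) (Z₁ Z e : Finset (Fin n)) (A : ι → Finset (Fin n) → Finset (Fin n))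
    (hA : ∀ C S, (A C S).card ≤ Λ)
    (he : e.card = d) (hZ : Z.card = k)
    (hZW : ∀ x ∈ Z, x.val < w₀ → x ∈ Z₁)
    (hpiv : ∀ j, 1 ≤ j → j < r → ∑ X ∈ (hi w₀).powersetCard j, (pivSet Dd 𝒞 Z₁ X e).card ≤
        (d * r * q) ^ j * m)
    (n11 : ∀ j s : ℕ, 2 ≤ j → j ≤ s → s < r →
      4 * r ^ 2 * (((d * r * q) ^ j * m) * (s ^ j * k ^ (s - j)) * (d * Λ ^ (d - 1)) ^ s) ≤ Q ^ s)
    (s j : ℕ) (hj : 2 ≤ j) (hjs : j ≤ s) (hs : s < r) :
    ∑ κ ∈ h177_A d Dd 𝒞 Z₁ Z e A s j, (1 / (Q : ℝ)) ^ κ.card ≤ 1 / (4 * (r : ℝ) ^ 2) := by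
  have h1 : ∀ κ ∈ h177_A d Dd 𝒞 Z₁ Z e A s j, (1 / (Q : ℝ)) ^ κ.card = (1 / (Q : ℝ)) ^ s := by
    intro κ hκ
    unfold h177_A at hκ
    rw [(Finset.mem_filter.1 hκ).2]
  rw [Finset.sum_congr rfl h1, Finset.sum_const, nsmul_eq_mul]
  have h2 : (h177_A d Dd 𝒞 Z₁ Z e A s j).card ≤
      ((d * r * q) ^ j * m) * (s ^ j * k ^ (s - j)) * (d * Λ ^ (d - 1)) ^ s := by
    refine le_trans (Finset.card_le_card (Finset.filter_subset _ _)) ?_
    exact rx_confcount n d k Λ ((d * r * q) ^ j * m) s j w₀ (by omega) Dd 𝒞 Z₁ Z e A hA he hZ hZW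
      (hpiv j (by omega) (by omega)) hjs
  have h3 := n11 j s hj hjs hs
  have h4 : 4 * r ^ 2 * (h177_A d Dd 𝒞 Z₁ Z e A s j).card ≤ Q ^ s :=
    le_trans (Nat.mul_le_mul_left _ h2) h3
  have h5 : (4 * (r : ℝ) ^ 2) * ((h177_A d Dd 𝒞 Z₁ Z e A s j).card : ℝ) ≤ (Q : ℝ) ^ s := by
    exact_mod_cast h4
  have hQ0 : (0:ℝ) < (Q : ℝ) ^ s := by
    have : (0:ℝ) < (Q : ℝ) := by exact_mod_cast hQ
    positivity
  have hr0 : (0:ℝ) < 4 * (r : ℝ) ^ 2 := by
    have : (0:ℝ) < (r : ℝ) := by exact_mod_cast (by omega : 0 < r)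
    positivity
  rw [one_div, one_div, inv_pow, ← div_eq_mul_inv, div_le_iff₀ hQ0, inv_mul_eq_div,
    le_div_iff₀ hr0]
  linarith

/-- TARGET 1. -/
theorem rx_gadget {ι : Type*} (n d r k k₁ m Λ G Q q w₀ : ℕ) (hd : 2 ≤ d) (hr : 2 ≤ r) (hQ : 1 ≤ Q)
    (Dd : ι → Finset (Fin n) → Prop) (𝒞 : Finset ι) (Z₁ Z e : Finset (Fin n))
    (A : ι → Finset (Fin n) → Finset (Fin n)) (hA : ∀ C S, (A C S).card ≤ Λ)
    (he : e.card = d) (hZ : Z.card = k) (hZ₁ : (Z₁ ∩ lo w₀).card ≤ k₁) (hw : w₀ ≤ n)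
    (hZW : ∀ x ∈ Z, x.val < w₀ → x ∈ Z₁)
    (hpiv : ∀ j, 1 ≤ j → j < r → ∑ X ∈ (hi w₀).powersetCard j, (pivSet Dd 𝒞 Z₁ X e).card ≤
        (d * r * q) ^ j * m)
    (n9 : G + (d * r * q) * m * (d * Λ ^ (d - 1)) ≤ (w₀ - k₁ - k).choose (d - 1))
    (n10 : (k : ℝ) * ((n : ℝ) + 1) ^ k * (1 - 1 / (Q : ℝ)) ^ G ≤ 1 / 4)
    (n11 : ∀ j s : ℕ, 2 ≤ j → j ≤ s → s < r →
      4 * r ^ 2 * (((d * r * q) ^ j * m) * (s ^ j * k ^ (s - j)) * (d * Λ ^ (d - 1)) ^ s) ≤ Q ^ s) :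
    ∃ 𝒢 : Fin n → Finset (Finset (Fin n)),
      (∀ z, ∀ g ∈ 𝒢 z, g.card = d - 1 ∧ ∀ x ∈ g, x.val < w₀ ∧ x ∉ Z) ∧
      (∀ z ∈ Z, ∀ T : Finset (Fin n), T.card ≤ k → ∃ g ∈ 𝒢 z, Disjoint g T) ∧
      ∀ C ∈ 𝒞, ∀ (s : ℕ) (x : Fin s → Fin n) (gg : Fin s → Finset (Fin n)) (vs : Fin s → Fin n)
        (X : Finset (Fin n)), s + 1 ≤ r → Function.Injective x → (∀ i, x i ∈ Z ∧ x i ∉ Z₁) →
        (∀ i, gg i ∈ 𝒢 (x i)) →
        (∀ i, vs i ∈ e ∧
          gg i ⊆ A C (insert (vs i) ((Finset.univ.filter (fun l => l < i)).image x))) →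
        X.Nonempty → (∀ y ∈ X, ∃ i, x i = y) → ¬ Piv Dd Z₁ X C e := by
  classical
  have hr0 : (0:ℝ) < (r : ℝ) := by exact_mod_cast (by omega : 0 < r)
  have hbad : (h177_bad d w₀ Dd 𝒞 Z₁ e A).card ≤ (d * r * q) * m * (d * Λ ^ (d - 1)) := by
    refine h177_bad_card d w₀ Λ _ Dd 𝒞 Z₁ e A hA he ?_
    have := hpiv 1 le_rfl (by omega)
    rwa [pow_one] at this
  -- the two families
  let 𝓐 : Finset (Finset (Fin n × Finset (Fin n))) :=
    ((Finset.range r ×ˢ Finset.range r).filter (fun p => 2 ≤ p.2 ∧ p.2 ≤ p.1)).biUnion fun p =>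
      h177_A d Dd 𝒞 Z₁ Z e A p.1 p.2
  let 𝓑 : Finset (Finset (Fin n × Finset (Fin n))) :=
    (Z ×ˢ ((Finset.univ : Finset (Finset (Fin n))).filter (fun T => T.card ≤ k))).image fun p =>
      h177_b d w₀ Dd 𝒞 Z₁ Z e A p.1 p.2
  have hBcard : 𝓑.card ≤ k * (n + 1) ^ k := by
    refine (Finset.card_image_le).trans ?_
    rw [Finset.card_product, hZ]
    exact Nat.mul_le_mul_left _ (h223_count n k)
  have hB : ∀ b ∈ 𝓑, G ≤ b.card := by
    intro b hb
    obtain ⟨p, hp, rfl⟩ := Finset.mem_image.1 hb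
    rw [Finset.mem_product, Finset.mem_filter] at hp
    exact h177_b_card d w₀ k k₁ G _ Dd 𝒞 Z₁ Z e A hw hZ₁ hZW hbad n9 p.1 p.2 hp.2.2
  have hAsum : ∑ κ ∈ 𝓐, (1 / (Q : ℝ)) ^ κ.card ≤ 1 / 4 := by
    have h1 : ∑ κ ∈ 𝓐, (1 / (Q : ℝ)) ^ κ.card ≤
        ∑ p ∈ (Finset.range r ×ˢ Finset.range r).filter (fun p => 2 ≤ p.2 ∧ p.2 ≤ p.1),
          ∑ κ ∈ h177_A d Dd 𝒞 Z₁ Z e A p.1 p.2, (1 / (Q : ℝ)) ^ κ.card := by
      refine h177_sum_biUnion_le _ _ _ fun κ => ?_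
      positivity
    refine h1.trans ?_
    have h2 : ∀ p ∈ (Finset.range r ×ˢ Finset.range r).filter (fun p => 2 ≤ p.2 ∧ p.2 ≤ p.1),
        ∑ κ ∈ h177_A d Dd 𝒞 Z₁ Z e A p.1 p.2, (1 / (Q : ℝ)) ^ κ.card ≤
          1 / (4 * (r : ℝ) ^ 2) := by
      intro p hp
      rw [Finset.mem_filter, Finset.mem_product, Finset.mem_range, Finset.mem_range] at hp
      exact h177_A_sum d r k m Λ Q q w₀ hd hr hQ Dd 𝒞 Z₁ Z e A hA he hZ hZW hpiv n11 p.1 p.2
        hp.2.1 hp.2.2 hp.1.1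
    refine (Finset.sum_le_card_nsmul _ _ _ h2).trans ?_
    have h3 : (((Finset.range r ×ˢ Finset.range r).filter
        (fun p => 2 ≤ p.2 ∧ p.2 ≤ p.1)).card : ℝ) ≤ (r : ℝ) ^ 2 := by
      have h4 : ((Finset.range r ×ˢ Finset.range r).filter
          (fun p => 2 ≤ p.2 ∧ p.2 ≤ p.1)).card ≤ r ^ 2 := by
        refine (Finset.card_le_card (Finset.filter_subset _ _)).trans ?_
        rw [Finset.card_product, Finset.card_range, sq]
      exact_mod_cast h4
    rw [nsmul_eq_mul]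
    calc _ ≤ (r : ℝ) ^ 2 * (1 / (4 * (r : ℝ) ^ 2)) :=
          mul_le_mul_of_nonneg_right h3 (by positivity)
      _ = 1 / 4 := by field_simp
  have hQ1 : (0:ℝ) ≤ 1 - 1 / (Q : ℝ) := by
    have : (1:ℝ) ≤ (Q : ℝ) := by exact_mod_cast hQ
    rw [sub_nonneg, div_le_one (by linarith)]
    exact this
  have hBsum : (𝓑.card : ℝ) * (1 - 1 / (Q : ℝ)) ^ G ≤ 1 / 4 := by
    refine le_trans (mul_le_mul_of_nonneg_right ?_ (pow_nonneg hQ1 G)) n10
    exact_mod_cast hBcard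
  obtain ⟨P, hPA, hPB⟩ := rx_select Q G hQ 𝓐 𝓑 hB (by linarith)
  refine ⟨fun z => (h177_U d w₀ Dd 𝒞 Z₁ Z e A).filter fun g => (z, g) ∈ P, ?_, ?_, ?_⟩
  · intro z g hg
    have hg1 := (Finset.mem_filter.1 hg).1
    unfold h177_U at hg1
    rw [Finset.mem_filter, Finset.mem_powersetCard] at hg1
    refine ⟨hg1.1.2, fun x hx => ?_⟩
    have := hg1.1.1 hx
    rw [Finset.mem_sdiff] at this
    refine ⟨?_, this.2⟩
    have h1 := this.1
    unfold lo at h1
    exact (Finset.mem_filter.1 h1).2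
  · intro z hz T hT
    have h1 : h177_b d w₀ Dd 𝒞 Z₁ Z e A z T ∈ 𝓑 := by
      refine Finset.mem_image.2 ⟨(z, T), ?_, rfl⟩
      rw [Finset.mem_product, Finset.mem_filter]
      exact ⟨hz, Finset.mem_univ _, hT⟩
    have h2 := hPB _ h1
    rw [Finset.not_disjoint_iff] at h2
    obtain ⟨p, hp, hpP⟩ := h2
    unfold h177_b at hp
    obtain ⟨g, hg, rfl⟩ := Finset.mem_image.1 hp
    rw [Finset.mem_filter] at hg
    exact ⟨g, Finset.mem_filter.2 ⟨hg.1, hpP⟩, hg.2⟩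
  · intro C hC s x gg vs X hs hx hxZ hgg hvs hX hXx hpivX
    have hXhi : X ⊆ hi w₀ := by
      intro y hy
      obtain ⟨i, rfl⟩ := hXx y hy
      unfold hi
      rw [Finset.mem_filter]
      refine ⟨Finset.mem_univ _, ?_⟩
      by_contra h
      exact (hxZ i).2 (hZW _ (hxZ i).1 (not_le.1 h))
    have hXs : X.card ≤ s := by
      have h1 : X ⊆ Finset.univ.image x := by
        intro y hy
        obtain ⟨i, rfl⟩ := hXx y hy
        exact Finset.mem_image_of_mem _ (Finset.mem_univ _)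
      refine (Finset.card_le_card h1).trans (Finset.card_image_le.trans ?_)
      rw [Finset.card_univ, Fintype.card_fin]
    have hX1 : 1 ≤ X.card := Finset.card_pos.2 hX
    rcases Nat.lt_or_ge X.card 2 with h2 | h2
    · -- one element
      have hX1' : X.card = 1 := by omega
      have hs0 : 0 < s := by omega
      have h3 := hgg ⟨0, hs0⟩
      have h4 := (hvs ⟨0, hs0⟩)
      have h5 : (Finset.univ.filter (fun l => l < (⟨0, hs0⟩ : Fin s))).image x = ∅ := by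
        rw [Finset.image_eq_empty, Finset.filter_eq_empty_iff]
        intro l _ hl
        exact absurd hl (by simp [Fin.lt_def])
      rw [h5] at h4
      have h6 := (Finset.mem_filter.1 h3).1
      unfold h177_U at h6
      rw [Finset.mem_filter, Finset.mem_powersetCard] at h6
      apply h6.2
      unfold h177_bad
      rw [Finset.mem_biUnion]
      refine ⟨X, Finset.mem_powersetCard.2 ⟨hXhi, hX1'⟩, ?_⟩
      rw [Finset.mem_biUnion]
      refine ⟨C, ?_, ?_⟩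
      · unfold pivSet
        rw [Finset.mem_filter]
        exact ⟨hC, hpivX⟩
      · rw [Finset.mem_biUnion]
        refine ⟨vs ⟨0, hs0⟩, h4.1, ?_⟩
        rw [Finset.mem_powersetCard]
        exact ⟨h4.2, h6.1.2⟩
    · -- at least two elements
      have hinj : Function.Injective (fun i => (x i, gg i)) :=
        fun a b h => hx (Prod.mk.inj h).1
      have hcd : (Finset.univ.image (fun i => (x i, gg i))).card = s := by
        rw [Finset.card_image_of_injective _ hinj, Finset.card_univ, Fintype.card_fin]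
      have h3 : Finset.univ.image (fun i => (x i, gg i)) ∈ 𝓐 := by
        rw [Finset.mem_biUnion]
        refine ⟨(s, X.card), ?_, ?_⟩
        · rw [Finset.mem_filter, Finset.mem_product, Finset.mem_range, Finset.mem_range]
          refine ⟨⟨by dsimp only; omega, by dsimp only; omega⟩, h2, hXs⟩
        · refine h177_mem_A d Dd 𝒞 Z₁ Z e A s X.card _ ⟨C, hC, X, rfl, hpivX, x, gg, vs,
            fun i => (hxZ i).1, hXx, fun i => ⟨?_, (hvs i).1, (hvs i).2⟩, rfl⟩ hcd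
          have h6 := (Finset.mem_filter.1 (hgg i)).1
          unfold h177_U at h6
          rw [Finset.mem_filter, Finset.mem_powersetCard] at h6
          exact h6.1.2
      refine hPA _ h3 ?_
      intro p hp
      obtain ⟨i, -, rfl⟩ := Finset.mem_image.1 hp
      exact (Finset.mem_filter.1 (hgg i)).2

end Pool.Agent.Helper650_LocX

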