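import Pool.Agent.Helper650_LocX.Exists
import Pool.Agent.Helper650_LocX.Choose
import Pool.Agent.Helper650_LocX.Closure
import Pool.Agent.Helper650_LocX.Gadget

/-!
# The core of the lower bound
-/

namespace Pool.Agent.Helper650_LocX

theorem rx_core {ι : Type*} (d r n k K w₀ k₁ k₂ m q₀ q L L₁ G Q : ℕ) (hd : 2 ≤ d) (hr : 2 ≤ r)
    (hnum : NumOK d r n k K w₀ k₁ k₂ m q₀ q L L₁ G Q)
    (Dd : ι → Finset (Fin n) → Prop)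
    (hmono : ∀ C S S', S ⊆ S' → Dd C S → Dd C S')
    (hloc : ∀ C S, Dd C S → ∃ G ⊆ S, G.card ≤ r ∧ Dd C G)
    (𝒞 : Finset ι) (hK : 𝒞.card ≤ K) (hyp : Hyp Dd d r k 𝒞) : False := by
  classical
  obtain ⟨hq₀, hq, hm, hQ, n1, n2, n3, n4, n5, n6, n7, n8, n9, n10, n11⟩ := hnum
  obtain ⟨Z₁, z1, z2, z3, z4, z5⟩ := rx_exists n r d q₀ q L L₁ K k₁ k₂ w₀ Dd hmono hloc 𝒞 hK
    (by omega) (by omega) hq₀ hq n3 n4 n5 n6
  have hM : 1 ≤ (n - w₀ - k₂).choose d := Nat.choose_pos (by omega)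
  obtain ⟨e, e1, e2, e3, e4, e5⟩ := rx_choose n r d q K (K * ((r * L₁) ^ d + 1)) m k₂ w₀ Dd 𝒞 hK
    Z₁ z2 (by omega) (by omega) hq hm z4 z5 hM n7 n8
  obtain ⟨Z, hZ1, hZ2, hZ3, hZ4, hZ5⟩ := rx_Z n d k k₁ k₂ m w₀ Dd hmono 𝒞 Z₁ e z1 z2 e1 e2 e3 e5
    n2 n1
  -- the sets `A`
  let Λ := (r * L + 1) ^ r
  have hAex : ∀ (C : ι) (S : Finset (Fin n)), ∃ A : Finset (Fin n), A.card ≤ Λ ∧
      (C ∈ 𝒞 → S.card ≤ r → ¬ Dd C (S ∪ Z₁) → ∀ w : Finset (Fin n), (∀ x ∈ w, x.val < w₀) →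
        Dd C (S ∪ Z₁ ∪ w) → ¬ Disjoint w A) := by
    intro C S
    by_cases h : C ∈ 𝒞 ∧ S.card ≤ r ∧ ¬ Dd C (S ∪ Z₁)
    · obtain ⟨A, hA1, hA2⟩ := z3 C h.1 S h.2.1 h.2.2
      exact ⟨A, hA1.le, fun _ _ _ => hA2⟩
    · exact ⟨∅, by simp, fun h1 h2 h3 => absurd ⟨h1, h2, h3⟩ h⟩
  choose A hA1 hA2 using hAex
  obtain ⟨𝒢, g1, g2, g3⟩ := rx_gadget n d r k k₁ m Λ G Q q w₀ hd hr hQ Dd 𝒞 Z₁ Z e A hA1 e1 hZ2 z1
    (by omega) hZ4 e4 n9 n10 n11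
  -- the hypergraph
  let 𝓗 : Finset (Finset (Fin n)) := Z.biUnion (fun z => (𝒢 z).image (insert z))
  have mem𝓗 : ∀ h, h ∈ 𝓗 ↔ ∃ z ∈ Z, ∃ g ∈ 𝒢 z, insert z g = h := by
    intro h
    simp only [𝓗, Finset.mem_biUnion, Finset.mem_image]
  have hzg : ∀ z ∈ Z, ∀ g ∈ 𝒢 z, z ∉ g := fun z hz g hg hzg => ((g1 z g hg).2 z hzg).2 hz
  obtain ⟨C, hC, hCZ, D, hD1, hD2, hD3⟩ := hyp Z e 𝓗 hZ2 e1 hZ3
    (by
      intro h hh
      obtain ⟨z, hz, g, hg, rfl⟩ := (mem𝓗 h).1 hh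
      refine ⟨?_, ?_⟩
      · rw [Finset.card_insert_of_notMem (hzg z hz g hg), (g1 z g hg).1]
        omega
      · rw [Finset.not_disjoint_iff]
        exact ⟨z, Finset.mem_insert_self _ _, hz⟩)
    (by
      intro T hT hTH
      have hZT : Z ⊆ T := by
        intro z hz
        by_contra hzT
        obtain ⟨g, hg, hgT⟩ := g2 z hz T hT
        apply hTH (insert z g) ((mem𝓗 _).2 ⟨z, hz, g, hg, rfl⟩)
        rw [Finset.disjoint_insert_left]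
        exact ⟨hzT, hgT⟩
      have hZT' : Z = T := Finset.eq_of_subset_of_card_le hZT (by omega)
      rw [← hZT']
      exact hZ3)
  -- the vertices `z h`
  have hzex : ∀ h : Finset (Fin n), ∃ z : Fin n, h ∈ D → (z ∈ Z ∧ z ∈ h ∧ h.erase z ∈ 𝒢 z) := by
    intro h
    by_cases hh : h ∈ D
    · obtain ⟨z, hz, g, hg, rfl⟩ := (mem𝓗 h).1 (hD1 hh)
      refine ⟨z, fun _ => ⟨hz, Finset.mem_insert_self _ _, ?_⟩⟩
      rw [Finset.erase_insert (hzg z hz g hg)]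
      exact hg
    · exact ⟨⟨0, by omega⟩, fun h => absurd h hh⟩
  choose z hz using hzex
  obtain ⟨s, hs, vs, X, s1, s2, s3, s4, s5, s6, s7⟩ := rx_closure Dd hmono r w₀ Z₁ Z e C D z (A C) hZ1
    hD2 (by
      intro h hh
      obtain ⟨a1, a2, a3⟩ := hz h hh
      refine ⟨a2, a1, ?_⟩
      intro x hx hxz
      exact ((g1 _ _ a3).2 x (Finset.mem_erase.2 ⟨hxz, hx⟩)).1) hCZ hD3
    (fun S hS1 hS2 => hA2 C S hC hS1 hS2) (hZ5 C hC hCZ)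
  refine g3 C hC s (fun i => z (hs i)) (fun i => (hs i).erase (z (hs i))) vs X s1 s3 ?_ ?_ s4 s5 s6
    s7
  · intro i
    exact ⟨(hz _ (s2 i).1).1, (s2 i).2⟩
  · intro i
    exact (hz _ (s2 i).1).2.2

end Pool.Agent.Helper650_LocX
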