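import Pool.Agent.Helper650_LocX.Defs

/-!
# Few sets are covered

Plain words.  Call `C` dead on `S` if `Dd C S`.  Sum over `C ∈ 𝒞` and fix `C`.  For `γ` and `i : Fin r` let
`R i γ` be the set of the `x` with `w₀ ≤ x` such that `(γ l x).val = 0` for some `l ≠ i` (it does not depend
on `γ i`), and `A i γ` the set of the `v` with `w₀ ≤ v` and `Dd C (insert v (W ∪ R i γ))` (it does not depend
on `γ i` either).  Suppose `¬ Dd C (W ∪ Zr w₀ γ)`, `w₀ ≤ v` and `Dd C (insert v (W ∪ Zr w₀ γ))`.  By `hloc`
there is `G ⊆ insert v (W ∪ Zr w₀ γ)` with at most `r` elements and `Dd C G`; `v ∈ G` (otherwise `Dd C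
(W ∪ Zr w₀ γ)` by `hmono`); the elements of `G.erase v` (at most `r - 1`) which are in `Zr w₀ γ` each have an
index `l` with `(γ l x).val = 0`; some index `i` is not used, so `G ⊆ insert v (W ∪ R i γ)` and
`v ∈ A i γ`.  Hence every `e` with `Cov Dd (W ∪ Zr w₀ γ) C e`, `e ⊆ hi w₀`, is contained in the union of
the `A i γ`.

If all `A i γ` have at most `L₁` elements then there are at most `(r L₁).choose d ≤ (r L₁)^d` such `e`.
Otherwise some `A i γ` has more than `L₁` elements, and (if there is any `e` with `Cov`) `¬ Dd C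
(W ∪ Zr w₀ γ)`, so `(γ i v).val ≠ 0` for all `v ∈ A i γ` (if `(γ i v).val = 0` then
`insert v (W ∪ R i γ) ⊆ W ∪ Zr w₀ γ` would be dead).  For fixed `i` and fixed `γ l`, `l ≠ i`, the number of
`γ i` with this property is at most `(q - 1)^L₁ q^(n - L₁)` (if `q ≥ 2`; for `q = 1` none), that is a
fraction `((q - 1) / q)^L₁` of all; sum over `i`: the number of such `γ` is at most
`r (q-1)^L₁ q^(n r) / q^L₁`, and for each there are at most `n^d` sets `e`.  By `hL` this part
contributes at most `q^(n r)`.  Together: at most `q^(n r) ((r L₁)^d + 1)` for each `C`.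
-/

namespace Pool.Agent.Helper650_LocX

section h685aux

theorem h685_count_f (n q L₁ : ℕ) (A : Finset (Fin n)) (hA : L₁ ≤ A.card) :
    (Finset.univ.filter (fun f : Fin n → Fin q => ∀ v ∈ A, (f v).val ≠ 0)).card * q ^ L₁ ≤
      (q - 1) ^ L₁ * q ^ n := by
  classical
  have h1 : (Finset.univ.filter (fun f : Fin n → Fin q => ∀ v ∈ A, (f v).val ≠ 0)) =
      Fintype.piFinset (fun v => if v ∈ A then Finset.univ.filter (fun x : Fin q => x.val ≠ 0)
        else Finset.univ) := by
    ext f
    simp only [Finset.mem_filter, Finset.mem_univ, true_and, Fintype.mem_piFinset]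
    constructor
    · intro h v
      by_cases hv : v ∈ A
      · rw [if_pos hv]
        exact Finset.mem_filter.2 ⟨Finset.mem_univ _, h v hv⟩
      · rw [if_neg hv]
        exact Finset.mem_univ _
    · intro h v hv
      have h2 := h v
      rw [if_pos hv] at h2
      exact (Finset.mem_filter.1 h2).2
  have hq0 : (Finset.univ.filter (fun x : Fin q => x.val ≠ 0)).card = q - 1 := by
    rcases q with _ | q
    · simp
    · have h3 : (Finset.univ.filter (fun x : Fin (q + 1) => x.val ≠ 0)) =
          Finset.univ.erase (0 : Fin (q + 1)) := by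
        ext x
        simp only [Finset.mem_filter, Finset.mem_univ, true_and, Finset.mem_erase, and_true]
        rw [Ne, Ne, Fin.ext_iff]
        rfl
      rw [h3, Finset.card_erase_of_mem (Finset.mem_univ _), Finset.card_univ, Fintype.card_fin]
  rw [h1, Fintype.card_piFinset]
  have h4 : ∏ v : Fin n, (if v ∈ A then Finset.univ.filter (fun x : Fin q => x.val ≠ 0)
        else Finset.univ).card = (q - 1) ^ A.card * q ^ (n - A.card) := by
    have h5 : ∀ v : Fin n, (if v ∈ A then Finset.univ.filter (fun x : Fin q => x.val ≠ 0)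
        else Finset.univ).card = if v ∈ A then q - 1 else q := by
      intro v
      by_cases hv : v ∈ A
      · rw [if_pos hv, if_pos hv, hq0]
      · rw [if_neg hv, if_neg hv, Finset.card_univ, Fintype.card_fin]
    rw [Finset.prod_congr rfl (fun v _ => h5 v), Finset.prod_ite, Finset.prod_const,
      Finset.prod_const]
    congr 2
    · congr 1
      ext x; simp
    · have h6 : (Finset.univ.filter (fun x : Fin n => x ∉ A)) = Aᶜ := by
        ext x; simp
      rw [h6, Finset.card_compl, Fintype.card_fin]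
  rw [h4]
  have hAn : A.card ≤ n := by
    have := Finset.card_le_univ A
    rwa [Fintype.card_fin] at this
  obtain ⟨a, ha⟩ := Nat.exists_eq_add_of_le hA
  obtain ⟨b, hb⟩ := Nat.exists_eq_add_of_le hAn
  have h7 : n - A.card = b := by omega
  rw [h7, ha]
  calc (q - 1) ^ (L₁ + a) * q ^ b * q ^ L₁ = (q - 1) ^ L₁ * ((q - 1) ^ a * (q ^ b * q ^ L₁)) := by
        rw [pow_add]; ring
    _ ≤ (q - 1) ^ L₁ * (q ^ a * (q ^ b * q ^ L₁)) :=
        Nat.mul_le_mul_left _ (Nat.mul_le_mul_right _ (Nat.pow_le_pow_left (Nat.sub_le _ _) _))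
    _ = (q - 1) ^ L₁ * q ^ n := by
        rw [hb, ha]
        ring

/-- swapping one coordinate -/
def h685_swap {r : ℕ} {β : Type} (i : Fin r) : ((Fin r → β) × β) ≃ ((Fin r → β) × β) where
  toFun x := (Function.update x.1 i x.2, x.1 i)
  invFun x := (Function.update x.1 i x.2, x.1 i)
  left_inv x := by simp
  right_inv x := by simp

theorem h685_avg {r : ℕ} {β : Type} [Fintype β] [DecidableEq β] (i : Fin r)
    (F : (Fin r → β) → ℕ) :
    Fintype.card β * ∑ γ, F γ = ∑ γ, ∑ f : β, F (Function.update γ i f) := by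
  have h1 : ∑ x : (Fin r → β) × β, F x.1 = ∑ x : (Fin r → β) × β, F (Function.update x.1 i x.2) :=
    (Equiv.sum_comp (h685_swap i) (fun x : (Fin r → β) × β => F x.1)).symm
  rw [Fintype.sum_prod_type, Fintype.sum_prod_type] at h1
  rw [← h1, Finset.mul_sum]
  refine Finset.sum_congr rfl fun γ _ => ?_
  show Fintype.card β * F γ = ∑ y : β, F γ
  rw [Finset.sum_const, Finset.card_univ, smul_eq_mul]

theorem h685_count_gen (r n q L₁ : ℕ) (hq : 1 ≤ q) (i : Fin r)
    (A : (Fin r → Fin n → Fin q) → Finset (Fin n))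
    (hA : ∀ γ f, A (Function.update γ i f) = A γ) :
    (Finset.univ.filter (fun γ : Fin r → Fin n → Fin q =>
      L₁ < (A γ).card ∧ ∀ v ∈ A γ, (γ i v).val ≠ 0)).card * q ^ L₁ ≤
      (q - 1) ^ L₁ * q ^ (n * r) := by
  classical
  have h1 := h685_avg (β := Fin n → Fin q) i (fun γ => if (L₁ < (A γ).card ∧
    ∀ v ∈ A γ, (γ i v).val ≠ 0) then 1 else 0)
  rw [← Finset.card_filter] at h1
  have h2 : ∀ γ : Fin r → Fin n → Fin q, (∑ f : Fin n → Fin q,
      (if (L₁ < (A (Function.update γ i f)).card ∧
    ∀ v ∈ A (Function.update γ i f), ((Function.update γ i f) i v).val ≠ 0) then 1 else 0)) *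
      q ^ L₁ ≤ (q - 1) ^ L₁ * q ^ n := by
    intro γ
    rw [← Finset.card_filter]
    by_cases hc : L₁ < (A γ).card
    · refine le_trans (Nat.mul_le_mul_right _ (Finset.card_le_card ?_))
        (h685_count_f n q L₁ (A γ) hc.le)
      intro f hf
      rw [Finset.mem_filter] at hf ⊢
      refine ⟨Finset.mem_univ _, ?_⟩
      have h3 := hf.2.2
      rw [hA] at h3
      intro v hv
      have h4 := h3 v hv
      rwa [Function.update_self] at h4
    · rw [Finset.filter_false_of_mem]
      · simp
      · intro f _ h3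
        rw [hA] at h3
        exact hc h3.1
  have h5 : Fintype.card (Fin n → Fin q) = q ^ n := by
    rw [Fintype.card_fun, Fintype.card_fin, Fintype.card_fin]
  have h6 : Fintype.card (Fin r → Fin n → Fin q) = q ^ (n * r) := by
    rw [Fintype.card_fun, h5, Fintype.card_fin, ← pow_mul]
  rw [h5] at h1
  have h7 : q ^ n * ((Finset.univ.filter (fun γ : Fin r → Fin n → Fin q =>
      L₁ < (A γ).card ∧ ∀ v ∈ A γ, (γ i v).val ≠ 0)).card * q ^ L₁) ≤
      q ^ n * ((q - 1) ^ L₁ * q ^ (n * r)) := by
    rw [← mul_assoc, h1, Finset.sum_mul]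
    refine (Finset.sum_le_sum (fun γ _ => h2 γ)).trans ?_
    rw [Finset.sum_const, Finset.card_univ, h6, smul_eq_mul]
    exact le_of_eq (by ring)
  exact Nat.le_of_mul_le_mul_left h7 (by positivity)

end h685aux

/-- TARGET 1. -/
theorem rx_cover {ι : Type*} (n r d q L₁ K w₀ : ℕ) (Dd : ι → Finset (Fin n) → Prop)
    (hmono : ∀ C S S', S ⊆ S' → Dd C S → Dd C S')
    (hloc : ∀ C S, Dd C S → ∃ G ⊆ S, G.card ≤ r ∧ Dd C G)
    (𝒞 : Finset ι) (hK : 𝒞.card ≤ K) (hr : 1 ≤ r) (hq : 1 ≤ q)
    (hL : n ^ d * r * (q - 1) ^ L₁ ≤ q ^ L₁) (W : Finset (Fin n)) (hW : ∀ x ∈ W, x.val < w₀) :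
    ∑ γ : Fin r → Fin n → Fin q, covCount Dd 𝒞 d w₀ (W ∪ Zr w₀ γ) ≤
      q ^ (n * r) * (K * ((r * L₁) ^ d + 1)) := by
  classical
  -- reduction to one `C`
  have hcount : ∀ Z : Finset (Fin n), covCount Dd 𝒞 d w₀ Z =
      ∑ C ∈ 𝒞, (((hi w₀).powersetCard d).filter (fun e => Cov Dd Z C e)).card := by
    intro Z
    unfold covCount
    rw [Finset.card_filter, Finset.sum_product]
    refine Finset.sum_congr rfl fun C _ => ?_
    rw [Finset.card_filter]
  have hone : ∀ C ∈ 𝒞, ∑ γ : Fin r → Fin n → Fin q,
      (((hi w₀).powersetCard d).filter (fun e => Cov Dd (W ∪ Zr w₀ γ) C e)).card ≤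
      q ^ (n * r) * ((r * L₁) ^ d + 1) := by
    intro C _
    obtain ⟨R, hR⟩ : ∃ R : Fin r → (Fin r → Fin n → Fin q) → Finset (Fin n), R = fun i γ =>
      Finset.univ.filter (fun x => w₀ ≤ x.val ∧ ∃ l, l ≠ i ∧ (γ l x).val = 0) := ⟨_, rfl⟩
    obtain ⟨A, hA⟩ : ∃ A : Fin r → (Fin r → Fin n → Fin q) → Finset (Fin n), A = fun i γ =>
      Finset.univ.filter (fun v => w₀ ≤ v.val ∧ Dd C (insert v (W ∪ R i γ))) := ⟨_, rfl⟩
    have hRm : ∀ i γ x, x ∈ R i γ ↔ (w₀ ≤ x.val ∧ ∃ l, l ≠ i ∧ (γ l x).val = 0) := by
      intro i γ x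
      rw [hR]
      simp only [Finset.mem_filter, Finset.mem_univ, true_and]
    have hAm : ∀ i γ v, v ∈ A i γ ↔ (w₀ ≤ v.val ∧ Dd C (insert v (W ∪ R i γ))) := by
      intro i γ v
      rw [hA]
      simp only [Finset.mem_filter, Finset.mem_univ, true_and]
    have hZm : ∀ (γ : Fin r → Fin n → Fin q) x, x ∈ Zr w₀ γ ↔
        (w₀ ≤ x.val ∧ ∃ i, (γ i x).val = 0) := by
      intro γ x
      unfold Zr
      simp only [Finset.mem_filter, Finset.mem_univ, true_and]
    have hhi : ∀ x : Fin n, x ∈ hi w₀ ↔ w₀ ≤ x.val := by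
      intro x
      unfold hi
      simp only [Finset.mem_filter, Finset.mem_univ, true_and]
    have hRup : ∀ i γ f, R i (Function.update γ i f) = R i γ := by
      intro i γ f
      ext x
      rw [hRm, hRm]
      apply and_congr_right
      intro _
      apply exists_congr
      intro l
      apply and_congr_right
      intro hl
      rw [Function.update_of_ne hl]
    have hAup : ∀ i γ f, A i (Function.update γ i f) = A i γ := by
      intro i γ f
      ext x
      rw [hAm, hAm, hRup]
    -- every covered vertex is in some `A i γ`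
    have hU : ∀ γ e, e ⊆ hi w₀ → Cov Dd (W ∪ Zr w₀ γ) C e →
        e ⊆ Finset.univ.biUnion (fun i => A i γ) := by
      intro γ e he hcov v hv
      obtain ⟨G, hG1, hG2, hG3⟩ := hloc C _ (hcov.2 v hv)
      have hvG : v ∈ G := by
        by_contra h1
        apply hcov.1
        refine hmono C G _ ?_ hG3
        intro x hx
        rcases Finset.mem_insert.1 (hG1 hx) with h2 | h2
        · exact absurd (h2 ▸ hx) h1
        · exact h2
      obtain ⟨idx, hidx⟩ : ∃ idx : Fin n → Fin r, ∀ x, (∃ l, (γ l x).val = 0) →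
          (γ (idx x) x).val = 0 := by
        refine ⟨fun x => if h : ∃ l, (γ l x).val = 0 then h.choose else ⟨0, by omega⟩, ?_⟩
        intro x hx
        simp only [dif_pos hx]
        exact hx.choose_spec
      have hcard : ((G.erase v).image idx).card < (Finset.univ : Finset (Fin r)).card := by
        rw [Finset.card_univ, Fintype.card_fin]
        refine lt_of_le_of_lt Finset.card_image_le ?_
        rw [Finset.card_erase_of_mem hvG]
        have : 0 < G.card := Finset.card_pos.2 ⟨v, hvG⟩
        omega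
      obtain ⟨i, _, hi2⟩ := Finset.exists_mem_notMem_of_card_lt_card hcard
      rw [Finset.mem_biUnion]
      refine ⟨i, Finset.mem_univ _, ?_⟩
      rw [hAm]
      refine ⟨(hhi v).1 (he hv), hmono C G _ ?_ hG3⟩
      intro x hx
      rw [Finset.mem_insert]
      by_cases hxv : x = v
      · exact Or.inl hxv
      · right
        rcases Finset.mem_insert.1 (hG1 hx) with h2 | h2
        · exact absurd h2 hxv
        · rcases Finset.mem_union.1 h2 with h3 | h3
          · exact Finset.mem_union_left _ h3
          · apply Finset.mem_union_right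
            rw [hZm] at h3
            rw [hRm]
            refine ⟨h3.1, idx x, ?_, hidx x h3.2⟩
            intro h4
            apply hi2
            rw [Finset.mem_image]
            exact ⟨x, Finset.mem_erase.2 ⟨hxv, hx⟩, h4⟩
    obtain ⟨Bad, hBad⟩ : ∃ Bad : Fin r → Finset (Fin r → Fin n → Fin q), Bad = fun i =>
      Finset.univ.filter (fun γ => L₁ < (A i γ).card ∧ ∀ v ∈ A i γ, (γ i v).val ≠ 0) := ⟨_, rfl⟩
    have hBm : ∀ i γ, γ ∈ Bad i ↔ (L₁ < (A i γ).card ∧ ∀ v ∈ A i γ, (γ i v).val ≠ 0) := by
      intro i γ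
      rw [hBad]
      simp only [Finset.mem_filter, Finset.mem_univ, true_and]
    have hpt : ∀ γ : Fin r → Fin n → Fin q,
        (((hi w₀).powersetCard d).filter (fun e => Cov Dd (W ∪ Zr w₀ γ) C e)).card ≤
        (r * L₁) ^ d + if γ ∈ Finset.univ.biUnion Bad then n ^ d else 0 := by
      intro γ
      by_cases hall : ∀ i, (A i γ).card ≤ L₁
      · refine le_trans ?_ (Nat.le_add_right _ _)
        have h1 : ((hi w₀).powersetCard d).filter (fun e => Cov Dd (W ∪ Zr w₀ γ) C e) ⊆
            (Finset.univ.biUnion (fun i => A i γ)).powersetCard d := by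
          intro e he
          rw [Finset.mem_filter, Finset.mem_powersetCard] at he
          rw [Finset.mem_powersetCard]
          exact ⟨hU γ e he.1.1 he.2, he.1.2⟩
        refine (Finset.card_le_card h1).trans ?_
        rw [Finset.card_powersetCard]
        refine (Nat.choose_le_pow _ _).trans (Nat.pow_le_pow_left ?_ d)
        refine Finset.card_biUnion_le.trans ?_
        refine (Finset.sum_le_sum (fun i _ => hall i)).trans ?_
        rw [Finset.sum_const, Finset.card_univ, Fintype.card_fin, smul_eq_mul]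
      · push Not at hall
        obtain ⟨i, hi1⟩ := hall
        by_cases hex : ∃ e, Cov Dd (W ∪ Zr w₀ γ) C e
        · obtain ⟨e0, he0⟩ := hex
          have hb : γ ∈ Finset.univ.biUnion Bad := by
            rw [Finset.mem_biUnion]
            refine ⟨i, Finset.mem_univ _, ?_⟩
            rw [hBm]
            refine ⟨hi1, fun v hv hv0 => ?_⟩
            rw [hAm] at hv
            apply he0.1
            refine hmono C _ _ ?_ hv.2
            intro x hx
            rcases Finset.mem_insert.1 hx with h2 | h2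
            · rw [h2]
              apply Finset.mem_union_right
              rw [hZm]
              exact ⟨hv.1, i, hv0⟩
            · rcases Finset.mem_union.1 h2 with h3 | h3
              · exact Finset.mem_union_left _ h3
              · apply Finset.mem_union_right
                rw [hRm] at h3
                rw [hZm]
                obtain ⟨h4, l, _, h5⟩ := h3
                exact ⟨h4, l, h5⟩
          rw [if_pos hb]
          refine le_trans ?_ (Nat.le_add_left _ _)
          refine (Finset.card_filter_le _ _).trans ?_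
          rw [Finset.card_powersetCard]
          refine (Nat.choose_le_pow _ _).trans (Nat.pow_le_pow_left ?_ d)
          have := Finset.card_le_univ (hi w₀ : Finset (Fin n))
          rwa [Fintype.card_fin] at this
        · rw [Finset.filter_false_of_mem (fun e _ h => hex ⟨e, h⟩), Finset.card_empty]
          exact Nat.zero_le _
    have hcardG : Fintype.card (Fin r → Fin n → Fin q) = q ^ (n * r) := by
      rw [Fintype.card_fun, Fintype.card_fun, Fintype.card_fin, Fintype.card_fin,
        Fintype.card_fin, ← pow_mul]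
    have hBadc : (Finset.univ.biUnion Bad).card * q ^ L₁ ≤ r * ((q - 1) ^ L₁ * q ^ (n * r)) := by
      refine (Nat.mul_le_mul_right _ Finset.card_biUnion_le).trans ?_
      rw [Finset.sum_mul]
      refine (Finset.sum_le_sum (fun i _ => ?_)).trans
        (b := ∑ _i : Fin r, ((q - 1) ^ L₁ * q ^ (n * r))) ?_
      · rw [hBad]
        exact h685_count_gen r n q L₁ hq i (A i) (hAup i)
      · rw [Finset.sum_const, Finset.card_univ, Fintype.card_fin, smul_eq_mul]
    have hBad2 : n ^ d * (Finset.univ.biUnion Bad).card ≤ q ^ (n * r) := by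
      have h1 : q ^ L₁ * (n ^ d * (Finset.univ.biUnion Bad).card) ≤ q ^ L₁ * q ^ (n * r) := by
        calc q ^ L₁ * (n ^ d * (Finset.univ.biUnion Bad).card)
            = n ^ d * ((Finset.univ.biUnion Bad).card * q ^ L₁) := by ring
          _ ≤ n ^ d * (r * ((q - 1) ^ L₁ * q ^ (n * r))) := Nat.mul_le_mul_left _ hBadc
          _ = (n ^ d * r * (q - 1) ^ L₁) * q ^ (n * r) := by ring
          _ ≤ q ^ L₁ * q ^ (n * r) := Nat.mul_le_mul_right _ hL
      exact Nat.le_of_mul_le_mul_left h1 (by positivity)
    refine (Finset.sum_le_sum (fun γ _ => hpt γ)).trans ?_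
    rw [Finset.sum_add_distrib, Finset.sum_const, Finset.card_univ, hcardG, smul_eq_mul,
      mul_add, mul_one]
    apply Nat.add_le_add_left
    rw [← Finset.sum_filter, Finset.sum_const, smul_eq_mul]
    rw [Finset.filter_mem_eq_inter, Finset.univ_inter, mul_comm]
    exact hBad2
  rw [Finset.sum_congr rfl (fun γ _ => hcount (W ∪ Zr w₀ γ)), Finset.sum_comm]
  refine (Finset.sum_le_sum hone).trans ?_
  rw [Finset.sum_const, smul_eq_mul]
  calc 𝒞.card * (q ^ (n * r) * ((r * L₁) ^ d + 1)) ≤ K * (q ^ (n * r) * ((r * L₁) ^ d + 1)) :=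
        Nat.mul_le_mul_right _ hK
    _ = q ^ (n * r) * (K * ((r * L₁) ^ d + 1)) := by ring

end Pool.Agent.Helper650_LocX

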