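import Mathlib

/-!
# Notions for the lower bound for local kernels
-/

namespace Pool.Agent.Helper650_LocX

/-- the vertices below `w₀` -/
def lo {n : ℕ} (w₀ : ℕ) : Finset (Fin n) := Finset.univ.filter (fun x => x.val < w₀)

/-- the vertices from `w₀` on -/
def hi {n : ℕ} (w₀ : ℕ) : Finset (Fin n) := Finset.univ.filter (fun x => w₀ ≤ x.val)

/-- the vertices below `w₀` where `g` is zero -/
def W1 {n q₀ : ℕ} (w₀ : ℕ) (g : Fin n → Fin q₀) : Finset (Fin n) :=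
  Finset.univ.filter (fun x => x.val < w₀ ∧ (g x).val = 0)

/-- the vertices from `w₀` on where one of the `γ i` is zero -/
def Zr {n r q : ℕ} (w₀ : ℕ) (γ : Fin r → Fin n → Fin q) : Finset (Fin n) :=
  Finset.univ.filter (fun x => w₀ ≤ x.val ∧ ∃ i, (γ i x).val = 0)

/-- `C` is not dead on `Z₁` but every vertex of `e` kills it. -/
def Cov {ι : Type*} {n : ℕ} (Dd : ι → Finset (Fin n) → Prop) (Z₁ : Finset (Fin n)) (C : ι)
    (e : Finset (Fin n)) : Prop :=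
  ¬ Dd C Z₁ ∧ ∀ v ∈ e, Dd C (insert v Z₁)

/-- `X` is outside of `Z₁`, `C` is covering `e` at `Z₁ ∪ X`, and no element of `X` can be left out. -/
def Piv {ι : Type*} {n : ℕ} (Dd : ι → Finset (Fin n) → Prop) (Z₁ X : Finset (Fin n)) (C : ι)
    (e : Finset (Fin n)) : Prop :=
  Disjoint X Z₁ ∧ Cov Dd (Z₁ ∪ X) C e ∧ ∀ x ∈ X, ∃ v ∈ e, ¬ Dd C (insert v ((Z₁ ∪ X).erase x))

/-- For every `C` which is not dead on `S ∪ Z₁` there is a set `A` of less than `Λ` vertices which meets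
every set of vertices below `w₀` that kills `C`. -/
def Thin {ι : Type*} {n : ℕ} (Dd : ι → Finset (Fin n) → Prop) (r Λ w₀ : ℕ) (𝒞 : Finset ι)
    (Z₁ : Finset (Fin n)) : Prop :=
  ∀ C ∈ 𝒞, ∀ S : Finset (Fin n), S.card ≤ r → ¬ Dd C (S ∪ Z₁) →
    ∃ A : Finset (Fin n), A.card < Λ ∧ ∀ w : Finset (Fin n), (∀ x ∈ w, x.val < w₀) →
      Dd C (S ∪ Z₁ ∪ w) → ¬ Disjoint w A

open Classical in
/-- the number of pairs `(C, e)`, `e` a set of `d` vertices from `w₀` on, with `Cov` -/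
noncomputable def covCount {ι : Type*} {n : ℕ} (Dd : ι → Finset (Fin n) → Prop) (𝒞 : Finset ι)
    (d w₀ : ℕ) (Z₁ : Finset (Fin n)) : ℕ :=
  ((𝒞 ×ˢ (hi w₀).powersetCard d).filter (fun p => Cov Dd Z₁ p.1 p.2)).card

open Classical in
/-- the number of pairs `(C, e)`, `e` a set of `d` vertices from `w₀` on, with `Piv` -/
noncomputable def pivCount {ι : Type*} {n : ℕ} (Dd : ι → Finset (Fin n) → Prop) (𝒞 : Finset ι)
    (d w₀ : ℕ) (Z₁ X : Finset (Fin n)) : ℕ :=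
  ((𝒞 ×ˢ (hi w₀).powersetCard d).filter (fun p => Piv Dd Z₁ X p.1 p.2)).card

open Classical in
/-- the `C` with `Cov` -/
noncomputable def covSet {ι : Type*} {n : ℕ} (Dd : ι → Finset (Fin n) → Prop) (𝒞 : Finset ι)
    (Z₁ e : Finset (Fin n)) : Finset ι :=
  𝒞.filter (fun C => Cov Dd Z₁ C e)

open Classical in
/-- the `C` with `Piv` -/
noncomputable def pivSet {ι : Type*} {n : ℕ} (Dd : ι → Finset (Fin n) → Prop) (𝒞 : Finset ι)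
    (Z₁ X e : Finset (Fin n)) : Finset ι :=
  𝒞.filter (fun C => Piv Dd Z₁ X C e)

/-- the hypothesis of the lower bound, extracted from a local kernel -/
def Hyp {ι : Type*} {n : ℕ} (Dd : ι → Finset (Fin n) → Prop) (d r k : ℕ) (𝒞 : Finset ι) : Prop :=
  ∀ (Z e : Finset (Fin n)) (𝓗 : Finset (Finset (Fin n))), Z.card = k → e.card = d →
    Disjoint e Z → (∀ h ∈ 𝓗, h.card = d ∧ ¬ Disjoint h Z) →
    (∀ T : Finset (Fin n), T.card ≤ k → (∀ h ∈ 𝓗, ¬ Disjoint h T) → Disjoint e T) →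
    ∃ C ∈ 𝒞, ¬ Dd C Z ∧ ∃ D ⊆ 𝓗, D.card + 1 ≤ r ∧
      ∀ v ∈ e, ∀ u : Finset (Fin n) → Fin n, (∀ h ∈ D, u h ∈ h) → Dd C (insert v (D.image u))

/-- the numerical conditions on the parameters -/
structure NumOK (d r n k K w₀ k₁ k₂ m q₀ q L L₁ G Q : ℕ) : Prop where
  hq₀ : 1 ≤ q₀
  hq : 1 ≤ q
  hm : 1 ≤ m
  hQ : 1 ≤ Q
  n1 : w₀ + k + d ≤ n
  n2 : k₁ + k₂ + m ≤ k
  n3 : 8 * w₀ ≤ q₀ * (k₁ + 1)
  n4 : 8 * (n * r) ≤ q * (k₂ + 1)
  n5 : 8 * (K * (n + 1) ^ (2 * r)) * (q₀ ^ r - 1) ^ L ≤ q₀ ^ (r * L)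
  n6 : n ^ d * r * (q - 1) ^ L₁ ≤ q ^ L₁
  n7 : 32 * r ^ 2 * (K * ((r * L₁) ^ d + 1)) ≤ m * (n - w₀ - k₂).choose d
  n8 : 4 * K ≤ (n - w₀ - k₂).choose d
  n9 : G + (d * r * q) * m * (d * ((r * L + 1) ^ r) ^ (d - 1)) ≤ (w₀ - k₁ - k).choose (d - 1)
  n10 : (k : ℝ) * ((n : ℝ) + 1) ^ k * (1 - 1 / (Q : ℝ)) ^ G ≤ 1 / 4
  n11 : ∀ j s : ℕ, 2 ≤ j → j ≤ s → s < r →
    4 * r ^ 2 * (((d * r * q) ^ j * m) * (s ^ j * k ^ (s - j)) *
      (d * ((r * L + 1) ^ r) ^ (d - 1)) ^ s) ≤ Q ^ s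

end Pool.Agent.Helper650_LocX
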