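import Mathlib

/-!
# Local kernels, local encodings and solution encodings for hitting sets
-/

namespace Pool.Agent.Helper650_LocX

/-- `E` is a hypergraph with vertex set `Fin n` all of whose edges have at least `t` and at most `d`
vertices. -/
def IsHg (t d n : ℕ) (E : Finset (Finset (Fin n))) : Prop := ∀ e ∈ E, t ≤ e.card ∧ e.card ≤ d

/-- The set `S` meets every member of `E`. -/
def Meets {n : ℕ} (S : Finset (Fin n)) (E : Finset (Finset (Fin n))) : Prop :=
  ∀ e ∈ E, ∃ v ∈ e, v ∈ S

/-- The map `K` is `r`-local at `E`: every edge of `K E` is an edge of `K D` for some set `D` of at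
most `r` edges of `E`. -/
def LocalAt {n N : ℕ} (r : ℕ) (K : Finset (Finset (Fin n)) → Finset (Finset (Fin N)))
    (E : Finset (Finset (Fin n))) : Prop :=
  ∀ C ∈ K E, ∃ D ⊆ E, D.card ≤ r ∧ C ∈ K D

/-- `r`-local kernels with `N` vertices, for the hypergraphs with vertex set `Fin n` and edges of at
least `t` and at most `d` vertices, and parameter `k`: a number `k'` and a map `K` from these
hypergraphs to the hypergraphs with vertex set `Fin N` and nonempty edges of at most `d` vertices which
is monotone and `r`-local, such that some set of at most `k` vertices meets every edge of `E` iff some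
set of at most `k'` vertices meets every edge of `K E`. -/
def LocalKernel (d t n r k N : ℕ) : Prop :=
  ∃ (k' : ℕ) (K : Finset (Finset (Fin n)) → Finset (Finset (Fin N))),
    ∀ E, IsHg t d n E → IsHg 1 d N (K E) ∧ LocalAt r K E ∧ (∀ D ⊆ E, K D ⊆ K E) ∧
      ((∃ S, S.card ≤ k ∧ Meets S E) ↔ ∃ T, T.card ≤ k' ∧ Meets T (K E))

/-- `r`-local encodings with `N` vertices: a map `K` between the same hypergraphs which is `r`-local
(and not necessarily monotone) and a map `Y` from sets of vertices to sets of vertices such that for all
`E` and all sets `S` of `k` vertices: if `S` meets every edge of `E` then `Y S` meets every edge of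
`K E`, and if `Y S` meets every edge of `K E` then some set of at most `k` vertices meets every edge
of `E`. -/
def LocalEncoding (d t n r k N : ℕ) : Prop :=
  ∃ (Y : Finset (Fin n) → Finset (Fin N))
    (K : Finset (Finset (Fin n)) → Finset (Finset (Fin N))),
    ∀ E, IsHg t d n E → IsHg 1 d N (K E) ∧ LocalAt r K E ∧
      ∀ S : Finset (Fin n), S.card = k → (Meets S E → Meets (Y S) (K E)) ∧
        (Meets (Y S) (K E) → ∃ S', S'.card ≤ k ∧ Meets S' E)

/-- Solution encodings with `N` vertices: an arbitrary map `K` between the same hypergraphs and a map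
`Y` from sets of vertices to sets of vertices such that for all `E` a set `S` of `k` vertices meets
every edge of `E` iff `Y S` meets every edge of `K E`. -/
def SolutionEncoding (d t n k N : ℕ) : Prop :=
  ∃ (Y : Finset (Fin n) → Finset (Fin N))
    (K : Finset (Finset (Fin n)) → Finset (Finset (Fin N))),
    (∀ E, IsHg t d n E → IsHg 1 d N (K E)) ∧
    ∀ E, IsHg t d n E → ∀ S : Finset (Fin n), S.card = k → (Meets S E ↔ Meets (Y S) (K E))

end Pool.Agent.Helper650_LocX
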