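import Pool.Agent.Helper650_LocX.Defs
import Pool.Agent.Helper650_LocX.KDefs

/-!
# Local kernels and encodings
-/

namespace Pool.Agent.Helper650_LocX

theorem enc_of_kernel {d t n r k N : ℕ} (h : LocalKernel d t n r k N) : LocalEncoding d t n r k N := by
  classical
  obtain ⟨k', K, hK⟩ := h
  let ES : Finset (Fin n) → Finset (Finset (Fin n)) := fun S =>
    Finset.univ.filter (fun e => (t ≤ e.card ∧ e.card ≤ d) ∧ ∃ v ∈ e, v ∈ S)
  have memES : ∀ S e, e ∈ ES S ↔ (t ≤ e.card ∧ e.card ≤ d) ∧ ∃ v ∈ e, v ∈ S := by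
    intro S e
    simp only [ES, Finset.mem_filter, Finset.mem_univ, true_and]
  have hES : ∀ S, IsHg t d n (ES S) := fun S e he => ((memES S e).1 he).1
  have hmeet : ∀ S, Meets S (ES S) := fun S e he => ((memES S e).1 he).2
  have hY : ∀ S : Finset (Fin n), ∃ T : Finset (Fin N),
      S.card ≤ k → T.card ≤ k' ∧ Meets T (K (ES S)) := by
    intro S
    by_cases hS : S.card ≤ k
    · obtain ⟨T, hT⟩ := (hK (ES S) (hES S)).2.2.2.1 ⟨S, hS, hmeet S⟩
      exact ⟨T, fun _ => hT⟩
    · exact ⟨∅, fun h => absurd h hS⟩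
  choose Y hY using hY
  refine ⟨Y, K, fun E hE => ⟨(hK E hE).1, (hK E hE).2.1, fun S hS => ⟨?_, ?_⟩⟩⟩
  · intro hSE C hC
    have hsub : E ⊆ ES S := fun e he => (memES S e).2 ⟨hE e he, hSE e he⟩
    exact (hY S hS.le).2 C ((hK (ES S) (hES S)).2.2.1 E hsub hC)
  · intro hYE
    exact (hK E hE).2.2.2.2 ⟨Y S, (hY S hS.le).1, hYE⟩

theorem enc_of_solution {d t n k N : ℕ} (h : SolutionEncoding d t n k N) :
    LocalEncoding d t n 1 k N := by
  classical
  obtain ⟨Y, K, hK1, hK2⟩ := h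
  have hsing : ∀ E, IsHg t d n E → ∀ e ∈ E, IsHg t d n {e} := by
    intro E hE e he a ha
    rw [Finset.mem_singleton] at ha
    rw [ha]
    exact hE e he
  have hmeet : ∀ (S e : Finset (Fin n)), Meets S {e} ↔ ∃ v ∈ e, v ∈ S := by
    intro S e
    unfold Meets
    simp
  refine ⟨Y, fun E => E.biUnion (fun e => K {e}), fun E hE => ⟨?_, ?_, ?_⟩⟩
  · intro C hC
    obtain ⟨e, he, hC⟩ := Finset.mem_biUnion.1 hC
    exact hK1 {e} (hsing E hE e he) C hC
  · intro C hC
    obtain ⟨e, he, hC⟩ := Finset.mem_biUnion.1 hC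
    refine ⟨{e}, Finset.singleton_subset_iff.2 he, by simp, ?_⟩
    simpa using hC
  · intro S hS
    have key : Meets S E ↔ Meets (Y S) (E.biUnion (fun e => K {e})) := by
      constructor
      · intro hSE C hC
        obtain ⟨e, he, hC⟩ := Finset.mem_biUnion.1 hC
        exact (hK2 {e} (hsing E hE e he) S hS).1 ((hmeet S e).2 (hSE e he)) C hC
      · intro h e he
        refine (hmeet S e).1 ((hK2 {e} (hsing E hE e he) S hS).2 ?_)
        intro C hC
        exact h C (Finset.mem_biUnion.2 ⟨e, he, hC⟩)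
    exact ⟨key.1, fun h => ⟨S, hS.le, key.2 h⟩⟩

theorem rx_encoding {d t n r k N : ℕ} (htd : t ≤ d) (h : LocalEncoding d t n r k N) :
    ∃ Dd : Finset (Fin N) → Finset (Fin n) → Prop,
      (∀ C S S', S ⊆ S' → Dd C S → Dd C S') ∧
      (∀ C S, Dd C S → ∃ G ⊆ S, G.card ≤ r ∧ Dd C G) ∧
      Hyp Dd d r k (Finset.univ.filter (fun C : Finset (Fin N) => C.card ≤ d)) := by
  classical
  obtain ⟨Y, K, hK⟩ := h
  refine ⟨fun C S => ∃ G ⊆ S, G.card ≤ r ∧ ∀ Z', Z'.card = k → G ⊆ Z' → ¬ Disjoint (Y Z') C,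
    ?_, ?_, ?_⟩
  · rintro C S S' hSS' ⟨G, hG, h1, h2⟩
    exact ⟨G, hG.trans hSS', h1, h2⟩
  · rintro C S ⟨G, hG, h1, h2⟩
    exact ⟨G, hG, h1, G, subset_rfl, h1, h2⟩
  · intro Z e 𝓗 hZ he heZ h𝓗 hT
    have hE' : IsHg t d n (insert e 𝓗) := by
      intro a ha
      rcases Finset.mem_insert.1 ha with rfl | ha
      · rw [he]
        exact ⟨htd, le_rfl⟩
      · rw [(h𝓗 a ha).1]
        exact ⟨htd, le_rfl⟩
    have hno : ¬ ∃ S' : Finset (Fin n), S'.card ≤ k ∧ Meets S' (insert e 𝓗) := by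
      rintro ⟨S', hS', hm⟩
      have h1 : Disjoint e S' := by
        apply hT S' hS'
        intro a ha
        obtain ⟨v, hv, hvS⟩ := hm a (Finset.mem_insert_of_mem ha)
        rw [Finset.not_disjoint_iff]
        exact ⟨v, hv, hvS⟩
      obtain ⟨v, hv, hvS⟩ := hm e (Finset.mem_insert_self _ _)
      exact Finset.disjoint_left.1 h1 hv hvS
    have h1 : ¬ Meets (Y Z) (K (insert e 𝓗)) := fun hm => hno (((hK _ hE').2.2 Z hZ).2 hm)
    unfold Meets at h1
    push Not at h1
    obtain ⟨C, hC, hCY⟩ := h1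
    have hCd := ((hK _ hE').1 C hC).2
    obtain ⟨D', hD', hDr, hCD⟩ := (hK _ hE').2.1 C hC
    have hD'g : IsHg t d n D' := fun a ha => hE' a (hD' ha)
    -- if all members of `D'` meet `Z'` then `Y Z'` meets `C`
    have key : ∀ Z' : Finset (Fin n), Z'.card = k → (∀ a ∈ D', ∃ v ∈ a, v ∈ Z') →
        ¬ Disjoint (Y Z') C := by
      intro Z' hZ' hm
      obtain ⟨v, hv, hvY⟩ := ((hK D' hD'g).2.2 Z' hZ').1 hm C hCD
      rw [Finset.not_disjoint_iff]
      exact ⟨v, hvY, hv⟩
    have hCZ : Disjoint (Y Z) C := by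
      rw [Finset.disjoint_left]
      intro v hv hvC
      exact hCY v hvC hv
    have heD : e ∈ D' := by
      by_contra heD
      refine key Z hZ ?_ hCZ
      intro a ha
      have ha' : a ∈ 𝓗 := by
        rcases Finset.mem_insert.1 (hD' ha) with rfl | h
        · exact absurd ha heD
        · exact h
      have h2 := (h𝓗 a ha').2
      rw [Finset.not_disjoint_iff] at h2
      exact h2
    refine ⟨C, Finset.mem_filter.2 ⟨Finset.mem_univ _, hCd⟩, ?_, D'.erase e, ?_, ?_, ?_⟩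
    · rintro ⟨G, hG, -, h2⟩
      exact h2 Z hZ hG hCZ
    · intro a ha
      rw [Finset.mem_erase] at ha
      rcases Finset.mem_insert.1 (hD' ha.2) with h | h
      · exact absurd h ha.1
      · exact h
    · rw [Finset.card_erase_of_mem heD]
      have := Finset.card_pos.2 ⟨e, heD⟩
      omega
    · intro v hv u hu
      refine ⟨insert v ((D'.erase e).image u), subset_rfl, ?_, ?_⟩
      · have h2 := Finset.card_insert_le v ((D'.erase e).image u)
        have h3 : ((D'.erase e).image u).card ≤ (D'.erase e).card := Finset.card_image_le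
        rw [Finset.card_erase_of_mem heD] at h3
        have := Finset.card_pos.2 ⟨e, heD⟩
        omega
      · intro Z' hZ' hsub
        apply key Z' hZ'
        intro a ha
        by_cases hae : a = e
        · rw [hae]
          exact ⟨v, hv, hsub (Finset.mem_insert_self _ _)⟩
        · have ha' : a ∈ D'.erase e := Finset.mem_erase.2 ⟨hae, ha⟩
          exact ⟨u a, hu a ha', hsub (Finset.mem_insert_of_mem (Finset.mem_image_of_mem u ha'))⟩

theorem enc_pos {d t n r k N : ℕ} (htd : t ≤ d) (hn : k + d ≤ n)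
    (h : LocalEncoding d t n r k N) : 1 ≤ N := by
  classical
  obtain ⟨Y, K, hK⟩ := h
  by_contra hN
  have hN0 : N = 0 := by omega
  subst hN0
  let E : Finset (Finset (Fin n)) := Finset.univ.filter (fun e => e.card = d)
  have hE : IsHg t d n E := by
    intro e he
    rw [(Finset.mem_filter.1 he).2]
    exact ⟨htd, le_rfl⟩
  obtain ⟨S, -, hS⟩ := Finset.exists_subset_card_eq (s := (Finset.univ : Finset (Fin n))) (n := k)
    (by rw [Finset.card_univ, Fintype.card_fin]; omega)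
  obtain ⟨h1, h2, h3⟩ := hK E hE
  obtain ⟨S', hS', hm⟩ := (h3 S hS).2 (by
    intro C hC
    have h4 := (h1 C hC).1
    obtain ⟨x, -⟩ := Finset.card_pos.1 (by omega : 0 < C.card)
    exact x.elim0)
  obtain ⟨e, he, hec⟩ := Finset.exists_subset_card_eq (s := S'ᶜ) (n := d)
    (by rw [Finset.card_compl, Fintype.card_fin]; omega)
  obtain ⟨v, hv, hvS⟩ := hm e (Finset.mem_filter.2 ⟨Finset.mem_univ _, hec⟩)
  exact (Finset.mem_compl.1 (he hv)) hvS

theorem enc_mono {d t n r r' k N : ℕ} (hr : r ≤ r') (h : LocalEncoding d t n r k N) :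
    LocalEncoding d t n r' k N := by
  obtain ⟨Y, K, hK⟩ := h
  refine ⟨Y, K, fun E hE => ⟨(hK E hE).1, ?_, (hK E hE).2.2⟩⟩
  intro C hC
  obtain ⟨D, h1, h2, h3⟩ := (hK E hE).2.1 C hC
  exact ⟨D, h1, h2.trans hr, h3⟩

theorem enc_restrict {d t n n' r k N : ℕ} (hn : n' ≤ n) (h : LocalEncoding d t n r k N) :
    LocalEncoding d t n' r k N := by
  classical
  obtain ⟨Y, K, hK⟩ := h
  let f : Fin n' ↪ Fin n := Fin.castLEEmb hn
  let up : Finset (Finset (Fin n')) → Finset (Finset (Fin n)) := fun E =>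
    E.map ⟨Finset.map f, Finset.map_injective f⟩
  have memup : ∀ E a, a ∈ up E ↔ ∃ e ∈ E, e.map f = a := by
    intro E a
    simp only [up, Finset.mem_map, Function.Embedding.coeFn_mk]
  have hup : ∀ E, IsHg t d n' E → IsHg t d n (up E) := by
    intro E hE a ha
    obtain ⟨e, he, rfl⟩ := (memup E a).1 ha
    rw [Finset.card_map]
    exact hE e he
  refine ⟨fun S => Y (S.map f), fun E => K (up E), fun E hE => ⟨(hK _ (hup E hE)).1, ?_, ?_⟩⟩
  · intro C hC
    obtain ⟨D, h1, h2, h3⟩ := (hK _ (hup E hE)).2.1 C hC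
    refine ⟨E.filter (fun e => e.map f ∈ D), Finset.filter_subset _ _, ?_, ?_⟩
    · refine le_trans ?_ h2
      rw [← Finset.card_map (⟨Finset.map f, Finset.map_injective f⟩ :
        Finset (Fin n') ↪ Finset (Fin n))]
      apply Finset.card_le_card
      intro a ha
      obtain ⟨e, he, rfl⟩ := Finset.mem_map.1 ha
      exact (Finset.mem_filter.1 he).2
    · have h4 : up (E.filter (fun e => e.map f ∈ D)) = D := by
        ext a
        rw [memup]
        constructor
        · rintro ⟨e, he, rfl⟩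
          exact (Finset.mem_filter.1 he).2
        · intro ha
          obtain ⟨e, he, rfl⟩ := (memup E a).1 (h1 ha)
          exact ⟨e, Finset.mem_filter.2 ⟨he, ha⟩, rfl⟩
      simp only
      rw [h4]
      exact h3
  · intro S hS
    obtain ⟨h1, h2⟩ := (hK _ (hup E hE)).2.2 (S.map f) (by rw [Finset.card_map, hS])
    constructor
    · intro hSE
      apply h1
      intro a ha
      obtain ⟨e, he, rfl⟩ := (memup E a).1 ha
      obtain ⟨v, hv, hvS⟩ := hSE e he
      exact ⟨f v, Finset.mem_map_of_mem f hv, Finset.mem_map_of_mem f hvS⟩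
    · intro hY
      obtain ⟨S', hS', hm⟩ := h2 hY
      refine ⟨Finset.univ.filter (fun v => f v ∈ S'), ?_, ?_⟩
      · refine le_trans ?_ hS'
        rw [← Finset.card_map f]
        apply Finset.card_le_card
        intro a ha
        obtain ⟨v, hv, rfl⟩ := Finset.mem_map.1 ha
        exact (Finset.mem_filter.1 hv).2
      · intro e he
        obtain ⟨w, hw, hwS⟩ := hm (e.map f) ((memup E _).2 ⟨e, he, rfl⟩)
        obtain ⟨v, hv, rfl⟩ := Finset.mem_map.1 hw
        exact ⟨v, hv, Finset.mem_filter.2 ⟨Finset.mem_univ _, hwS⟩⟩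

theorem kernel_t {d t n r k N : ℕ} (ht : 1 ≤ t) (h : LocalKernel d 1 n r k N) :
    LocalKernel d t n r k N := by
  obtain ⟨k', K, hK⟩ := h
  exact ⟨k', K, fun E hE => hK E (fun e he => ⟨ht.trans (hE e he).1, (hE e he).2⟩)⟩

theorem kernel_of_edge {d n k N : ℕ} (k' : ℕ) (B : Finset (Finset (Fin N)))
    (F : Finset (Fin n) → Finset (Finset (Fin N)))
    (hB : ∀ e ∈ B, e.Nonempty ∧ e.card ≤ d) (hF : ∀ e, ∀ f ∈ F e, f.Nonempty ∧ f.card ≤ d)
    (h : ∀ E : Finset (Finset (Fin n)), (∀ e ∈ E, e.Nonempty ∧ e.card ≤ d) →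
      ((∃ S : Finset (Fin n), S.card ≤ k ∧ ∀ e ∈ E, ∃ v ∈ e, v ∈ S) ↔
        ∃ T : Finset (Fin N), T.card ≤ k' ∧ ∀ e ∈ B ∪ E.biUnion F, ∃ v ∈ e, v ∈ T)) :
    LocalKernel d 1 n 1 k N := by
  classical
  refine ⟨k', fun E => B ∪ E.biUnion F, fun E hE => ⟨?_, ?_, ?_, ?_⟩⟩
  · intro C hC
    rcases Finset.mem_union.1 hC with hC | hC
    · exact ⟨Finset.card_pos.2 (hB C hC).1, (hB C hC).2⟩
    · obtain ⟨e, -, hC⟩ := Finset.mem_biUnion.1 hC
      exact ⟨Finset.card_pos.2 (hF e C hC).1, (hF e C hC).2⟩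
  · intro C hC
    rcases Finset.mem_union.1 hC with hC | hC
    · exact ⟨∅, Finset.empty_subset _, by simp, Finset.mem_union_left _ hC⟩
    · obtain ⟨e, he, hC⟩ := Finset.mem_biUnion.1 hC
      refine ⟨{e}, Finset.singleton_subset_iff.2 he, by simp, Finset.mem_union_right _ ?_⟩
      exact Finset.mem_biUnion.2 ⟨e, Finset.mem_singleton_self e, hC⟩
  · intro D hD
    exact Finset.union_subset_union_right (Finset.biUnion_subset_biUnion_of_subset_left F hD)
  · exact h E (fun e he => ⟨Finset.card_pos.1 (hE e he).1, (hE e he).2⟩)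

theorem kernel_id (d n k : ℕ) : LocalKernel d 1 n 1 k n := by
  classical
  refine ⟨k, fun E => E.filter (fun e => 1 ≤ e.card ∧ e.card ≤ d), fun E hE => ⟨?_, ?_, ?_, ?_⟩⟩
  · intro C hC
    exact (Finset.mem_filter.1 hC).2
  · intro C hC
    refine ⟨{C}, Finset.singleton_subset_iff.2 (Finset.mem_filter.1 hC).1, by simp, ?_⟩
    exact Finset.mem_filter.2 ⟨Finset.mem_singleton_self C, (Finset.mem_filter.1 hC).2⟩
  · intro D hD
    exact Finset.filter_subset_filter _ hD
  · have h1 : E.filter (fun e => 1 ≤ e.card ∧ e.card ≤ d) = E := by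
      rw [Finset.filter_eq_self]
      exact hE
    simp only
    rw [h1]

end Pool.Agent.Helper650_LocX
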