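import Pool.Agent.Helper650_LocX.Defs

/-!
# Few pivotal sets

Plain words.  Call `C` dead on `S` if `Dd C S`.  Let `i0 : Fin r` be the index `0`.  Map a quadruple
`(γ, X, C, e)` with `Piv Dd (W ∪ Zr w₀ γ) X C e` (`X ⊆ hi w₀`, `|X| = j`) to `(γ', C, e)`, where `γ'` is
`γ` except that `γ' i0 x = 0` for `x ∈ X`.  Then `Zr w₀ γ' = Zr w₀ γ ∪ X`, so
`Cov Dd (W ∪ Zr w₀ γ') C e`.  How many quadruples have the image `(γ', C, e)`?  Put
`Z' = W ∪ Zr w₀ γ'`.  Every `x ∈ X` is pivotal: for some `v ∈ e`, `¬ Dd C (insert v (Z'.erase x))`.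
For each `v ∈ e` there is `G_v ⊆ insert v Z'` with at most `r` elements and `Dd C G_v`; if `x ∉ G_v` then
`G_v ⊆ insert v (Z'.erase x)` and so `Dd C (insert v (Z'.erase x))`.  Hence `X` is contained in the union of
the `G_v`, `v ∈ e`, which has at most `d r` elements: at most `(d r)^j` sets `X`.  Given `X`, `γ` is determined
by `γ'` and the values of `γ i0` on `X`: at most `q^j` possibilities.  So there are at most `(d r q)^j`
quadruples with a given image, and the image satisfies `Cov`.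
-/

namespace Pool.Agent.Helper650_LocX

theorem h521x_zr {n r q : ℕ} (w₀ : ℕ) (hr : 0 < r) (hq : 0 < q) (γ : Fin r → Fin n → Fin q)
    (X : Finset (Fin n)) (hX : X ⊆ hi w₀) :
    Zr w₀ (fun i x => if i = (⟨0, hr⟩ : Fin r) ∧ x ∈ X then (⟨0, hq⟩ : Fin q) else γ i x) =
      Zr w₀ γ ∪ X := by
  ext x
  simp only [Zr, Finset.mem_filter, Finset.mem_univ, true_and, Finset.mem_union]
  by_cases hx : x ∈ X
  · have h1 : w₀ ≤ x.val := by
      have := hX hx
      simpa [hi] using this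
    constructor
    · intro _
      exact Or.inr hx
    · intro _
      refine ⟨h1, ⟨0, hr⟩, ?_⟩
      simp [hx]
  · simp [hx]

open Classical in
theorem h521x_one {ι : Type*} (n r d q j w₀ : ℕ) (Dd : ι → Finset (Fin n) → Prop)
    (hmono : ∀ C S S', S ⊆ S' → Dd C S → Dd C S')
    (hloc : ∀ C S, Dd C S → ∃ G ⊆ S, G.card ≤ r ∧ Dd C G)
    (hr : 1 ≤ r) (hq : 1 ≤ q) (W : Finset (Fin n)) (C : ι) (e : Finset (Fin n))
    (he : e.card = d) :
    ((Finset.univ ×ˢ (hi w₀).powersetCard j).filter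
      (fun p : (Fin r → Fin n → Fin q) × Finset (Fin n) => Piv Dd (W ∪ Zr w₀ p.1) p.2 C e)).card ≤
      (d * r * q) ^ j *
        (Finset.univ.filter
          (fun γ : Fin r → Fin n → Fin q => Cov Dd (W ∪ Zr w₀ γ) C e)).card := by
  set i0 : Fin r := ⟨0, hr⟩ with hi0
  set z0 : Fin q := ⟨0, hq⟩ with hz0
  refine Finset.card_le_mul_card_image_of_maps_to
    (f := fun p : (Fin r → Fin n → Fin q) × Finset (Fin n) =>
      (fun i x => if i = i0 ∧ x ∈ p.2 then z0 else p.1 i x)) ?_ _ ?_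
  · rintro ⟨γ, X⟩ hp
    rw [Finset.mem_filter, Finset.mem_product, Finset.mem_powersetCard] at hp
    obtain ⟨⟨_, hX, hXj⟩, hd, hc, _⟩ := hp
    rw [Finset.mem_filter]
    refine ⟨Finset.mem_univ _, ?_⟩
    have := h521x_zr w₀ hr hq γ X hX
    rw [this, ← Finset.union_assoc]
    exact hc
  · intro γ' hγ'
    rw [Finset.mem_filter] at hγ'
    obtain ⟨_, hnd, hcov⟩ := hγ'
    have hG : ∀ v : Fin n, ∃ G : Finset (Fin n), G.card ≤ r ∧
        (v ∈ e → G ⊆ insert v (W ∪ Zr w₀ γ') ∧ Dd C G) := by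
      intro v
      by_cases hv : v ∈ e
      · obtain ⟨G, h1, h2, h3⟩ := hloc C _ (hcov v hv)
        exact ⟨G, h2, fun _ => ⟨h1, h3⟩⟩
      · exact ⟨∅, by simp, fun h => absurd h hv⟩
    choose G hGr hGe using hG
    set U : Finset (Fin n) := e.biUnion G with hU
    have hUc : U.card ≤ d * r := by
      calc U.card ≤ e.card * r := Finset.card_biUnion_le_card_mul _ _ _ (fun v _ => hGr v)
        _ = d * r := by rw [he]
    have hsub : ((Finset.univ ×ˢ (hi w₀).powersetCard j).filter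
        (fun p : (Fin r → Fin n → Fin q) × Finset (Fin n) =>
          Piv Dd (W ∪ Zr w₀ p.1) p.2 C e)).filter
          (fun p => (fun i x => if i = i0 ∧ x ∈ p.2 then z0 else p.1 i x) = γ') ⊆
        (U.powersetCard j).biUnion (fun X =>
          (Finset.univ.filter (fun γ : Fin r → Fin n → Fin q =>
            ∀ i x, ¬ (i = i0 ∧ x ∈ X) → γ i x = γ' i x)).image (fun γ => (γ, X))) := by
      rintro ⟨γ, X⟩ hp
      rw [Finset.mem_filter, Finset.mem_filter, Finset.mem_product,
        Finset.mem_powersetCard] at hp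
      obtain ⟨⟨⟨_, hX, hXj⟩, hd, hc, hpv⟩, hγ⟩ := hp
      simp only at hX hXj hd hc hpv hγ
      have hZ : W ∪ Zr w₀ γ' = (W ∪ Zr w₀ γ) ∪ X := by
        rw [← hγ, Finset.union_assoc]
        congr 1
        exact h521x_zr w₀ hr hq γ X hX
      rw [Finset.mem_biUnion]
      refine ⟨X, ?_, ?_⟩
      · rw [Finset.mem_powersetCard]
        refine ⟨?_, hXj⟩
        intro x hx
        obtain ⟨v, hv, hnv⟩ := hpv x hx
        rw [hU, Finset.mem_biUnion]
        refine ⟨v, hv, ?_⟩
        by_contra hxG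
        apply hnv
        refine hmono C (G v) _ ?_ (hGe v hv).2
        intro y hy
        have h1 := (hGe v hv).1 hy
        rw [hZ] at h1
        rw [Finset.mem_insert] at h1 ⊢
        rcases h1 with h1 | h1
        · exact Or.inl h1
        · right
          rw [Finset.mem_erase]
          refine ⟨?_, h1⟩
          rintro rfl
          exact hxG hy
      · rw [Finset.mem_image]
        refine ⟨γ, ?_, rfl⟩
        rw [Finset.mem_filter]
        refine ⟨Finset.mem_univ _, ?_⟩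
        intro i x hix
        rw [← hγ]
        simp only [if_neg hix]
    refine (Finset.card_le_card hsub).trans ?_
    have hcount : ∀ X ∈ U.powersetCard j,
        ((Finset.univ.filter (fun γ : Fin r → Fin n → Fin q =>
            ∀ i x, ¬ (i = i0 ∧ x ∈ X) → γ i x = γ' i x)).image (fun γ => (γ, X))).card ≤
          q ^ j := by
      intro X hX
      rw [Finset.mem_powersetCard] at hX
      refine Finset.card_image_le.trans ?_
      have h1 : (Finset.univ.filter (fun γ : Fin r → Fin n → Fin q =>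
            ∀ i x, ¬ (i = i0 ∧ x ∈ X) → γ i x = γ' i x)).card ≤
          (Finset.univ : Finset (X → Fin q)).card := by
        refine Finset.card_le_card_of_injOn
          (fun (γ : Fin r → Fin n → Fin q) (x : X) => γ i0 x.val) (fun _ _ => by simp) ?_
        intro γ₁ h1 γ₂ h2 h12
        rw [Finset.mem_coe, Finset.mem_filter] at h1 h2
        funext i x
        by_cases hix : i = i0 ∧ x ∈ X
        · obtain ⟨rfl, hx⟩ := hix
          exact congrFun h12 ⟨x, hx⟩
        · rw [h1.2 i x hix, h2.2 i x hix]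
      refine h1.trans ?_
      rw [Finset.card_univ, Fintype.card_fun, Fintype.card_fin, Fintype.card_coe, hX.2]
    calc ((U.powersetCard j).biUnion (fun X =>
          (Finset.univ.filter (fun γ : Fin r → Fin n → Fin q =>
            ∀ i x, ¬ (i = i0 ∧ x ∈ X) → γ i x = γ' i x)).image (fun γ => (γ, X)))).card
        ≤ (U.powersetCard j).card * q ^ j := Finset.card_biUnion_le_card_mul _ _ _ hcount
      _ ≤ (d * r) ^ j * q ^ j := by
          refine Nat.mul_le_mul_right _ ?_
          rw [Finset.card_powersetCard]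
          exact (Nat.choose_le_pow _ _).trans (Nat.pow_le_pow_left hUc j)
      _ = (d * r * q) ^ j := by rw [← mul_pow]

/-- TARGET 1. -/
theorem rx_pivot {ι : Type*} (n r d q j w₀ : ℕ) (Dd : ι → Finset (Fin n) → Prop)
    (hmono : ∀ C S S', S ⊆ S' → Dd C S → Dd C S')
    (hloc : ∀ C S, Dd C S → ∃ G ⊆ S, G.card ≤ r ∧ Dd C G)
    (𝒞 : Finset ι) (hr : 1 ≤ r) (hq : 1 ≤ q) (W : Finset (Fin n)) (hW : ∀ x ∈ W, x.val < w₀) :
    ∑ γ : Fin r → Fin n → Fin q, ∑ X ∈ (hi w₀).powersetCard j,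
        pivCount Dd 𝒞 d w₀ (W ∪ Zr w₀ γ) X ≤
      (d * r * q) ^ j * ∑ γ : Fin r → Fin n → Fin q, covCount Dd 𝒞 d w₀ (W ∪ Zr w₀ γ) := by
  classical
  have hL : ∑ γ : Fin r → Fin n → Fin q, ∑ X ∈ (hi w₀).powersetCard j,
        pivCount Dd 𝒞 d w₀ (W ∪ Zr w₀ γ) X =
      ∑ p ∈ 𝒞 ×ˢ (hi w₀).powersetCard d,
        ((Finset.univ ×ˢ (hi w₀).powersetCard j).filter
          (fun t : (Fin r → Fin n → Fin q) × Finset (Fin n) =>
            Piv Dd (W ∪ Zr w₀ t.1) t.2 p.1 p.2)).card := by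
    have h1 : ∀ (γ : Fin r → Fin n → Fin q) (X : Finset (Fin n)),
        pivCount Dd 𝒞 d w₀ (W ∪ Zr w₀ γ) X =
          ∑ p ∈ 𝒞 ×ˢ (hi w₀).powersetCard d,
            if Piv Dd (W ∪ Zr w₀ γ) X p.1 p.2 then 1 else 0 := by
      intro γ X
      rw [pivCount, Finset.card_filter]
    rw [← Finset.sum_product', Finset.sum_congr rfl (fun t _ => h1 t.1 t.2), Finset.sum_comm]
    refine Finset.sum_congr rfl (fun p _ => ?_)
    rw [Finset.card_filter]
  have hR : ∑ γ : Fin r → Fin n → Fin q, covCount Dd 𝒞 d w₀ (W ∪ Zr w₀ γ) =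
      ∑ p ∈ 𝒞 ×ˢ (hi w₀).powersetCard d,
        (Finset.univ.filter (fun γ : Fin r → Fin n → Fin q =>
          Cov Dd (W ∪ Zr w₀ γ) p.1 p.2)).card := by
    have h1 : ∀ (γ : Fin r → Fin n → Fin q),
        covCount Dd 𝒞 d w₀ (W ∪ Zr w₀ γ) =
          ∑ p ∈ 𝒞 ×ˢ (hi w₀).powersetCard d,
            if Cov Dd (W ∪ Zr w₀ γ) p.1 p.2 then 1 else 0 := by
      intro γ
      rw [covCount, Finset.card_filter]
    rw [Finset.sum_congr rfl (fun t _ => h1 t), Finset.sum_comm]
    refine Finset.sum_congr rfl (fun p _ => ?_)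
    rw [Finset.card_filter]
  rw [hL, hR, Finset.mul_sum]
  refine Finset.sum_le_sum ?_
  rintro ⟨C, e⟩ hp
  rw [Finset.mem_product, Finset.mem_powersetCard] at hp
  exact h521x_one n r d q j w₀ Dd hmono hloc hr hq W C e hp.2.2

end Pool.Agent.Helper650_LocX

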