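import Pool.Agent.Helper650_LocX.Thin
import Pool.Agent.Helper650_LocX.Cover
import Pool.Agent.Helper650_LocX.Pivot

/-!
# The union bound

Plain words.  TARGET 1 (Markov inequality): the sum over all `g` of `|W1 w₀ g|` is at most
`w₀ q₀^(n - 1)` (for each of the at most `w₀` vertices `x < w₀` there are `q₀^(n - 1)` maps `g` with
`g x = 0`).  TARGET 2: the sum over all `γ` of `|Zr w₀ γ|` is at most `n r q^(n r - 1)`.

TARGET 3: consider all pairs `(g, γ)`, there are `T = q₀^n q^(n r)` of them, and put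
`Z₁ = W1 w₀ g ∪ Zr w₀ γ`, `K₀ = K ((r L₁)^d + 1)`; `Z₁ ∩ lo w₀ = W1 w₀ g` and `Z₁ ∩ hi w₀ = Zr w₀ γ`.
Each of the following happens for at most `T / 8` pairs: `k₁ < |W1 w₀ g|` (TARGET 1);
`k₂ < |Zr w₀ γ|` (TARGET 2); `¬ Thin` (`rx_thin` with `B = Zr w₀ γ`, for each `γ`);
`covCount > 8 K₀` (`rx_cover` with `W = W1 w₀ g`, for each `g`, and Markov); for some `j` with `1 ≤ j < r`
the sum of the `pivCount` exceeds `8 r (d r q)^j K₀` (by `rx_pivot` and `rx_cover` the sum over `γ` is at most
`(d r q)^j q^(n r) K₀`; by Markov for each `j` at most `T / (8 r)` pairs).  (If `K₀ = 0` the sums are zero,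
and the corresponding bad events never happen.)  Since `5 T / 8 < T` some pair has none of these.
-/

namespace Pool.Agent.Helper650_LocX

open Classical in
theorem h245_card_filter_apply {α β : Type*} [Fintype α] [DecidableEq α] [Fintype β] (P : β → Prop)
    (a : α) :
    ((Finset.univ : Finset (α → β)).filter (fun f => P (f a))).card * Fintype.card β =
      ((Finset.univ : Finset β).filter P).card * Fintype.card β ^ Fintype.card α := by
  have h1 : (Finset.univ : Finset (α → β)).filter (fun f => P (f a)) =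
      Fintype.piFinset (fun x => if x = a then (Finset.univ : Finset β).filter P
        else Finset.univ) := by
    ext f
    simp only [Finset.mem_filter, Finset.mem_univ, true_and, Fintype.mem_piFinset]
    constructor
    · intro h x
      by_cases hx : x = a
      · subst hx; simpa using h
      · simp [hx]
    · intro h
      simpa using h a
  rw [h1, Fintype.card_piFinset, ← Finset.mul_prod_erase Finset.univ _ (Finset.mem_univ a)]
  have h2 : ∏ x ∈ Finset.univ.erase a,
      (if x = a then (Finset.univ : Finset β).filter P else Finset.univ).card =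
      Fintype.card β ^ (Fintype.card α - 1) := by
    rw [Finset.prod_congr rfl (g := fun _ => Fintype.card β)]
    · rw [Finset.prod_const, Finset.card_erase_of_mem (Finset.mem_univ a), Finset.card_univ]
    · intro x hx
      rw [if_neg (Finset.ne_of_mem_erase hx), Finset.card_univ]
  rw [h2, if_pos rfl, mul_assoc, ← pow_succ]
  have h3 : 0 < Fintype.card α := Fintype.card_pos_iff.mpr ⟨a⟩
  rw [Nat.sub_add_cancel h3]

theorem h245_card_zero (q : ℕ) (hq : 1 ≤ q) :
    ((Finset.univ : Finset (Fin q)).filter (fun b => b.val = 0)).card = 1 := by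
  rw [Finset.card_eq_one]
  refine ⟨⟨0, hq⟩, ?_⟩
  ext b
  simp only [Finset.mem_filter, Finset.mem_univ, true_and, Finset.mem_singleton]
  constructor
  · intro h; exact Fin.ext h
  · intro h; rw [h]

open Classical in
theorem h245_markov {Ω : Type*} [Fintype Ω] (f : Ω → ℕ) (k : ℕ) :
    (k + 1) * ((Finset.univ : Finset Ω).filter (fun ω => k < f ω)).card ≤ ∑ ω, f ω := by
  calc (k + 1) * ((Finset.univ : Finset Ω).filter (fun ω => k < f ω)).card
      = ∑ ω ∈ (Finset.univ : Finset Ω).filter (fun ω => k < f ω), (k + 1) := by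
        rw [Finset.sum_const, smul_eq_mul, mul_comm]
    _ ≤ ∑ ω ∈ (Finset.univ : Finset Ω).filter (fun ω => k < f ω), f ω :=
        Finset.sum_le_sum fun ω hω => (Finset.mem_filter.mp hω).2
    _ ≤ ∑ ω, f ω := Finset.sum_le_sum_of_subset (Finset.filter_subset _ _)

open Classical in
theorem h245_markov' {Ω : Type*} [Fintype Ω] (f : Ω → ℕ) (c m M : ℕ)
    (h : ∑ ω, f ω ≤ M * m) :
    c * ((Finset.univ : Finset Ω).filter (fun ω => c * m < f ω)).card ≤ M := by
  have h1 := h245_markov f (c * m)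
  rcases Nat.eq_zero_or_pos m with h0 | h0
  · subst h0
    have h2 : ((Finset.univ : Finset Ω).filter (fun ω => c * 0 < f ω)).card = 0 := by
      have h3 : (c * 0 + 1) * ((Finset.univ : Finset Ω).filter (fun ω => c * 0 < f ω)).card ≤ 0 :=
        h1.trans (by simpa using h)
      simpa using h3
    rw [h2]; simp
  · have h2 : m * (c * ((Finset.univ : Finset Ω).filter (fun ω => c * m < f ω)).card) ≤ m * M := by
      calc m * (c * ((Finset.univ : Finset Ω).filter (fun ω => c * m < f ω)).card)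
          ≤ (c * m + 1) * ((Finset.univ : Finset Ω).filter (fun ω => c * m < f ω)).card := by
            ring_nf; omega
        _ ≤ M * m := h1.trans h
        _ = m * M := mul_comm _ _
    exact Nat.le_of_mul_le_mul_left h2 h0

open Classical in
theorem h245_sum_card {Ω X : Type*} [Fintype Ω] [Fintype X] (F : Ω → X → Prop) :
    ∑ ω, ((Finset.univ : Finset X).filter (F ω)).card =
      ∑ x, ((Finset.univ : Finset Ω).filter (fun ω => F ω x)).card := by
  simp only [Finset.card_filter]
  exact Finset.sum_comm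

/-- TARGET 1. -/
theorem rx_size_lo (n q₀ w₀ k₁ : ℕ) (hq : 1 ≤ q₀) (hk : 8 * w₀ ≤ q₀ * (k₁ + 1)) :
    8 * ((Finset.univ : Finset (Fin n → Fin q₀)).filter
      (fun g => k₁ < (W1 w₀ g).card)).card ≤ q₀ ^ n := by
  classical
  have hcount : ∀ x : Fin n, ((Finset.univ : Finset (Fin n → Fin q₀)).filter
      (fun g => (g x).val = 0)).card * q₀ = q₀ ^ n := by
    intro x
    have h := h245_card_filter_apply (α := Fin n) (β := Fin q₀) (fun b => b.val = 0) x
    rw [Fintype.card_fin, Fintype.card_fin] at h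
    have h0 := h245_card_zero q₀ hq
    have e : ((Finset.univ : Finset (Fin q₀)).filter (fun b => b.val = 0)).card = 1 := h0
    have h' : ((Finset.univ : Finset (Fin n → Fin q₀)).filter
      (fun g => (g x).val = 0)).card * q₀ =
        ((Finset.univ : Finset (Fin q₀)).filter (fun b => b.val = 0)).card * q₀ ^ n := by
      convert h
    rw [h', e, one_mul]
  have hsum : q₀ * ∑ g : Fin n → Fin q₀, (W1 w₀ g).card ≤ w₀ * q₀ ^ n := by
    have h1 : ∑ g : Fin n → Fin q₀, (W1 w₀ g).card =
        ∑ x : Fin n, ((Finset.univ : Finset (Fin n → Fin q₀)).filter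
          (fun g => x.val < w₀ ∧ (g x).val = 0)).card := by
      have := h245_sum_card (Ω := Fin n → Fin q₀) (X := Fin n)
        (fun g x => x.val < w₀ ∧ (g x).val = 0)
      unfold W1
      convert this
    rw [h1, Finset.mul_sum]
    have h2 : ∀ x : Fin n, q₀ * ((Finset.univ : Finset (Fin n → Fin q₀)).filter
          (fun g => x.val < w₀ ∧ (g x).val = 0)).card ≤ if x.val < w₀ then q₀ ^ n else 0 := by
      intro x
      by_cases hx : x.val < w₀
      · rw [if_pos hx, ← hcount x, mul_comm]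
        apply Nat.mul_le_mul_right
        apply Finset.card_le_card
        intro g hg
        simp only [Finset.mem_filter, Finset.mem_univ, true_and] at hg ⊢
        exact hg.2
      · rw [if_neg hx]
        have : (Finset.univ : Finset (Fin n → Fin q₀)).filter
          (fun g => x.val < w₀ ∧ (g x).val = 0) = ∅ := by
          apply Finset.filter_false_of_mem
          intro g _ hg
          exact hx hg.1
        rw [this]; simp
    refine (Finset.sum_le_sum fun x _ => h2 x).trans ?_
    rw [← Finset.sum_filter, Finset.sum_const, smul_eq_mul]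
    apply Nat.mul_le_mul_right
    have h3 : ((Finset.univ : Finset (Fin n)).filter (fun x => x.val < w₀)).card ≤
        (Finset.range w₀).card := by
      apply Finset.card_le_card_of_injOn (fun x => x.val)
      · intro x hx
        simp only [Finset.coe_filter, Finset.mem_univ, true_and, Set.mem_ofPred_eq] at hx
        simpa using hx
      · intro x _ y _ h
        exact Fin.ext h
    simpa using h3
  have hm := h245_markov (fun g : Fin n → Fin q₀ => (W1 w₀ g).card) k₁
  rcases Nat.eq_zero_or_pos w₀ with h0 | h0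
  · subst h0
    have : (Finset.univ : Finset (Fin n → Fin q₀)).filter
      (fun g => k₁ < (W1 0 g).card) = ∅ := by
      apply Finset.filter_false_of_mem
      intro g _ hg
      have : W1 0 g = ∅ := by
        unfold W1
        apply Finset.filter_false_of_mem
        intro x _ hx
        exact absurd hx.1 (Nat.not_lt_zero _)
      rw [this] at hg
      simp at hg
    rw [this]; simp
  · have h1 : w₀ * (8 * ((Finset.univ : Finset (Fin n → Fin q₀)).filter
      (fun g => k₁ < (W1 w₀ g).card)).card) ≤ w₀ * q₀ ^ n := by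
      calc w₀ * (8 * ((Finset.univ : Finset (Fin n → Fin q₀)).filter
              (fun g => k₁ < (W1 w₀ g).card)).card)
          = (8 * w₀) * ((Finset.univ : Finset (Fin n → Fin q₀)).filter
              (fun g => k₁ < (W1 w₀ g).card)).card := by ring
        _ ≤ (q₀ * (k₁ + 1)) * ((Finset.univ : Finset (Fin n → Fin q₀)).filter
              (fun g => k₁ < (W1 w₀ g).card)).card := Nat.mul_le_mul_right _ hk
        _ = q₀ * ((k₁ + 1) * ((Finset.univ : Finset (Fin n → Fin q₀)).filter
              (fun g => k₁ < (W1 w₀ g).card)).card) := by ring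
        _ ≤ q₀ * ∑ g : Fin n → Fin q₀, (W1 w₀ g).card := by
            apply Nat.mul_le_mul_left
            convert hm
        _ ≤ w₀ * q₀ ^ n := hsum
    exact Nat.le_of_mul_le_mul_left h1 h0

/-- TARGET 2. -/
theorem rx_size_hi (n r q w₀ k₂ : ℕ) (hq : 1 ≤ q) (hk : 8 * (n * r) ≤ q * (k₂ + 1)) :
    8 * ((Finset.univ : Finset (Fin r → Fin n → Fin q)).filter
      (fun γ => k₂ < (Zr w₀ γ).card)).card ≤ q ^ (n * r) := by
  classical
  have hcount : ∀ (x : Fin n) (i : Fin r),
      ((Finset.univ : Finset (Fin r → Fin n → Fin q)).filter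
      (fun γ => (γ i x).val = 0)).card * q = q ^ (n * r) := by
    intro x i
    have h := h245_card_filter_apply (α := Fin n) (β := Fin q) (fun b => b.val = 0) x
    rw [Fintype.card_fin, Fintype.card_fin] at h
    have e : ((Finset.univ : Finset (Fin q)).filter (fun b => b.val = 0)).card = 1 :=
      h245_card_zero q hq
    have h' : ((Finset.univ : Finset (Fin n → Fin q)).filter
      (fun g => (g x).val = 0)).card * q =
        ((Finset.univ : Finset (Fin q)).filter (fun b => b.val = 0)).card * q ^ n := by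
      convert h
    rw [e, one_mul] at h'
    have h2 := h245_card_filter_apply (α := Fin r) (β := Fin n → Fin q)
      (fun g => (g x).val = 0) i
    have hc : Fintype.card (Fin n → Fin q) = q ^ n := by simp
    rw [hc, Fintype.card_fin] at h2
    have h3 : ((Finset.univ : Finset (Fin r → Fin n → Fin q)).filter
      (fun γ => (γ i x).val = 0)).card * q ^ n =
        ((Finset.univ : Finset (Fin n → Fin q)).filter (fun g => (g x).val = 0)).card *
          (q ^ n) ^ r := by
      convert h2
    have hpos : 0 < q ^ n := Nat.pos_of_ne_zero (by positivity)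
    apply Nat.eq_of_mul_eq_mul_left hpos
    calc q ^ n * (((Finset.univ : Finset (Fin r → Fin n → Fin q)).filter
          (fun γ => (γ i x).val = 0)).card * q)
        = (((Finset.univ : Finset (Fin r → Fin n → Fin q)).filter
          (fun γ => (γ i x).val = 0)).card * q ^ n) * q := by ring
      _ = (((Finset.univ : Finset (Fin n → Fin q)).filter (fun g => (g x).val = 0)).card *
          q) * (q ^ n) ^ r := by rw [h3]; ring
      _ = q ^ n * q ^ (n * r) := by rw [h', pow_mul]
  have hsum : q * ∑ γ : Fin r → Fin n → Fin q, (Zr w₀ γ).card ≤ (n * r) * q ^ (n * r) := by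
    have h1 : ∑ γ : Fin r → Fin n → Fin q, (Zr w₀ γ).card =
        ∑ x : Fin n, ((Finset.univ : Finset (Fin r → Fin n → Fin q)).filter
          (fun γ => w₀ ≤ x.val ∧ ∃ i, (γ i x).val = 0)).card := by
      have := h245_sum_card (Ω := Fin r → Fin n → Fin q) (X := Fin n)
        (fun γ x => w₀ ≤ x.val ∧ ∃ i, (γ i x).val = 0)
      unfold Zr
      convert this
    rw [h1, Finset.mul_sum]
    have h2 : ∀ x : Fin n, q * ((Finset.univ : Finset (Fin r → Fin n → Fin q)).filter
          (fun γ => w₀ ≤ x.val ∧ ∃ i, (γ i x).val = 0)).card ≤ r * q ^ (n * r) := by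
      intro x
      have h3 : ((Finset.univ : Finset (Fin r → Fin n → Fin q)).filter
          (fun γ => w₀ ≤ x.val ∧ ∃ i, (γ i x).val = 0)).card ≤
          ∑ i : Fin r, ((Finset.univ : Finset (Fin r → Fin n → Fin q)).filter
            (fun γ => (γ i x).val = 0)).card := by
        refine le_trans (Finset.card_le_card ?_) Finset.card_biUnion_le
        intro γ hγ
        simp only [Finset.mem_filter, Finset.mem_univ, true_and] at hγ
        simp only [Finset.mem_biUnion, Finset.mem_univ, true_and, Finset.mem_filter]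
        exact hγ.2
      calc q * ((Finset.univ : Finset (Fin r → Fin n → Fin q)).filter
          (fun γ => w₀ ≤ x.val ∧ ∃ i, (γ i x).val = 0)).card
          ≤ q * ∑ i : Fin r, ((Finset.univ : Finset (Fin r → Fin n → Fin q)).filter
            (fun γ => (γ i x).val = 0)).card := Nat.mul_le_mul_left _ h3
        _ = ∑ i : Fin r, q ^ (n * r) := by
            rw [Finset.mul_sum]
            refine Finset.sum_congr rfl fun i _ => ?_
            rw [mul_comm, hcount x i]
        _ = r * q ^ (n * r) := by simp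
    refine (Finset.sum_le_sum fun x _ => h2 x).trans ?_
    simp only [Finset.sum_const, Finset.card_univ, Fintype.card_fin, smul_eq_mul]
    rw [mul_assoc]
  have hm := h245_markov (fun γ : Fin r → Fin n → Fin q => (Zr w₀ γ).card) k₂
  rcases Nat.eq_zero_or_pos (n * r) with h0 | h0
  · have : (Finset.univ : Finset (Fin r → Fin n → Fin q)).filter
      (fun γ => k₂ < (Zr w₀ γ).card) = ∅ := by
      apply Finset.filter_false_of_mem
      intro γ _ hγ
      have : Zr w₀ γ = ∅ := by
        unfold Zr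
        apply Finset.filter_false_of_mem
        rintro x _ ⟨_, i, _⟩
        have h1 := x.pos
        have h2 := i.pos
        have h3 : 0 < n * r := Nat.mul_pos h1 h2
        omega
      rw [this] at hγ
      simp at hγ
    rw [this]; simp
  · have h1 : (n * r) * (8 * ((Finset.univ : Finset (Fin r → Fin n → Fin q)).filter
      (fun γ => k₂ < (Zr w₀ γ).card)).card) ≤ (n * r) * q ^ (n * r) := by
      calc (n * r) * (8 * ((Finset.univ : Finset (Fin r → Fin n → Fin q)).filter
              (fun γ => k₂ < (Zr w₀ γ).card)).card)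
          = (8 * (n * r)) * ((Finset.univ : Finset (Fin r → Fin n → Fin q)).filter
              (fun γ => k₂ < (Zr w₀ γ).card)).card := by ring
        _ ≤ (q * (k₂ + 1)) * ((Finset.univ : Finset (Fin r → Fin n → Fin q)).filter
              (fun γ => k₂ < (Zr w₀ γ).card)).card := Nat.mul_le_mul_right _ hk
        _ = q * ((k₂ + 1) * ((Finset.univ : Finset (Fin r → Fin n → Fin q)).filter
              (fun γ => k₂ < (Zr w₀ γ).card)).card) := by ring
        _ ≤ q * ∑ γ : Fin r → Fin n → Fin q, (Zr w₀ γ).card := by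
            apply Nat.mul_le_mul_left
            convert hm
        _ ≤ (n * r) * q ^ (n * r) := hsum
    exact Nat.le_of_mul_le_mul_left h1 h0

open Classical in
theorem h245_fib {α β : Type*} [Fintype α] [Fintype β] (P : α → β → Prop) (c m : ℕ)
    (h : ∀ a, c * ((Finset.univ : Finset β).filter (P a)).card ≤ m) :
    c * ((Finset.univ : Finset (α × β)).filter (fun p => P p.1 p.2)).card ≤
      Fintype.card α * m := by
  rw [Finset.card_filter, Fintype.sum_prod_type, Finset.mul_sum]
  calc ∑ a, c * ∑ b, (if P a b then 1 else 0) ≤ ∑ _a : α, m := by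
        refine Finset.sum_le_sum fun a _ => ?_
        have := h a
        rwa [Finset.card_filter] at this
    _ = Fintype.card α * m := by simp

open Classical in
theorem h245_fib' {α β : Type*} [Fintype α] [Fintype β] (P : α → β → Prop) (c m : ℕ)
    (h : ∀ b, c * ((Finset.univ : Finset α).filter (fun a => P a b)).card ≤ m) :
    c * ((Finset.univ : Finset (α × β)).filter (fun p => P p.1 p.2)).card ≤
      m * Fintype.card β := by
  rw [Finset.card_filter, Fintype.sum_prod_type_right, Finset.mul_sum]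
  calc ∑ b, c * ∑ a, (if P a b then 1 else 0) ≤ ∑ _b : β, m := by
        refine Finset.sum_le_sum fun b _ => ?_
        have := h b
        rwa [Finset.card_filter] at this
    _ = m * Fintype.card β := by simp [mul_comm]

/-- TARGET 3. -/
theorem rx_exists {ι : Type*} (n r d q₀ q L L₁ K k₁ k₂ w₀ : ℕ) (Dd : ι → Finset (Fin n) → Prop)
    (hmono : ∀ C S S', S ⊆ S' → Dd C S → Dd C S')
    (hloc : ∀ C S, Dd C S → ∃ G ⊆ S, G.card ≤ r ∧ Dd C G)
    (𝒞 : Finset ι) (hK : 𝒞.card ≤ K) (hr : 1 ≤ r) (hd : 1 ≤ d) (hq₀ : 1 ≤ q₀) (hq : 1 ≤ q)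
    (hk₁ : 8 * w₀ ≤ q₀ * (k₁ + 1)) (hk₂ : 8 * (n * r) ≤ q * (k₂ + 1))
    (hL : 8 * (K * (n + 1) ^ (2 * r)) * (q₀ ^ r - 1) ^ L ≤ q₀ ^ (r * L))
    (hL₁ : n ^ d * r * (q - 1) ^ L₁ ≤ q ^ L₁) :
    ∃ Z₁ : Finset (Fin n), (Z₁ ∩ lo w₀).card ≤ k₁ ∧ (Z₁ ∩ hi w₀).card ≤ k₂ ∧
      Thin Dd r ((r * L + 1) ^ r) w₀ 𝒞 Z₁ ∧
      covCount Dd 𝒞 d w₀ Z₁ ≤ 8 * (K * ((r * L₁) ^ d + 1)) ∧
      ∀ j, 1 ≤ j → j < r → ∑ X ∈ (hi w₀).powersetCard j, pivCount Dd 𝒞 d w₀ Z₁ X ≤
        8 * r * (d * r * q) ^ j * (K * ((r * L₁) ^ d + 1)) := by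
  classical
  obtain ⟨K₀, hK₀⟩ : ∃ K₀, K₀ = K * ((r * L₁) ^ d + 1) := ⟨_, rfl⟩
  rw [← hK₀]
  have hW1 : ∀ g : Fin n → Fin q₀, ∀ x ∈ W1 w₀ g, x.val < w₀ := by
    intro g x hx
    exact (Finset.mem_filter.mp hx).2.1
  have hZr : ∀ γ : Fin r → Fin n → Fin q, ∀ x ∈ Zr w₀ γ, w₀ ≤ x.val := by
    intro γ x hx
    exact (Finset.mem_filter.mp hx).2.1
  have cA : Fintype.card (Fin n → Fin q₀) = q₀ ^ n := by simp
  have cB : Fintype.card (Fin r → Fin n → Fin q) = q ^ (n * r) := by
    simp [pow_mul]
  obtain ⟨T, hT⟩ : ∃ T, T = q₀ ^ n * q ^ (n * r) := ⟨_, rfl⟩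
  have hTpos : 0 < T := by rw [hT]; positivity
  have cT : Fintype.card ((Fin n → Fin q₀) × (Fin r → Fin n → Fin q)) = T := by
    rw [Fintype.card_prod, cA, cB, hT]
  -- the five bad events
  have hE1 : 8 * ((Finset.univ : Finset ((Fin n → Fin q₀) × (Fin r → Fin n → Fin q))).filter
      (fun p => k₁ < (W1 w₀ p.1).card)).card ≤ T := by
    have := h245_fib' (α := Fin n → Fin q₀) (β := Fin r → Fin n → Fin q)
      (fun g _ => k₁ < (W1 w₀ g).card) 8 (q₀ ^ n) (fun _ => by
        convert rx_size_lo n q₀ w₀ k₁ hq₀ hk₁)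
    rw [cB] at this
    rw [hT]
    convert this
  have hE2 : 8 * ((Finset.univ : Finset ((Fin n → Fin q₀) × (Fin r → Fin n → Fin q))).filter
      (fun p => k₂ < (Zr w₀ p.2).card)).card ≤ T := by
    have := h245_fib (α := Fin n → Fin q₀) (β := Fin r → Fin n → Fin q)
      (fun _ γ => k₂ < (Zr w₀ γ).card) 8 (q ^ (n * r)) (fun _ => by
        convert rx_size_hi n r q w₀ k₂ hq hk₂)
    rw [cA] at this
    rw [hT]
    convert this
  have hE3 : 8 * ((Finset.univ : Finset ((Fin n → Fin q₀) × (Fin r → Fin n → Fin q))).filter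
      (fun p => ¬ Thin Dd r ((r * L + 1) ^ r) w₀ 𝒞 (W1 w₀ p.1 ∪ Zr w₀ p.2))).card ≤ T := by
    have := h245_fib' (α := Fin n → Fin q₀) (β := Fin r → Fin n → Fin q)
      (fun g γ => ¬ Thin Dd r ((r * L + 1) ^ r) w₀ 𝒞 (W1 w₀ g ∪ Zr w₀ γ)) 8 (q₀ ^ n)
      (fun γ => by
        convert rx_thin n r L q₀ K w₀ Dd hmono hloc 𝒞 hK hq₀ hL (Zr w₀ γ))
    rw [cB] at this
    rw [hT]
    convert this
  have hE4 : 8 * ((Finset.univ : Finset ((Fin n → Fin q₀) × (Fin r → Fin n → Fin q))).filter
      (fun p => 8 * K₀ < covCount Dd 𝒞 d w₀ (W1 w₀ p.1 ∪ Zr w₀ p.2))).card ≤ T := by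
    have := h245_fib (α := Fin n → Fin q₀) (β := Fin r → Fin n → Fin q)
      (fun g γ => 8 * K₀ < covCount Dd 𝒞 d w₀ (W1 w₀ g ∪ Zr w₀ γ)) 8 (q ^ (n * r))
      (fun g => by
        have h := rx_cover n r d q L₁ K w₀ Dd hmono hloc 𝒞 hK hr hq hL₁ (W1 w₀ g) (hW1 g)
        rw [← hK₀] at h
        have := h245_markov' (fun γ : Fin r → Fin n → Fin q =>
          covCount Dd 𝒞 d w₀ (W1 w₀ g ∪ Zr w₀ γ)) 8 K₀ (q ^ (n * r)) h
        convert this)
    rw [cA] at this
    rw [hT]
    convert this
  have hE5 : ∀ j, 8 * r *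
      ((Finset.univ : Finset ((Fin n → Fin q₀) × (Fin r → Fin n → Fin q))).filter
      (fun p => 8 * r * (d * r * q) ^ j * K₀ < ∑ X ∈ (hi w₀).powersetCard j,
        pivCount Dd 𝒞 d w₀ (W1 w₀ p.1 ∪ Zr w₀ p.2) X)).card ≤ T := by
    intro j
    have := h245_fib (α := Fin n → Fin q₀) (β := Fin r → Fin n → Fin q)
      (fun g γ => 8 * r * (d * r * q) ^ j * K₀ < ∑ X ∈ (hi w₀).powersetCard j,
        pivCount Dd 𝒞 d w₀ (W1 w₀ g ∪ Zr w₀ γ) X) (8 * r) (q ^ (n * r))
      (fun g => by
        have h := rx_cover n r d q L₁ K w₀ Dd hmono hloc 𝒞 hK hr hq hL₁ (W1 w₀ g) (hW1 g)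
        rw [← hK₀] at h
        have h2 := rx_pivot n r d q j w₀ Dd hmono hloc 𝒞 hr hq (W1 w₀ g) (hW1 g)
        have h3 := h2.trans (Nat.mul_le_mul_left _ h)
        have h4 := h245_markov' (fun γ : Fin r → Fin n → Fin q =>
          ∑ X ∈ (hi w₀).powersetCard j, pivCount Dd 𝒞 d w₀ (W1 w₀ g ∪ Zr w₀ γ) X) (8 * r)
          ((d * r * q) ^ j * K₀) (q ^ (n * r)) (by
            refine h3.trans (le_of_eq ?_)
            ring)
        rw [← mul_assoc (8 * r)] at h4
        convert h4)
    rw [cA] at this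
    rw [hT]
    convert this
  -- the good pair
  by_contra hcon
  have hall : ∀ p : (Fin n → Fin q₀) × (Fin r → Fin n → Fin q),
      k₁ < (W1 w₀ p.1).card ∨ k₂ < (Zr w₀ p.2).card ∨
      (¬ Thin Dd r ((r * L + 1) ^ r) w₀ 𝒞 (W1 w₀ p.1 ∪ Zr w₀ p.2)) ∨
      8 * K₀ < covCount Dd 𝒞 d w₀ (W1 w₀ p.1 ∪ Zr w₀ p.2) ∨
      ∃ j ∈ Finset.range r, 8 * r * (d * r * q) ^ j * K₀ < ∑ X ∈ (hi w₀).powersetCard j,
        pivCount Dd 𝒞 d w₀ (W1 w₀ p.1 ∪ Zr w₀ p.2) X := by
    intro p
    by_contra hp
    push Not at hp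
    obtain ⟨h1, h2, h3, h4, h5⟩ := hp
    apply hcon
    refine ⟨W1 w₀ p.1 ∪ Zr w₀ p.2, ?_, ?_, h3, h4, ?_⟩
    · refine le_trans (Finset.card_le_card ?_) h1
      intro x hx
      rw [Finset.mem_inter, Finset.mem_union] at hx
      rcases hx.1 with h | h
      · exact h
      · exfalso
        have a1 := hZr p.2 x h
        have a2 : x.val < w₀ := (Finset.mem_filter.mp hx.2).2
        omega
    · refine le_trans (Finset.card_le_card ?_) h2
      intro x hx
      rw [Finset.mem_inter, Finset.mem_union] at hx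
      rcases hx.1 with h | h
      · exfalso
        have a1 := hW1 p.1 x h
        have a2 : w₀ ≤ x.val := (Finset.mem_filter.mp hx.2).2
        omega
      · exact h
    · intro j _ hj
      exact h5 j (Finset.mem_range.mpr hj)
  have hcover : (Finset.univ : Finset ((Fin n → Fin q₀) × (Fin r → Fin n → Fin q))) ⊆
      (Finset.univ.filter (fun p => k₁ < (W1 w₀ p.1).card)) ∪
      ((Finset.univ.filter (fun p => k₂ < (Zr w₀ p.2).card)) ∪
      ((Finset.univ.filter (fun p =>
        ¬ Thin Dd r ((r * L + 1) ^ r) w₀ 𝒞 (W1 w₀ p.1 ∪ Zr w₀ p.2))) ∪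
      ((Finset.univ.filter (fun p =>
        8 * K₀ < covCount Dd 𝒞 d w₀ (W1 w₀ p.1 ∪ Zr w₀ p.2))) ∪
      ((Finset.range r).biUnion (fun j => Finset.univ.filter (fun p =>
        8 * r * (d * r * q) ^ j * K₀ < ∑ X ∈ (hi w₀).powersetCard j,
        pivCount Dd 𝒞 d w₀ (W1 w₀ p.1 ∪ Zr w₀ p.2) X)))))) := by
    intro p _
    simp only [Finset.mem_union, Finset.mem_filter, Finset.mem_univ, true_and,
      Finset.mem_biUnion]
    exact hall p
  have hcard := Finset.card_le_card hcover
  rw [Finset.card_univ, cT] at hcard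
  have hU := hcard.trans ((Finset.card_union_le _ _).trans (Nat.add_le_add_left
    ((Finset.card_union_le _ _).trans (Nat.add_le_add_left
    ((Finset.card_union_le _ _).trans (Nat.add_le_add_left
    ((Finset.card_union_le _ _).trans (Nat.add_le_add_left
      Finset.card_biUnion_le _)) _)) _)) _))
  have hsum5 : 8 * r * ∑ j ∈ Finset.range r,
      ((Finset.univ : Finset ((Fin n → Fin q₀) × (Fin r → Fin n → Fin q))).filter
      (fun p => 8 * r * (d * r * q) ^ j * K₀ < ∑ X ∈ (hi w₀).powersetCard j,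
        pivCount Dd 𝒞 d w₀ (W1 w₀ p.1 ∪ Zr w₀ p.2) X)).card ≤ r * T := by
    rw [Finset.mul_sum]
    refine (Finset.sum_le_sum fun j _ => hE5 j).trans ?_
    simp
  have hsum5' : 8 * ∑ j ∈ Finset.range r,
      ((Finset.univ : Finset ((Fin n → Fin q₀) × (Fin r → Fin n → Fin q))).filter
      (fun p => 8 * r * (d * r * q) ^ j * K₀ < ∑ X ∈ (hi w₀).powersetCard j,
        pivCount Dd 𝒞 d w₀ (W1 w₀ p.1 ∪ Zr w₀ p.2) X)).card ≤ T := by
    apply Nat.le_of_mul_le_mul_left _ (show 0 < r from hr)
    refine le_trans (le_of_eq ?_) hsum5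
    ring
  omega

end Pool.Agent.Helper650_LocX

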