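import Pool.Agent.Helper650_LocX.NumDefs

/-!
# Asymptotic bounds for the parameters

Plain words.  For `k` large: `log (n + 1) ≤ 3 log k`, `log (N + 1) ≤ 3 log k`, and `(C log k + C) ≤ k^η` for
every constant `C` (`isLittleO_log_rpow_atTop`, or `Real.log_le_rpow_div`).  So `pL ≤ C log k + C ≤ k^η`.
`pq ≤ 64 r n / k + 1 ≤ 65 r n / k`, since `n / k ≥ 6`.  `pL1 ≤ pq (d log n + log r) + 1 ≤
(n / k) (C log k + C) ≤ (n / k) k^η`.  `pG`: `a := 3 k - k / 8 - k ≥ k + d` for `k ≥ 8 d`, so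
`a.choose (d - 1) ≥ (k / (d - 1))^(d - 1)` or `≥ k^(d - 1) / (d - 1)!` (`Nat.pow_le_choose`), and
`pG ≥ c k^(d - 1) ≥ k^(d - 1 - η)`.  `pQ ≥ pG / (2 k log (n + 1) + 2) - 1 ≥ c k^(d - 2) / log k - 1`; for
`d ≥ 3` this is at least `k^(d - 2 - η)` for large `k`.
-/

namespace Pool.Agent.Helper650_LocX

/-- `A₁ log k + A₂ ≤ k^η` for large `k`. -/
theorem h511jx_log (A₁ A₂ η : ℝ) (hη : 0 < η) :
    ∃ k₀ : ℕ, ∀ k : ℕ, k₀ ≤ k → A₁ * Real.log (k : ℝ) + A₂ ≤ (k : ℝ) ^ η := by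
  have h1 : (fun x : ℝ => A₁ * Real.log x) =o[Filter.atTop] fun x : ℝ => x ^ η :=
    (isLittleO_log_rpow_atTop hη).const_mul_left A₁
  have h2 : (fun _ : ℝ => A₂) =o[Filter.atTop] fun x : ℝ => x ^ η := by
    rw [Asymptotics.isLittleO_const_left]
    right
    exact Filter.tendsto_abs_atTop_atTop.comp (tendsto_rpow_atTop hη)
  have h3 := (h1.add h2).bound (c := 1) one_pos
  have h4 := tendsto_natCast_atTop_atTop (R := ℝ) |>.eventually h3
  rw [Filter.eventually_atTop] at h4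
  obtain ⟨k₀, hk₀⟩ := h4
  refine ⟨k₀, fun k hk => ?_⟩
  have h5 := hk₀ k hk
  rw [one_mul, Real.norm_of_nonneg (Real.rpow_nonneg (Nat.cast_nonneg k) η)] at h5
  exact (le_abs_self _).trans h5

/-- the bound for `log (n + 1)` -/
theorem h511jx_log3 {k n : ℕ} (hk : 2 ≤ k) (hn : n ≤ k ^ 2) :
    Real.log ((n : ℝ) + 1) ≤ 3 * Real.log (k : ℝ) := by
  have h1 : n + 1 ≤ k ^ 3 := by
    calc n + 1 ≤ k ^ 2 + 1 := by omega
      _ ≤ k ^ 2 + k ^ 2 := by
        have : 1 ≤ k ^ 2 := Nat.one_le_pow _ _ (by omega)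
        omega
      _ = 2 * k ^ 2 := by ring
      _ ≤ k * k ^ 2 := Nat.mul_le_mul_right _ hk
      _ = k ^ 3 := by ring
  have h2 : (n : ℝ) + 1 ≤ (k : ℝ) ^ 3 := by exact_mod_cast h1
  calc Real.log ((n : ℝ) + 1) ≤ Real.log ((k : ℝ) ^ 3) :=
        Real.log_le_log (by positivity) h2
    _ = 3 * Real.log (k : ℝ) := by rw [Real.log_pow]; norm_num

/-- the bound for `pG` -/
theorem h511jx_pG (d k : ℕ) (hd : 3 ≤ d) (hk1 : 8 * d ≤ k) (hk2 : 2 * (d - 1).factorial ≤ k) :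
    (1 / (4 * ((d - 1).factorial : ℝ))) * (k : ℝ) ^ (d - 1) ≤ (pG d k : ℝ) := by
  have hf : (0 : ℝ) < ((d - 1).factorial : ℝ) := by exact_mod_cast Nat.factorial_pos _
  have h1 : (k : ℝ) ^ (d - 1) / ((d - 1).factorial : ℝ) ≤
      ((3 * k - k / 8 - k).choose (d - 1) : ℝ) := by
    refine le_trans ?_ (Nat.pow_le_choose (α := ℝ) (d - 1) (3 * k - k / 8 - k))
    have h2 : k ≤ 3 * k - k / 8 - k + 1 - (d - 1) := by omega
    have h3 : (k : ℝ) ≤ ((3 * k - k / 8 - k + 1 - (d - 1) : ℕ) : ℝ) := by exact_mod_cast h2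
    gcongr
  have h4 : ((3 * k - k / 8 - k).choose (d - 1) : ℝ) ≤ 2 * (pG d k : ℝ) + 1 := by
    have : (3 * k - k / 8 - k).choose (d - 1) ≤ 2 * pG d k + 1 := by
      unfold pG; omega
    exact_mod_cast this
  have h5 : (1 : ℝ) ≤ (k : ℝ) ^ (d - 1) / (2 * ((d - 1).factorial : ℝ)) := by
    rw [le_div_iff₀ (by positivity), one_mul]
    have h6 : (2 : ℝ) * ((d - 1).factorial : ℝ) ≤ k := by exact_mod_cast hk2
    have h7 : (1 : ℝ) ≤ k := by
      have : 1 ≤ k := by omega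
      exact_mod_cast this
    exact h6.trans (le_self_pow₀ h7 (by omega))
  have h8 : (1 / (4 * ((d - 1).factorial : ℝ))) * (k : ℝ) ^ (d - 1) =
      ((k : ℝ) ^ (d - 1) / ((d - 1).factorial : ℝ) -
        (k : ℝ) ^ (d - 1) / (2 * ((d - 1).factorial : ℝ))) / 2 := by
    field_simp
    ring
  rw [h8]
  linarith

/-- the bound for `pq` -/
theorem h511jx_pq (r k n : ℕ) (hr : 1 ≤ r) (hk : 1 ≤ k) (hn : 6 * k ≤ n) :
    (pq r k n : ℝ) ≤ 65 * r * ((n : ℝ) / k) := by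
  have hk0 : (0 : ℝ) < k := by exact_mod_cast hk
  have h1 : ((64 * n * r / k : ℕ) : ℝ) ≤ ((64 * n * r : ℕ) : ℝ) / (k : ℝ) := Nat.cast_div_le
  have h2 : (1 : ℝ) ≤ r * ((n : ℝ) / k) := by
    have h3 : (1 : ℝ) ≤ r := by exact_mod_cast hr
    have h4 : (1 : ℝ) ≤ (n : ℝ) / k := by
      rw [le_div_iff₀ hk0, one_mul]
      have : k ≤ n := by omega
      exact_mod_cast this
    nlinarith
  unfold pq
  push_cast at h1 ⊢
  have h5 : (64 : ℝ) * n * r / k = 64 * (r * ((n : ℝ) / k)) := by ring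
  rw [h5] at h1
  linarith

/-- TARGET 1. -/
theorem nb_asymp (d r : ℕ) (hd : 3 ≤ d) (hr : 1 ≤ r) (η : ℝ) (hη : 0 < η) :
    ∃ k₀ : ℕ, ∀ k n N : ℕ, k₀ ≤ k → 6 * k ≤ n → n ≤ k ^ 2 → N ≤ n →
      (pL d r n N : ℝ) ≤ (k : ℝ) ^ η ∧
      (pL1 d r k n : ℝ) ≤ (n : ℝ) / k * (k : ℝ) ^ η ∧
      (pq r k n : ℝ) ≤ 65 * r * ((n : ℝ) / k) ∧
      (k : ℝ) ^ ((d : ℝ) - 1 - η) ≤ (pG d k : ℝ) ∧
      (k : ℝ) ^ ((d : ℝ) - 2 - η) ≤ (pQ d k n : ℝ) := by
  set c : ℝ := 1 / (4 * ((d - 1).factorial : ℝ)) with hc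
  have hf : (0 : ℝ) < ((d - 1).factorial : ℝ) := by exact_mod_cast Nat.factorial_pos _
  have hc0 : 0 < c := by rw [hc]; positivity
  obtain ⟨k1, hk1⟩ := h511jx_log ((192 : ℝ) ^ r * (3 * d + 6 * r)) ((192 : ℝ) ^ r * Real.log 8 + 1)
    η hη
  obtain ⟨k2, hk2⟩ := h511jx_log (65 * r * (3 * d)) (65 * r * Real.log (r : ℝ) + 1) η hη
  obtain ⟨k3, hk3⟩ := h511jx_log 0 (1 / c) η hη
  obtain ⟨k4, hk4⟩ := h511jx_log (16 / c) 0 η hη
  obtain ⟨k5, hk5⟩ := h511jx_log (16 / c) 0 1 one_pos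
  refine ⟨k1 + k2 + k3 + k4 + k5 + 8 * d + 2 * (d - 1).factorial + 3, ?_⟩
  intro k n N hk hn1 hn2 hN
  have hkpos : (0 : ℝ) < k := by
    have : 0 < k := by omega
    exact_mod_cast this
  have hk3' : (3 : ℝ) ≤ k := by
    have : 3 ≤ k := by omega
    exact_mod_cast this
  have hlog1 : 1 ≤ Real.log (k : ℝ) := by
    rw [Real.le_log_iff_exp_le hkpos]
    exact (Real.exp_one_lt_d9.le.trans (by norm_num)).trans hk3'
  have hnpos : (0 : ℝ) < n := by
    have : 0 < n := by omega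
    exact_mod_cast this
  have hln : Real.log ((n : ℝ) + 1) ≤ 3 * Real.log (k : ℝ) := h511jx_log3 (by omega) hn2
  have hlN : Real.log ((N : ℝ) + 1) ≤ 3 * Real.log (k : ℝ) :=
    h511jx_log3 (by omega) (hN.trans hn2)
  have hln0 : 0 ≤ Real.log ((n : ℝ) + 1) := Real.log_nonneg (by linarith)
  have hlN0 : 0 ≤ Real.log ((N : ℝ) + 1) := Real.log_nonneg (by
    have : (0 : ℝ) ≤ N := Nat.cast_nonneg N
    linarith)
  have hlnn : Real.log (n : ℝ) ≤ 3 * Real.log (k : ℝ) :=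
    (Real.log_le_log hnpos (by linarith)).trans hln
  have hlnn0 : 0 ≤ Real.log (n : ℝ) := Real.log_natCast_nonneg n
  have hlr0 : 0 ≤ Real.log (r : ℝ) := Real.log_natCast_nonneg r
  have hl80 : 0 ≤ Real.log (8 : ℝ) := Real.log_nonneg (by norm_num)
  have hd0 : (0 : ℝ) ≤ d := Nat.cast_nonneg d
  have hr0 : (0 : ℝ) ≤ r := Nat.cast_nonneg r
  have h192 : (0 : ℝ) < (192 : ℝ) ^ r := by positivity
  have hnk1 : (1 : ℝ) ≤ (n : ℝ) / k := by
    rw [le_div_iff₀ hkpos, one_mul]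
    have : k ≤ n := by omega
    exact_mod_cast this
  have hpq := h511jx_pq r k n hr (by omega) hn1
  have hpG := h511jx_pG d k hd (by omega) (by omega)
  rw [← hc] at hpG
  refine ⟨?_, ?_, hpq, ?_, ?_⟩
  · have h1 := hk1 k (by omega)
    refine le_trans (Nat.ceil_lt_add_one ?_).le (le_trans ?_ h1)
    · positivity
    · have h2 : (d : ℝ) * Real.log ((N : ℝ) + 1) ≤ d * (3 * Real.log (k : ℝ)) :=
        mul_le_mul_of_nonneg_left hlN hd0
      have h3 : 2 * (r : ℝ) * Real.log ((n : ℝ) + 1) ≤ 2 * r * (3 * Real.log (k : ℝ)) :=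
        mul_le_mul_of_nonneg_left hln (by positivity)
      have h4 : (192 : ℝ) ^ r * (Real.log 8 + d * Real.log ((N : ℝ) + 1) +
          2 * r * Real.log ((n : ℝ) + 1)) ≤ (192 : ℝ) ^ r * (Real.log 8 +
          d * (3 * Real.log (k : ℝ)) + 2 * r * (3 * Real.log (k : ℝ))) :=
        mul_le_mul_of_nonneg_left (by linarith) h192.le
      nlinarith [h4]
  · have h1 := hk2 k (by omega)
    have hsum0 : 0 ≤ (d : ℝ) * Real.log (n : ℝ) + Real.log (r : ℝ) := by positivity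
    have h2 : (d : ℝ) * Real.log (n : ℝ) ≤ d * (3 * Real.log (k : ℝ)) :=
      mul_le_mul_of_nonneg_left hlnn hd0
    refine le_trans (Nat.ceil_lt_add_one (by positivity)).le ?_
    have h3 : (pq r k n : ℝ) * (d * Real.log (n : ℝ) + Real.log (r : ℝ)) ≤
        (65 * r * ((n : ℝ) / k)) * (d * (3 * Real.log (k : ℝ)) + Real.log (r : ℝ)) :=
      mul_le_mul hpq (by linarith) hsum0 (by positivity)
    have h4 : (n : ℝ) / k * (65 * r * (3 * d) * Real.log (k : ℝ) + (65 * r * Real.log (r : ℝ) + 1)) ≤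
        (n : ℝ) / k * (k : ℝ) ^ η := mul_le_mul_of_nonneg_left h1 (by positivity)
    refine le_trans ?_ h4
    have h5 : (n : ℝ) / k * (65 * r * (3 * d) * Real.log (k : ℝ) + (65 * r * Real.log (r : ℝ) + 1)) =
        (65 * r * ((n : ℝ) / k)) * (d * (3 * Real.log (k : ℝ)) + Real.log (r : ℝ)) + (n : ℝ) / k := by
      ring
    rw [h5]
    linarith
  · refine le_trans ?_ hpG
    have h1 := hk3 k (by omega)
    rw [zero_mul, zero_add] at h1
    have h2 : (k : ℝ) ^ ((d : ℝ) - 1 - η) * (k : ℝ) ^ η = (k : ℝ) ^ (d - 1) := by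
      rw [← Real.rpow_add hkpos, ← Real.rpow_natCast]
      congr 1
      rw [Nat.cast_sub (by omega)]
      push_cast
      ring
    have h3 : 0 ≤ (k : ℝ) ^ ((d : ℝ) - 1 - η) := Real.rpow_nonneg hkpos.le _
    rw [← h2]
    have h4 : 1 ≤ c * (k : ℝ) ^ η := by
      rw [div_le_iff₀ hc0] at h1
      linarith
    calc (k : ℝ) ^ ((d : ℝ) - 1 - η) = (k : ℝ) ^ ((d : ℝ) - 1 - η) * 1 := by ring
      _ ≤ (k : ℝ) ^ ((d : ℝ) - 1 - η) * (c * (k : ℝ) ^ η) := mul_le_mul_of_nonneg_left h4 h3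
      _ = _ := by ring
  · have h4 := hk4 k (by omega)
    have h5 := hk5 k (by omega)
    rw [add_zero] at h4 h5
    rw [Real.rpow_one] at h5
    have hfl := (Nat.lt_floor_add_one ((pG d k : ℝ) / (2 * k * Real.log ((n : ℝ) + 1) + 2))).le
    have hQ : (pG d k : ℝ) / (2 * k * Real.log ((n : ℝ) + 1) + 2) ≤ (pQ d k n : ℝ) + 1 := hfl
    set l := Real.log (k : ℝ) with hl
    have hlpos : 0 < l := by linarith
    have hden : 2 * k * Real.log ((n : ℝ) + 1) + 2 ≤ 8 * (k * l) := by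
      have h6 : 2 * k * Real.log ((n : ℝ) + 1) ≤ 2 * k * (3 * l) :=
        mul_le_mul_of_nonneg_left hln (by positivity)
      have h7 : (1 : ℝ) ≤ k * l := by nlinarith
      linarith
    have hden0 : 0 < 2 * k * Real.log ((n : ℝ) + 1) + 2 := by positivity
    have hkp : (k : ℝ) ^ (d - 1) = k ^ (d - 2) * k := by
      rw [← pow_succ]; congr 1; omega
    have hmain : c / 8 * (k : ℝ) ^ (d - 2) / l ≤
        (pG d k : ℝ) / (2 * k * Real.log ((n : ℝ) + 1) + 2) := by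
      rw [div_le_div_iff₀ hlpos hden0]
      have hcp : 0 ≤ c / 8 * (k : ℝ) ^ (d - 2) := by positivity
      calc c / 8 * (k : ℝ) ^ (d - 2) * (2 * k * Real.log ((n : ℝ) + 1) + 2)
          ≤ c / 8 * (k : ℝ) ^ (d - 2) * (8 * (k * l)) := mul_le_mul_of_nonneg_left hden hcp
        _ = c * (k : ℝ) ^ (d - 1) * l := by rw [hkp]; ring
        _ ≤ (pG d k : ℝ) * l := mul_le_mul_of_nonneg_right hpG hlpos.le
    have hA : 1 ≤ c / 16 * (k : ℝ) ^ (d - 2) / l := by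
      rw [le_div_iff₀ hlpos, one_mul]
      have h6 : l ≤ c / 16 * k := by
        have h7 : 16 / c * l * (c / 16) ≤ k * (c / 16) :=
          mul_le_mul_of_nonneg_right h5 (by positivity)
        have h8 : 16 / c * l * (c / 16) = l := by field_simp
        rw [h8] at h7
        linarith
      refine h6.trans (mul_le_mul_of_nonneg_left ?_ (by positivity))
      exact le_self_pow₀ (by linarith) (by omega)
    have hB : (k : ℝ) ^ ((d : ℝ) - 2 - η) ≤ c / 16 * (k : ℝ) ^ (d - 2) / l := by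
      rw [le_div_iff₀ hlpos]
      have h2 : (k : ℝ) ^ ((d : ℝ) - 2 - η) * (k : ℝ) ^ η = (k : ℝ) ^ (d - 2) := by
        rw [← Real.rpow_add hkpos, ← Real.rpow_natCast]
        congr 1
        rw [Nat.cast_sub (by omega)]
        push_cast
        ring
      have h3 : 0 ≤ (k : ℝ) ^ ((d : ℝ) - 2 - η) := Real.rpow_nonneg hkpos.le _
      have h6 : l ≤ c / 16 * (k : ℝ) ^ η := by
        have h7 : 16 / c * l * (c / 16) ≤ (k : ℝ) ^ η * (c / 16) :=
          mul_le_mul_of_nonneg_right h4 (by positivity)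
        have h8 : 16 / c * l * (c / 16) = l := by field_simp
        rw [h8] at h7
        linarith
      rw [← h2]
      calc (k : ℝ) ^ ((d : ℝ) - 2 - η) * l
          ≤ (k : ℝ) ^ ((d : ℝ) - 2 - η) * (c / 16 * (k : ℝ) ^ η) :=
            mul_le_mul_of_nonneg_left h6 h3
        _ = _ := by ring
    have hC : c / 8 * (k : ℝ) ^ (d - 2) / l =
        c / 16 * (k : ℝ) ^ (d - 2) / l + c / 16 * (k : ℝ) ^ (d - 2) / l := by ring
    rw [hC] at hmain
    linarith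

end Pool.Agent.Helper650_LocX

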