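import Pool.Agent.Helper650_LocX.Defs

/-!
# Asymptotic inequalities, first part

Plain words.  Let `k` be large.  `N + 1 ≤ 2 n k^(-ε)` (since `n k^(-ε) ≥ 6 k^(1 - ε) ≥ 1`).
`n - 3 k - k / 8 ≥ n - 3.125 n / 6 ≥ 0.47 n`, and `n - 3 k - k/8 ≥ 2 d`, so
`(n - 3 k - k / 8).choose d ≥ (0.2 n / d)^d` or so (for example `Nat.pow_le_choose` and `d! ≤ d^d`), that is
`≥ c n^d` with a constant `c > 0` depending on `d` only.  `(r L₁)^d + 1 ≤ 2 r^d (n/k)^d k^(d η)` (note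
`n / k ≥ 6`, `k^η ≥ 1`), and `(n / k)^d ≤ k` since `n / k ≤ k^(1/d)`.  So the left side of the first claim is
at most `C n^d k^(- d ε) k k^(d η)`, and the right side is at least `(k / 16) c n^d`.  This holds for large
`k` if `η < ε`; take `η₀ = ε / 2`.  The second claim: `4 (N + 1)^d ≤ 4 2^d n^d k^(-d ε) ≤ c n^d` for large `k`.
-/

namespace Pool.Agent.Helper650_LocX

theorem h218x_small (δ C : ℝ) (hδ : 0 < δ) : ∃ k₀ : ℕ, ∀ k : ℕ, k₀ ≤ k → C * (k : ℝ) ^ (-δ) ≤ 1 := by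
  have h1 : Filter.Tendsto (fun k : ℕ => C * (k : ℝ) ^ (-δ)) Filter.atTop (nhds (C * 0)) :=
    ((tendsto_rpow_neg_atTop hδ).comp tendsto_natCast_atTop_atTop).const_mul C
  rw [mul_zero] at h1
  have h2 := h1.eventually (ge_mem_nhds (show (0 : ℝ) < 1 by norm_num))
  obtain ⟨k₀, hk₀⟩ := Filter.eventually_atTop.1 h2
  exact ⟨k₀, fun k hk => hk₀ k hk⟩

/-- Lower bound of the binomial coefficient. -/
theorem h218x_choose (d k n : ℕ) (hn : 6 * k ≤ n) (hk : 2 * d ≤ k) :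
    (n : ℝ) ^ d ≤ (6 ^ d * (Nat.factorial d : ℝ)) * ((n - 3 * k - k / 8).choose d : ℝ) := by
  set M := n - 3 * k - k / 8 with hM
  have h1 : n ≤ 3 * M := by omega
  have h2 : 2 * d ≤ M := by omega
  have h3 : n ≤ 6 * (M + 1 - d) := by omega
  have h4 : (((M + 1 - d : ℕ) ^ d : ℕ) : ℝ) / (Nat.factorial d : ℝ) ≤ (M.choose d : ℝ) := by
    have := Nat.pow_le_choose (α := ℝ) d M
    push_cast at this ⊢
    exact this
  have h5 : (0 : ℝ) < (Nat.factorial d : ℝ) := by exact_mod_cast Nat.factorial_pos d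
  rw [div_le_iff₀ h5] at h4
  have h6 : ((n : ℕ) ^ d : ℕ) ≤ (6 * (M + 1 - d)) ^ d := Nat.pow_le_pow_left h3 d
  have h7 : (n : ℝ) ^ d ≤ 6 ^ d * (((M + 1 - d : ℕ) ^ d : ℕ) : ℝ) := by
    rw [mul_pow] at h6
    exact_mod_cast h6
  calc (n : ℝ) ^ d ≤ 6 ^ d * (((M + 1 - d : ℕ) ^ d : ℕ) : ℝ) := h7
    _ ≤ 6 ^ d * ((M.choose d : ℝ) * (Nat.factorial d : ℝ)) := by gcongr
    _ = _ := by ring

/-- TARGET 1. -/
theorem nc_n7 (d r : ℕ) (hd : 2 ≤ d) (hr : 1 ≤ r) (ε : ℝ) (hε : 0 < ε) (hε2 : ε ≤ 1 / 2) :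
    ∃ η₀ : ℝ, 0 < η₀ ∧ ∀ η : ℝ, 0 < η → η ≤ η₀ → ∃ k₀ : ℕ, ∀ k n N L₁ : ℕ, k₀ ≤ k → 6 * k ≤ n →
      (n : ℝ) ≤ (k : ℝ) ^ (1 + 1 / (d : ℝ)) → (N : ℝ) ≤ n * (k : ℝ) ^ (-ε) →
      (L₁ : ℝ) ≤ (n : ℝ) / k * (k : ℝ) ^ η →
      32 * r ^ 2 * ((N + 1) ^ d * ((r * L₁) ^ d + 1)) ≤ (k / 8) * (n - 3 * k - k / 8).choose d ∧
      4 * (N + 1) ^ d ≤ (n - 3 * k - k / 8).choose d := by
  refine ⟨ε / 2, by linarith, ?_⟩
  intro η hη hηε
  have hd0 : (0 : ℝ) < d := by exact_mod_cast (by omega : 0 < d)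
  set F : ℝ := 6 ^ d * (Nat.factorial d : ℝ) with hF
  have hFpos : 0 < F := by
    have h5 : (0 : ℝ) < (Nat.factorial d : ℝ) := by exact_mod_cast Nat.factorial_pos d
    positivity
  have hδ1 : 0 < (d : ℝ) * (ε - η) := mul_pos hd0 (by linarith)
  have hδ2 : 0 < (d : ℝ) * ε := mul_pos hd0 hε
  obtain ⟨k1, hk1⟩ := h218x_small ((d : ℝ) * (ε - η)) (1024 * r ^ (d + 2) * 2 ^ d * F) hδ1
  obtain ⟨k2, hk2⟩ := h218x_small ((d : ℝ) * ε) (4 * 2 ^ d * F) hδ2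
  refine ⟨k1 + k2 + 2 * d + 16, ?_⟩
  intro k n N L₁ hk hn hnk hN hL
  have hk1' := hk1 k (by omega)
  have hk2' := hk2 k (by omega)
  have hk16 : 16 ≤ k := by omega
  have hkR : (0 : ℝ) < k := by exact_mod_cast (by omega : 0 < k)
  have hk1R : (1 : ℝ) ≤ k := by exact_mod_cast (by omega : 1 ≤ k)
  have hnR : (0 : ℝ) < n := by exact_mod_cast (by omega : 0 < n)
  have hn6 : 6 * (k : ℝ) ≤ n := by exact_mod_cast hn
  have hch := h218x_choose d k n hn (by omega)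
  rw [← hF] at hch
  set B : ℝ := ((n - 3 * k - k / 8).choose d : ℝ) with hB
  have hB0 : 0 ≤ B := by positivity
  set P : ℝ := (k : ℝ) ^ (-ε) with hP
  have hPpos : 0 < P := Real.rpow_pos_of_pos hkR _
  have hone : 1 ≤ n * P := by
    have h1 : (k : ℝ) ^ (-(1 : ℝ)) ≤ P := Real.rpow_le_rpow_of_exponent_le hk1R (by linarith)
    have h2 : (k : ℝ) ^ (-(1 : ℝ)) = (k : ℝ)⁻¹ := Real.rpow_neg_one _
    have h3 : (k : ℝ) * (k : ℝ)⁻¹ = 1 := mul_inv_cancel₀ hkR.ne'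
    calc (1 : ℝ) = (k : ℝ) * (k : ℝ)⁻¹ := h3.symm
      _ ≤ n * P := by
        rw [← h2]
        gcongr
        linarith
  have hN1 : ((N : ℝ) + 1) ≤ 2 * (n * P) := by linarith
  have hN1d : ((N : ℝ) + 1) ^ d ≤ 2 ^ d * (n ^ d * P ^ d) := by
    calc ((N : ℝ) + 1) ^ d ≤ (2 * (n * P)) ^ d := by gcongr
      _ = _ := by rw [mul_pow, mul_pow]
  have hPd : P ^ d = (k : ℝ) ^ (-((d : ℝ) * ε)) := by
    rw [hP, ← Real.rpow_natCast, ← Real.rpow_mul hkR.le]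
    congr 1
    ring
  set Q : ℝ := (k : ℝ) ^ η with hQ
  have hQ1 : 1 ≤ Q := Real.one_le_rpow hk1R hη.le
  have hQd : P ^ d * Q ^ d = (k : ℝ) ^ (-((d : ℝ) * (ε - η))) := by
    rw [← mul_pow, hP, hQ, ← Real.rpow_add hkR, ← Real.rpow_natCast, ← Real.rpow_mul hkR.le]
    congr 1
    ring
  have hnkd : ((n : ℝ) / k) ^ d ≤ k := by
    have h1 : (n : ℝ) / k ≤ (k : ℝ) ^ (1 / (d : ℝ)) := by
      rw [div_le_iff₀ hkR]
      calc (n : ℝ) ≤ (k : ℝ) ^ (1 + 1 / (d : ℝ)) := hnk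
        _ = (k : ℝ) ^ (1 / (d : ℝ)) * k := by
          rw [Real.rpow_add hkR, Real.rpow_one]; ring
    calc ((n : ℝ) / k) ^ d ≤ ((k : ℝ) ^ (1 / (d : ℝ))) ^ d := by gcongr
      _ = k := by
        rw [← Real.rpow_natCast, ← Real.rpow_mul hkR.le]
        rw [one_div, inv_mul_cancel₀ hd0.ne', Real.rpow_one]
  have hrR : (1 : ℝ) ≤ r := by exact_mod_cast hr
  have hnk1 : (1 : ℝ) ≤ (n : ℝ) / k := by
    rw [le_div_iff₀ hkR]; linarith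
  have hLd : ((r : ℝ) * L₁) ^ d + 1 ≤ 2 * (r ^ d * (k * Q ^ d)) := by
    have h1 : ((r : ℝ) * L₁) ^ d ≤ r ^ d * (((n : ℝ) / k) ^ d * Q ^ d) := by
      calc ((r : ℝ) * L₁) ^ d ≤ (r * ((n : ℝ) / k * Q)) ^ d := by gcongr
        _ = _ := by rw [mul_pow, mul_pow]
    have h2 : (1 : ℝ) ≤ r ^ d * (k * Q ^ d) := by
      have e1 : (1 : ℝ) ≤ (r : ℝ) ^ d := one_le_pow₀ hrR
      have e2 : (1 : ℝ) ≤ Q ^ d := one_le_pow₀ hQ1
      have e3 : (1 : ℝ) ≤ k * Q ^ d := one_le_mul_of_one_le_of_one_le hk1R e2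
      exact one_le_mul_of_one_le_of_one_le e1 e3
    have h3 : r ^ d * (((n : ℝ) / k) ^ d * Q ^ d) ≤ r ^ d * (k * Q ^ d) := by gcongr
    linarith
  constructor
  · -- first claim
    have hk8 : (k : ℝ) ≤ 16 * ((k / 8 : ℕ) : ℝ) := by
      have : k ≤ 16 * (k / 8) := by omega
      exact_mod_cast this
    have goal : (32 : ℝ) * r ^ 2 * (((N : ℝ) + 1) ^ d * (((r : ℝ) * L₁) ^ d + 1)) ≤
        ((k / 8 : ℕ) : ℝ) * B := by
      calc (32 : ℝ) * r ^ 2 * (((N : ℝ) + 1) ^ d * (((r : ℝ) * L₁) ^ d + 1))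
          ≤ 32 * r ^ 2 * ((2 ^ d * (n ^ d * P ^ d)) * (2 * (r ^ d * (k * Q ^ d)))) := by gcongr
        _ = (64 * r ^ (d + 2) * 2 ^ d * (k : ℝ)) * ((P ^ d * Q ^ d) * n ^ d) := by ring
        _ ≤ (64 * r ^ (d + 2) * 2 ^ d * (k : ℝ)) * ((P ^ d * Q ^ d) * (F * B)) := by gcongr
        _ = ((k : ℝ) / 16 * B) * ((1024 * r ^ (d + 2) * 2 ^ d * F) * (P ^ d * Q ^ d)) := by ring
        _ ≤ ((k : ℝ) / 16 * B) * 1 := by
          rw [hQd]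
          gcongr
        _ ≤ ((k / 8 : ℕ) : ℝ) * B := by
          rw [mul_one]
          gcongr
          linarith
    have h9 : ((32 * r ^ 2 * ((N + 1) ^ d * ((r * L₁) ^ d + 1)) : ℕ) : ℝ) ≤
        (((k / 8) * (n - 3 * k - k / 8).choose d : ℕ) : ℝ) := by
      push_cast
      exact goal
    exact_mod_cast h9
  · have goal : (4 : ℝ) * ((N : ℝ) + 1) ^ d ≤ B := by
      calc (4 : ℝ) * ((N : ℝ) + 1) ^ d ≤ 4 * (2 ^ d * (n ^ d * P ^ d)) := by gcongr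
        _ = 4 * 2 ^ d * P ^ d * n ^ d := by ring
        _ ≤ 4 * 2 ^ d * P ^ d * (F * B) := by gcongr
        _ = B * (4 * 2 ^ d * F * P ^ d) := by ring
        _ ≤ B * 1 := by
          rw [hPd]
          gcongr
        _ = B := mul_one _
    have h9 : ((4 * (N + 1) ^ d : ℕ) : ℝ) ≤ (((n - 3 * k - k / 8).choose d : ℕ) : ℝ) := by
      push_cast
      exact goal
    exact_mod_cast h9

end Pool.Agent.Helper650_LocX

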