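import Pool.Agent.Helper650_LocX.Defs

/-!
# Asymptotic inequalities, second part

Plain words.  Let `k` be large, `η ≤ η₀` with a small `η₀` depending on `d` and `r`.  `q ≤ 65 r n / k ≤
65 r k^(1/d)` and `(r L + 1)^r ≤ (2 r)^r k^(r η)`, so `P := d ((r L + 1)^r)^(d - 1) ≤ C k^(r d η)`.  First
claim: the left side is at most `C k^(1/d) k k^(r d η) = C k^(1 + 1/d + r d η)`, and `G ≥ k^(d - 1 - η)` with
`d - 1 - (1 + 1/d) ≥ 2 - 4/3 = 2/3`.  Second claim (`2 ≤ j ≤ s < r`, finitely many pairs, all constants can be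
bounded in terms of `r` and `d`): the left side is at most
`C k^(j/d) k k^(s - j) k^(r d η s) = C k^(s + 1 - j (1 - 1/d) + r d η s)`, where `j (1 - 1/d) ≥ 2 (1 - 1/3) = 4/3`,
so at most `C k^(s - 1/3 + r^2 d η)`; the right side is at least `k^(s (d - 2 - η)) ≥ k^(s - r η)`.
`η₀ = 1 / (12 r^2 d)` is small enough: `r^2 d η + r η ≤ 1/6`.
-/

namespace Pool.Agent.Helper650_LocX

/-- TARGET 2. -/
theorem nc_n9 (d r : ℕ) (hd : 3 ≤ d) (hr : 1 ≤ r) :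
    ∃ η₀ : ℝ, 0 < η₀ ∧ ∀ η : ℝ, 0 < η → η ≤ η₀ → ∃ k₀ : ℕ, ∀ k n q L G Q : ℕ, k₀ ≤ k → 6 * k ≤ n →
      (n : ℝ) ≤ (k : ℝ) ^ (1 + 1 / (d : ℝ)) → (L : ℝ) ≤ (k : ℝ) ^ η →
      (q : ℝ) ≤ 65 * r * ((n : ℝ) / k) → (k : ℝ) ^ ((d : ℝ) - 1 - η) ≤ (G : ℝ) →
      (k : ℝ) ^ ((d : ℝ) - 2 - η) ≤ (Q : ℝ) →
      (d * r * q) * (k / 8) * (d * ((r * L + 1) ^ r) ^ (d - 1)) ≤ G ∧
      ∀ j s : ℕ, 2 ≤ j → j ≤ s → s < r →
        4 * r ^ 2 * (((d * r * q) ^ j * (k / 8)) * (s ^ j * k ^ (s - j)) *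
          (d * ((r * L + 1) ^ r) ^ (d - 1)) ^ s) ≤ Q ^ s := by
  have hr' : (1:ℝ) ≤ r := by exact_mod_cast hr
  have hd' : (3:ℝ) ≤ d := by exact_mod_cast hd
  have hr0 : (0:ℝ) < r := by linarith
  have hd0 : (0:ℝ) < d := by linarith
  obtain ⟨C1, hC1⟩ : ∃ C1 : ℝ, C1 = d * ((2 * (r:ℝ)) ^ r) ^ (d - 1) := ⟨_, rfl⟩
  obtain ⟨C2, hC2⟩ : ∃ C2 : ℝ, C2 = 65 * d * (r:ℝ) ^ 2 := ⟨_, rfl⟩
  have h2r : (1:ℝ) ≤ 2 * r := by linarith
  have h1C1 : 1 ≤ C1 := by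
    rw [hC1]
    have : (1:ℝ) ≤ ((2 * (r:ℝ)) ^ r) ^ (d - 1) := one_le_pow₀ (one_le_pow₀ h2r)
    nlinarith
  have h1C2 : 1 ≤ C2 := by
    rw [hC2]
    have : (1:ℝ) ≤ (r:ℝ) ^ 2 := one_le_pow₀ hr'
    nlinarith
  obtain ⟨C3, hC3⟩ : ∃ C3 : ℝ, C3 = 4 * (r:ℝ) ^ 2 * (C2 ^ r * (r:ℝ) ^ r * C1 ^ r) := ⟨_, rfl⟩
  have hC1r : C1 ≤ C1 ^ r := le_self_pow₀ h1C1 (by omega)
  have hC2r : C2 ≤ C2 ^ r := le_self_pow₀ h1C2 (by omega)
  have hrr : (1:ℝ) ≤ (r:ℝ) ^ r := one_le_pow₀ hr'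
  have hC1pos : 0 < C1 := by linarith
  have hC2pos : 0 < C2 := by linarith
  have hC12 : C2 * C1 ≤ C3 := by
    rw [hC3]
    have h4 : (1:ℝ) ≤ 4 * (r:ℝ) ^ 2 := by
      have : (1:ℝ) ≤ (r:ℝ) ^ 2 := one_le_pow₀ hr'
      linarith
    calc C2 * C1 = 1 * (C2 * 1 * C1) := by ring
      _ ≤ 4 * (r:ℝ) ^ 2 * (C2 ^ r * (r:ℝ) ^ r * C1 ^ r) := by gcongr
  have hC3pos : 0 < C3 := lt_of_lt_of_le (by positivity) hC12
  refine ⟨1 / (12 * (r:ℝ) ^ 2 * d), by positivity, ?_⟩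
  intro η hη hη0
  have hη1 : η * (12 * (r:ℝ) ^ 2 * d) ≤ 1 := by rwa [le_div_iff₀ (by positivity)] at hη0
  obtain ⟨k₀, hk₀⟩ := exists_nat_ge (max 1 (C3 ^ 6))
  refine ⟨k₀, ?_⟩
  intro k n q L G Q hk hkn hn hL hq hG hQ
  have hkk : (k₀ : ℝ) ≤ (k : ℝ) := by exact_mod_cast hk
  obtain ⟨x, hx⟩ : ∃ x : ℝ, x = (k:ℝ) := ⟨_, rfl⟩
  rw [← hx] at hn hL hq hG hQ hkk
  have hx1 : (1:ℝ) ≤ x := (le_max_left _ _).trans (hk₀.trans hkk)
  have hx0 : (0:ℝ) < x := by linarith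
  have hxC : C3 ≤ x ^ (1 / 6 : ℝ) := by
    have h1 : C3 ^ 6 ≤ x := (le_max_right _ _).trans (hk₀.trans hkk)
    have h2 : C3 = (C3 ^ 6) ^ (1 / 6 : ℝ) := by
      rw [← Real.rpow_natCast, ← Real.rpow_mul hC3pos.le]
      norm_num
    rw [h2]
    exact Real.rpow_le_rpow (by positivity) h1 (by norm_num)
  have hk8 : ((k / 8 : ℕ) : ℝ) ≤ x := by
    rw [hx]
    exact_mod_cast Nat.div_le_self k 8
  -- bound on A
  have hA : ((d * r * q : ℕ) : ℝ) ≤ C2 * x ^ (1 / (d:ℝ)) := by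
    have h1 : (n:ℝ) / x ≤ x ^ (1 / (d:ℝ)) := by
      rw [div_le_iff₀ hx0]
      calc (n:ℝ) ≤ x ^ (1 + 1 / (d:ℝ)) := hn
        _ = x ^ (1 / (d:ℝ)) * x := by
          rw [Real.rpow_add hx0, Real.rpow_one]; ring
    push_cast
    calc (d:ℝ) * r * q ≤ d * r * (65 * r * ((n:ℝ) / x)) := by gcongr
      _ ≤ d * r * (65 * r * x ^ (1 / (d:ℝ))) := by gcongr
      _ = C2 * x ^ (1 / (d:ℝ)) := by rw [hC2]; ring
  have hxη : (1:ℝ) ≤ x ^ η := Real.one_le_rpow hx1 hη.le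
  have hP : ((d * ((r * L + 1) ^ r) ^ (d - 1) : ℕ) : ℝ) ≤ C1 * x ^ (r * d * η) := by
    push_cast
    have h1 : (r:ℝ) * L + 1 ≤ 2 * r * x ^ η := by
      have : (r:ℝ) * L ≤ r * x ^ η := by gcongr
      nlinarith
    have h2 : (((r:ℝ) * L + 1) ^ r) ^ (d - 1) ≤ ((2 * r * x ^ η) ^ r) ^ (d - 1) := by gcongr
    have h3 : (((2 * (r:ℝ)) * x ^ η) ^ r) ^ (d - 1) =
        ((2 * (r:ℝ)) ^ r) ^ (d - 1) * (((x ^ η) ^ r) ^ (d - 1)) := by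
      rw [mul_pow, mul_pow]
    have h4 : (((x ^ η) ^ r) ^ (d - 1)) ≤ x ^ (r * d * η) := by
      rw [← Real.rpow_natCast, ← Real.rpow_natCast, ← Real.rpow_mul hx0.le, ← Real.rpow_mul hx0.le]
      apply Real.rpow_le_rpow_of_exponent_le hx1
      have h5 : ((d - 1 : ℕ) : ℝ) ≤ d := by exact_mod_cast Nat.sub_le d 1
      calc η * r * ((d - 1 : ℕ) : ℝ) ≤ η * r * d := by gcongr
        _ = r * d * η := by ring
    calc (d:ℝ) * (((r:ℝ) * L + 1) ^ r) ^ (d - 1) ≤ d * ((2 * r * x ^ η) ^ r) ^ (d - 1) := by gcongr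
      _ = (d * ((2 * (r:ℝ)) ^ r) ^ (d - 1)) * (((x ^ η) ^ r) ^ (d - 1)) := by rw [h3]; ring
      _ ≤ (d * ((2 * (r:ℝ)) ^ r) ^ (d - 1)) * x ^ (r * d * η) := by gcongr
      _ = C1 * x ^ (r * d * η) := by rw [hC1]
  obtain ⟨A, hAdef⟩ : ∃ A : ℕ, A = d * r * q := ⟨_, rfl⟩
  obtain ⟨P, hPdef⟩ : ∃ P : ℕ, P = d * ((r * L + 1) ^ r) ^ (d - 1) := ⟨_, rfl⟩
  rw [← hAdef] at hA
  rw [← hPdef] at hP
  rw [← hAdef, ← hPdef]
  have hrd1 : (1:ℝ) ≤ r * d := by nlinarith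
  have hdinv : 1 / (d:ℝ) ≤ 1 / 3 := by
    apply one_div_le_one_div_of_le (by norm_num) hd'
  have hkey : (r:ℝ) * (η * (1 + r * d)) ≤ 1 / 6 := by
    have h1 : (1:ℝ) + r * d ≤ 2 * (r * d) := by linarith
    have h2 : (r:ℝ) * (η * (1 + r * d)) ≤ r * (η * (2 * (r * d))) := by gcongr
    have h3 : (r:ℝ) * (η * (2 * (r * d))) = (η * (12 * (r:ℝ) ^ 2 * d)) / 6 := by ring
    rw [h3] at h2
    linarith
  have hkey0 : 0 ≤ η * (1 + r * d) := by positivity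
  have hkey1 : η * (1 + r * d) ≤ 1 / 6 := by
    calc η * (1 + r * d) = 1 * (η * (1 + r * d)) := by ring
      _ ≤ r * (η * (1 + r * d)) := by gcongr
      _ ≤ 1 / 6 := hkey
  constructor
  · have h1 : ((A * (k / 8) * P : ℕ) : ℝ) ≤ (G : ℝ) := by
      push_cast
      calc (A:ℝ) * ((k / 8 : ℕ) : ℝ) * P
          ≤ (C2 * x ^ (1 / (d:ℝ))) * x * (C1 * x ^ (r * d * η)) := by gcongr
        _ = (C2 * C1) * (x ^ (1 / (d:ℝ)) * x ^ (1:ℝ) * x ^ (r * d * η)) := by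
          rw [Real.rpow_one]; ring
        _ = (C2 * C1) * x ^ (1 / (d:ℝ) + 1 + r * d * η) := by
          rw [← Real.rpow_add hx0, ← Real.rpow_add hx0]
        _ ≤ x ^ (1 / 6 : ℝ) * x ^ (1 / (d:ℝ) + 1 + r * d * η) := by
          gcongr
          exact hC12.trans hxC
        _ = x ^ (1 / 6 + (1 / (d:ℝ) + 1 + r * d * η)) := by rw [← Real.rpow_add hx0]
        _ ≤ x ^ ((d : ℝ) - 1 - η) := by
          apply Real.rpow_le_rpow_of_exponent_le hx1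
          have g1 : r * d * η = η * (1 + r * d) - η := by ring
          rw [g1]
          linarith
        _ ≤ G := hG
    exact_mod_cast h1
  · intro j s hj hjs hsr
    have hsr' : (s:ℝ) ≤ r := by exact_mod_cast hsr.le
    have hj' : (2:ℝ) ≤ j := by exact_mod_cast hj
    have h1 : ((4 * r ^ 2 * ((A ^ j * (k / 8)) * (s ^ j * k ^ (s - j)) * P ^ s) : ℕ) : ℝ) ≤
        ((Q ^ s : ℕ) : ℝ) := by
      push_cast
      rw [← hx]
      have hjr : j ≤ r := by omega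
      have e1 : (A:ℝ) ^ j ≤ C2 ^ r * x ^ (1 / (d:ℝ) * j) := by
        calc (A:ℝ) ^ j ≤ (C2 * x ^ (1 / (d:ℝ))) ^ j := by gcongr
          _ = C2 ^ j * x ^ (1 / (d:ℝ) * j) := by
            rw [mul_pow, Real.rpow_mul hx0.le, Real.rpow_natCast]
          _ ≤ C2 ^ r * x ^ (1 / (d:ℝ) * j) := by
            gcongr
      have e2 : (s:ℝ) ^ j ≤ (r:ℝ) ^ r := by
        calc (s:ℝ) ^ j ≤ (r:ℝ) ^ j := by gcongr
          _ ≤ (r:ℝ) ^ r := by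
            gcongr
      have e3 : (P:ℝ) ^ s ≤ C1 ^ r * x ^ (r * d * η * s) := by
        calc (P:ℝ) ^ s ≤ (C1 * x ^ (r * d * η)) ^ s := by gcongr
          _ = C1 ^ s * x ^ (r * d * η * s) := by
            rw [mul_pow, Real.rpow_mul hx0.le (r * d * η) s, Real.rpow_natCast]
          _ ≤ C1 ^ r * x ^ (r * d * η * s) := by
            gcongr
      have e4 : x ^ (s - j) = x ^ ((s:ℝ) - j) := by
        rw [← Real.rpow_natCast]
        congr 1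
        push_cast [Nat.cast_sub hjs]
        ring
      rw [e4]
      calc 4 * (r:ℝ) ^ 2 * ((A:ℝ) ^ j * ((k / 8 : ℕ) : ℝ) * ((s:ℝ) ^ j * x ^ ((s:ℝ) - j)) * (P:ℝ) ^ s)
          ≤ 4 * (r:ℝ) ^ 2 * ((C2 ^ r * x ^ (1 / (d:ℝ) * j)) * x * ((r:ℝ) ^ r * x ^ ((s:ℝ) - j)) *
            (C1 ^ r * x ^ (r * d * η * s))) := by
            have p1 : 0 < x ^ ((s:ℝ) - j) := Real.rpow_pos_of_pos hx0 _
            exact mul_le_mul_of_nonneg_left (mul_le_mul (mul_le_mul (mul_le_mul e1 hk8 (by positivity)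
              (by positivity)) (mul_le_mul_of_nonneg_right e2 p1.le) (by positivity) (by positivity))
              e3 (by positivity) (by positivity)) (by positivity)
        _ = C3 * (x ^ (1 / (d:ℝ) * j) * x ^ (1:ℝ) * x ^ ((s:ℝ) - j) * x ^ (r * d * η * s)) := by
          rw [Real.rpow_one, hC3]; ring
        _ = C3 * x ^ (1 / (d:ℝ) * j + 1 + ((s:ℝ) - j) + r * d * η * s) := by
          rw [← Real.rpow_add hx0, ← Real.rpow_add hx0, ← Real.rpow_add hx0]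
        _ ≤ x ^ (1 / 6 : ℝ) * x ^ (1 / (d:ℝ) * j + 1 + ((s:ℝ) - j) + r * d * η * s) :=
          mul_le_mul_of_nonneg_right hxC (Real.rpow_pos_of_pos hx0 _).le
        _ = x ^ (1 / 6 + (1 / (d:ℝ) * j + 1 + ((s:ℝ) - j) + r * d * η * s)) := by
          rw [← Real.rpow_add hx0]
        _ ≤ x ^ (((d : ℝ) - 2 - η) * s) := by
          apply Real.rpow_le_rpow_of_exponent_le hx1
          have f1 : (s:ℝ) * (η * (1 + r * d)) ≤ 1 / 6 := by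
            calc (s:ℝ) * (η * (1 + r * d)) ≤ r * (η * (1 + r * d)) := by gcongr
              _ ≤ 1 / 6 := hkey
          have f2 : (1 / (d:ℝ)) * j ≤ 1 / 3 * j := by gcongr
          have f3 : (0:ℝ) ≤ ((d:ℝ) - 3) * s := mul_nonneg (by linarith) (by positivity)
          have g1 : r * d * η * s = (s:ℝ) * (η * (1 + r * d)) - s * η := by ring
          have g2 : ((d : ℝ) - 2 - η) * s = ((d:ℝ) - 3) * s + s - s * η := by ring
          rw [g1, g2]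
          linarith
        _ = (x ^ ((d : ℝ) - 2 - η)) ^ s := by
          rw [Real.rpow_mul hx0.le, Real.rpow_natCast]
        _ ≤ (Q:ℝ) ^ s := pow_le_pow_left₀ (Real.rpow_pos_of_pos hx0 _).le hQ s
    exact_mod_cast h1

end Pool.Agent.Helper650_LocX

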