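import Pool.Agent.Helper650_LocX.NumA
import Pool.Agent.Helper650_LocX.NumB
import Pool.Agent.Helper650_LocX.NumC
import Pool.Agent.Helper650_LocX.NumD

/-!
# The parameters exist
-/

namespace Pool.Agent.Helper650_LocX

theorem rx_numeric (d r : ℕ) (hd : 3 ≤ d) (hr : 2 ≤ r) (ε : ℝ) (hε : 0 < ε) :
    ∃ k₀ : ℕ, ∀ k n N : ℕ, k₀ ≤ k → 6 * k ≤ n → (n : ℝ) ≤ (k : ℝ) ^ (1 + 1 / (d : ℝ)) →
      (N : ℝ) ≤ n * (k : ℝ) ^ (-ε) →
      ∃ w₀ k₁ k₂ m q₀ q L L₁ G Q : ℕ,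
        NumOK d r n k ((N + 1) ^ d) w₀ k₁ k₂ m q₀ q L L₁ G Q := by
  set ε' := min ε (1 / 2) with hε'
  have hε'0 : 0 < ε' := lt_min hε (by norm_num)
  obtain ⟨η₁, hη₁, h1⟩ := nc_n7 d r (by omega) (by omega) ε' hε'0 (min_le_right _ _)
  obtain ⟨η₂, hη₂, h2⟩ := nc_n9 d r hd (by omega)
  set η := min (min η₁ η₂) (1 / 2) with hη
  have hη0 : 0 < η := lt_min (lt_min hη₁ hη₂) (by norm_num)
  obtain ⟨a₁, h1⟩ := h1 η hη0 ((min_le_left _ _).trans (min_le_left _ _))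
  obtain ⟨a₂, h2⟩ := h2 η hη0 ((min_le_left _ _).trans (min_le_right _ _))
  obtain ⟨a₃, h3⟩ := nb_asymp d r (by omega) (by omega) η hη0
  refine ⟨a₁ + a₂ + a₃ + d + 8, ?_⟩
  intro k n N hk hkn hn hN
  have hk1 : (1 : ℝ) ≤ k := by exact_mod_cast (by omega : 1 ≤ k)
  have hN' : (N : ℝ) ≤ n * (k : ℝ) ^ (-ε') := by
    refine hN.trans (mul_le_mul_of_nonneg_left ?_ (Nat.cast_nonneg n))
    exact Real.rpow_le_rpow_of_exponent_le hk1 (neg_le_neg (min_le_left _ _))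
  have hNn : N ≤ n := by
    have h4 : (k : ℝ) ^ (-ε') ≤ 1 := Real.rpow_le_one_of_one_le_of_nonpos hk1 (by linarith)
    have h5 : (N : ℝ) ≤ n := hN'.trans (mul_le_of_le_one_right (Nat.cast_nonneg n) h4)
    exact_mod_cast h5
  have hn2 : n ≤ k ^ 2 := by
    have h4 : (k : ℝ) ^ (1 + 1 / (d : ℝ)) ≤ (k : ℝ) ^ (2 : ℝ) := by
      apply Real.rpow_le_rpow_of_exponent_le hk1
      have h5 : (1 : ℝ) / d ≤ 1 := by
        rw [div_le_one (by positivity)]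
        exact_mod_cast (by omega : 1 ≤ d)
      linarith
    have h5 : (n : ℝ) ≤ (k : ℝ) ^ (2 : ℕ) := by
      rw [← Real.rpow_natCast]
      exact_mod_cast hn.trans h4
    exact_mod_cast h5
  obtain ⟨b1, b2, b3, b4, b5⟩ := h3 k n N (by omega) hkn hn2 hNn
  obtain ⟨c1, c2⟩ := h1 k n N (pL1 d r k n) (by omega) hkn hn hN' b2
  obtain ⟨c3, c4⟩ := h2 k n (pq r k n) (pL d r n N) (pG d k) (pQ d k n) (by omega) hkn hn b1 b3
    b4 b5
  have hQ : 1 ≤ pQ d k n := by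
    have h6 : (1 : ℝ) ≤ (k : ℝ) ^ ((d : ℝ) - 2 - η) := by
      apply Real.one_le_rpow hk1
      have h7 : η ≤ 1 / 2 := min_le_right _ _
      have h8 : (3 : ℝ) ≤ d := by exact_mod_cast hd
      linarith
    have h7 : (1 : ℝ) ≤ (pQ d k n : ℝ) := h6.trans b5
    exact_mod_cast h7
  refine ⟨3 * k, k / 8, k / 8, k / 8, 192, pq r k n, pL d r n N, pL1 d r k n, pG d k, pQ d k n, ?_⟩
  refine
    { hq₀ := by norm_num
      hq := Nat.le_add_left 1 _
      hm := by omega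
      hQ := hQ
      n1 := by omega
      n2 := by omega
      n3 := by omega
      n4 := na_n4 r k n (by omega)
      n5 := na_n5 d r n N
      n6 := na_n6 d r k n (by omega) (by omega)
      n7 := c1
      n8 := c2
      n9 := ?_
      n10 := na_n10 d k n (by omega) (by omega) hQ
      n11 := c4 }
  have h6 : pG d k + pG d k ≤ (3 * k - k / 8 - k).choose (d - 1) := by
    unfold pG
    omega
  omega

end Pool.Agent.Helper650_LocX
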