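import Pool.Agent.Helper650_LocX.Core
import Pool.Agent.Helper650_LocX.Num
import Pool.Agent.Helper650_LocX.Enc
import Pool.Agent.Helper650_LocR.Tree
import Pool.Agent.Helper650_HSK.LocUp

/-!
# The number of vertices of local kernels
-/

namespace Pool.Agent.Helper650_LocX

theorem kernel_of_old {d n k N : ℕ} (h : Pool.Agent.Helper650_HSK.LocalKernel d n k N) :
    LocalKernel d 1 n 1 k N := by
  obtain ⟨k', B, F, hB, hF, hE⟩ := h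
  exact kernel_of_edge k' B F hB hF hE

theorem upper_one (d : ℕ) (hd : 3 ≤ d) (B : ℕ) (ε : ℝ) (hε : 0 < ε) :
    ∃ C : ℝ, 0 < C ∧ ∀ k n : ℕ, 1 ≤ k → n ≤ (k + 1) ^ B →
      ∃ N : ℕ, (N : ℝ) ≤ C * min (n : ℝ) ((k : ℝ) ^ (1 + 1 / (d : ℝ))) * (k : ℝ) ^ ε ∧
        LocalKernel d 1 n 1 k N := by
  obtain ⟨C, hC, hup⟩ := Pool.Agent.Helper650_HSK.local_upper d hd B ε hε
  refine ⟨max 1 (C * 2 ^ (1 + 1 / (d : ℝ) + ε)), by positivity, ?_⟩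
  intro k n hk hnB
  have hk1 : (1 : ℝ) ≤ k := by exact_mod_cast hk
  have hkε : (1 : ℝ) ≤ (k : ℝ) ^ ε := Real.one_le_rpow hk1 hε.le
  rcases le_total (n : ℝ) ((k : ℝ) ^ (1 + 1 / (d : ℝ))) with h1 | h1
  · refine ⟨n, ?_, kernel_id d n k⟩
    rw [min_eq_left h1]
    have h2 : (0 : ℝ) ≤ n := Nat.cast_nonneg n
    calc (n : ℝ) = 1 * n * 1 := by ring
      _ ≤ max 1 (C * 2 ^ (1 + 1 / (d : ℝ) + ε)) * n * (k : ℝ) ^ ε := by
        apply mul_le_mul _ hkε zero_le_one (by positivity)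
        exact mul_le_mul_of_nonneg_right (le_max_left _ _) h2
  · obtain ⟨N, hN, hN'⟩ := hup k n hnB
    refine ⟨N, ?_, kernel_of_old hN'⟩
    rw [min_eq_right h1]
    have hk2 : (k : ℝ) + 1 ≤ 2 * k := by linarith
    have h3 : ((k : ℝ) + 1) ^ (1 + 1 / (d : ℝ) + ε) ≤
        2 ^ (1 + 1 / (d : ℝ) + ε) * ((k : ℝ) ^ (1 + 1 / (d : ℝ)) * (k : ℝ) ^ ε) := by
      rw [← Real.rpow_add (by linarith), ← Real.mul_rpow (by norm_num) (by linarith)]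
      exact Real.rpow_le_rpow (by linarith) hk2 (by positivity)
    calc (N : ℝ) ≤ C * ((k : ℝ) + 1) ^ (1 + 1 / (d : ℝ) + ε) := hN
      _ ≤ C * (2 ^ (1 + 1 / (d : ℝ) + ε) * ((k : ℝ) ^ (1 + 1 / (d : ℝ)) * (k : ℝ) ^ ε)) :=
        mul_le_mul_of_nonneg_left h3 hC.le
      _ = (C * 2 ^ (1 + 1 / (d : ℝ) + ε)) * ((k : ℝ) ^ (1 + 1 / (d : ℝ)) * (k : ℝ) ^ ε) := by
        ring
      _ ≤ max 1 (C * 2 ^ (1 + 1 / (d : ℝ) + ε)) *
          ((k : ℝ) ^ (1 + 1 / (d : ℝ)) * (k : ℝ) ^ ε) :=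
        mul_le_mul_of_nonneg_right (le_max_right _ _) (by positivity)
      _ = _ := by ring

/-- the case `n ≤ k^(1 + 1/d)`, `k` large -/
theorem lower_large (d r : ℕ) (hd : 3 ≤ d) (hr : 2 ≤ r) (ε : ℝ) (hε : 0 < ε) :
    ∃ k₀ : ℕ, ∀ k n t N : ℕ, k₀ ≤ k → 6 * k ≤ n → (n : ℝ) ≤ (k : ℝ) ^ (1 + 1 / (d : ℝ)) →
      t ≤ d → LocalEncoding d t n r k N → (n : ℝ) * (k : ℝ) ^ (-ε) ≤ N := by
  classical
  obtain ⟨k₀, h⟩ := rx_numeric d r hd hr ε hε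
  refine ⟨k₀, ?_⟩
  intro k n t N hk hkn hn htd hN
  by_contra hc
  push Not at hc
  obtain ⟨w₀, k₁, k₂, m, q₀, q, L, L₁, G, Q, hnum⟩ := h k n N hk hkn hn hc.le
  obtain ⟨Dd, h1, h2, h3⟩ := rx_encoding htd hN
  exact rx_core d r n k ((N + 1) ^ d) w₀ k₁ k₂ m q₀ q L L₁ G Q (by omega) hr hnum Dd h1 h2 _
    (Pool.Agent.Helper650_LocR.lr_card_small N d) h3

theorem lower_all (d r : ℕ) (hd : 3 ≤ d) (ε : ℝ) (hε : 0 < ε) :
    ∃ c : ℝ, 0 < c ∧ ∀ k n t N : ℕ, 1 ≤ k → 6 * k ≤ n → k + d ≤ n → t ≤ d →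
      LocalEncoding d t n r k N →
      c * min (n : ℝ) ((k : ℝ) ^ (1 + 1 / (d : ℝ))) * (k : ℝ) ^ (-ε) ≤ N := by
  obtain ⟨k₀, h⟩ := lower_large d (max r 2) hd (le_max_right _ _) ε hε
  set k₁ := max k₀ (7 ^ d) with hk₁
  have hk₁1 : 1 ≤ k₁ := le_trans (Nat.one_le_pow _ _ (by norm_num)) (le_max_right _ _)
  have hk₁R : (1 : ℝ) ≤ k₁ := by exact_mod_cast hk₁1
  have hd0 : (0 : ℝ) < d := by exact_mod_cast (by omega : 0 < d)
  have hd1 : (1 : ℝ) / d ≤ 1 := by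
    rw [div_le_one hd0]
    exact_mod_cast (by omega : 1 ≤ d)
  refine ⟨min (1 / 2) (1 / (k₁ : ℝ) ^ 2), by positivity, ?_⟩
  intro k n t N hk hkn hkd htd hN
  have hk1 : (1 : ℝ) ≤ k := by exact_mod_cast hk
  have hk0 : (0 : ℝ) < k := by linarith
  have hN1 : (1 : ℝ) ≤ N := by exact_mod_cast enc_pos htd hkd hN
  have hke : (k : ℝ) ^ (-ε) ≤ 1 := Real.rpow_le_one_of_one_le_of_nonpos hk1 (by linarith)
  have hke0 : (0 : ℝ) < (k : ℝ) ^ (-ε) := Real.rpow_pos_of_pos hk0 _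
  have hmin0 : (0 : ℝ) ≤ min (n : ℝ) ((k : ℝ) ^ (1 + 1 / (d : ℝ))) :=
    le_min (Nat.cast_nonneg n) (Real.rpow_nonneg hk0.le _)
  rcases le_total k k₁ with hkk | hkk
  · -- small `k`
    have h1 : (k : ℝ) ^ (1 + 1 / (d : ℝ)) ≤ (k₁ : ℝ) ^ 2 := by
      have h2 : (k : ℝ) ≤ k₁ := by exact_mod_cast hkk
      calc (k : ℝ) ^ (1 + 1 / (d : ℝ)) ≤ (k : ℝ) ^ (2 : ℝ) :=
            Real.rpow_le_rpow_of_exponent_le hk1 (by linarith)
        _ = (k : ℝ) ^ (2 : ℕ) := by rw [← Real.rpow_natCast]; norm_num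
        _ ≤ (k₁ : ℝ) ^ 2 := by gcongr
    calc min (1 / 2) (1 / (k₁ : ℝ) ^ 2) * min (n : ℝ) ((k : ℝ) ^ (1 + 1 / (d : ℝ))) *
          (k : ℝ) ^ (-ε)
        ≤ 1 / (k₁ : ℝ) ^ 2 * (k₁ : ℝ) ^ 2 * 1 := by
          apply mul_le_mul _ hke hke0.le (by positivity)
          exact mul_le_mul (min_le_right _ _) ((min_le_right _ _).trans h1) hmin0 (by positivity)
      _ = 1 := by
          have : (k₁ : ℝ) ^ 2 ≠ 0 := by positivity
          field_simp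
      _ ≤ N := hN1
  · -- large `k`
    have hk₀k : k₀ ≤ k := (le_max_left _ _).trans hkk
    have hN' : LocalEncoding d t n (max r 2) k N := enc_mono (le_max_left _ _) hN
    rcases le_total (n : ℝ) ((k : ℝ) ^ (1 + 1 / (d : ℝ))) with h1 | h1
    · rw [min_eq_left h1]
      have h2 := h k n t N hk₀k hkn h1 htd hN'
      have h3 : (0 : ℝ) ≤ (n : ℝ) * (k : ℝ) ^ (-ε) := by positivity
      calc min (1 / 2) (1 / (k₁ : ℝ) ^ 2) * (n : ℝ) * (k : ℝ) ^ (-ε)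
          = min (1 / 2) (1 / (k₁ : ℝ) ^ 2) * ((n : ℝ) * (k : ℝ) ^ (-ε)) := by ring
        _ ≤ 1 * ((n : ℝ) * (k : ℝ) ^ (-ε)) := by
            apply mul_le_mul_of_nonneg_right _ h3
            exact (min_le_left _ _).trans (by norm_num)
        _ ≤ N := by linarith
    · rw [min_eq_right h1]
      set n' := ⌊(k : ℝ) ^ (1 + 1 / (d : ℝ))⌋₊ with hn'
      have hx0 : (0 : ℝ) ≤ (k : ℝ) ^ (1 + 1 / (d : ℝ)) := Real.rpow_nonneg hk0.le _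
      have h2 : (n' : ℝ) ≤ (k : ℝ) ^ (1 + 1 / (d : ℝ)) := Nat.floor_le hx0
      have h3 : (k : ℝ) ^ (1 + 1 / (d : ℝ)) < n' + 1 := Nat.lt_floor_add_one _
      have h7 : (7 : ℝ) * k ≤ (k : ℝ) ^ (1 + 1 / (d : ℝ)) := by
        have h4 : (7 : ℝ) ≤ (k : ℝ) ^ (1 / (d : ℝ)) := by
          have h5 : ((7 : ℝ) ^ (d : ℕ)) ≤ k := by
            exact_mod_cast (le_max_right k₀ (7 ^ d)).trans hkk
          calc (7 : ℝ) = ((7 : ℝ) ^ (d : ℕ)) ^ (1 / (d : ℝ)) := by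
                rw [← Real.rpow_natCast, ← Real.rpow_mul (by norm_num)]
                rw [mul_one_div_cancel hd0.ne', Real.rpow_one]
            _ ≤ (k : ℝ) ^ (1 / (d : ℝ)) := Real.rpow_le_rpow (by positivity) h5 (by positivity)
        rw [Real.rpow_add hk0, Real.rpow_one]
        nlinarith
      have h8 : 6 * k ≤ n' := by
        have : (6 * k : ℝ) ≤ n' := by linarith
        exact_mod_cast this
      have h9 : n' ≤ n := by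
        have : (n' : ℝ) ≤ n := h2.trans h1
        exact_mod_cast this
      have h10 := h k n' t N hk₀k h8 h2 htd (enc_restrict h9 hN')
      have h11 : (k : ℝ) ^ (1 + 1 / (d : ℝ)) ≤ 2 * n' := by linarith
      calc min (1 / 2) (1 / (k₁ : ℝ) ^ 2) * (k : ℝ) ^ (1 + 1 / (d : ℝ)) * (k : ℝ) ^ (-ε)
          ≤ 1 / 2 * (2 * n') * (k : ℝ) ^ (-ε) := by
            apply mul_le_mul_of_nonneg_right _ hke0.le
            exact mul_le_mul (min_le_left _ _) h11 hx0 (by norm_num)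
        _ = n' * (k : ℝ) ^ (-ε) := by ring
        _ ≤ N := h10

theorem main_locx (d : ℕ) (hd : 3 ≤ d) (r : ℕ) (hr : 1 ≤ r) (B : ℕ) (ε : ℝ) (hε : 0 < ε) :
    ∃ c C : ℝ, 0 < c ∧ 0 < C ∧ ∀ k n t : ℕ, 1 ≤ k → 6 * k ≤ n → k + d ≤ n → n ≤ (k + 1) ^ B →
      1 ≤ t → t ≤ d →
      (∃ N : ℕ, (N : ℝ) ≤ C * min (n : ℝ) ((k : ℝ) ^ (1 + 1 / (d : ℝ))) * (k : ℝ) ^ ε ∧
        LocalKernel d t n 1 k N) ∧
      (∀ N : ℕ, LocalKernel d t n r k N ∨ SolutionEncoding d t n k N →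
        LocalEncoding d t n r k N) ∧
      ∀ N : ℕ, LocalEncoding d t n r k N →
        c * min (n : ℝ) ((k : ℝ) ^ (1 + 1 / (d : ℝ))) * (k : ℝ) ^ (-ε) ≤ N := by
  obtain ⟨C, hC, hup⟩ := upper_one d hd B ε hε
  obtain ⟨c, hc, hlow⟩ := lower_all d r hd ε hε
  refine ⟨c, C, hc, hC, ?_⟩
  intro k n t hk hkn hkd hnB ht htd
  refine ⟨?_, ?_, fun N hN => hlow k n t N hk hkn hkd htd hN⟩
  · obtain ⟨N, hN, hN'⟩ := hup k n hk hnB
    exact ⟨N, hN, kernel_t ht hN'⟩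
  · rintro N (hN | hN)
    · exact enc_of_kernel hN
    · exact enc_mono hr (enc_of_solution hN)

end Pool.Agent.Helper650_LocX
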