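import Pool.Agent.Helper650_LocX.NumDefs

/-!
# Exact inequalities for the parameters

Plain words.  TARGET 1: `1 - 192^(-r) ≤ exp (- 192^(-r))`, so `(1 - 192^(-r))^L ≤ exp (- L / 192^r) ≤
exp (- (log 8 + d log (N + 1) + 2 r log (n + 1))) = 1 / (8 (N + 1)^d (n + 1)^(2 r))`.
TARGET 2: `(1 - 1/q)^L₁ ≤ exp (- L₁ / q) ≤ exp (- (d log n + log r)) = 1 / (n^d r)`.
TARGET 3: with `Q = pQ`, `G = pG`: `Q ≤ G / (2 k log (n + 1) + 2)` gives `G / Q ≥ 2 k log (n + 1) + 2`, so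
`(1 - 1/Q)^G ≤ exp (- G / Q) ≤ exp (- 2 k log (n + 1)) exp (-2) = (n + 1)^(- 2 k) exp (-2)`, and
`k ≤ 2^k ≤ (n + 1)^k`, `exp (-2) ≤ 1/4`.  (For `Q = 1` note `1 - 1 / Q = 0`, no problem.)
TARGET 4: `q k ≥ 64 n r` for `q = 64 n r / k + 1` (natural number division) and `8 (k / 8 + 1) ≥ k`.
-/

namespace Pool.Agent.Helper650_LocX

theorem h982jx_gen (M K : ℝ) (L : ℕ) (hM : 1 ≤ M) (hK : 0 < K) (hL : M * Real.log K ≤ L) :
    K * (M - 1) ^ L ≤ M ^ L := by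
  have hM0 : 0 < M := by linarith
  have h1 : M - 1 ≤ M * Real.exp (-(1 / M)) := by
    have h := Real.one_sub_le_exp_neg (1 / M)
    calc M - 1 = M * (1 - 1 / M) := by field_simp
      _ ≤ M * Real.exp (-(1 / M)) := mul_le_mul_of_nonneg_left h hM0.le
  have h2 : (M - 1) ^ L ≤ M ^ L * Real.exp (-(L / M)) := by
    calc (M - 1) ^ L ≤ (M * Real.exp (-(1 / M))) ^ L := pow_le_pow_left₀ (by linarith) h1 L
      _ = M ^ L * Real.exp (-(L / M)) := by
        rw [mul_pow, ← Real.exp_nat_mul]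
        congr 2
        ring
  have h3 : K ≤ Real.exp (L / M) := by
    rw [← Real.log_le_iff_le_exp hK, le_div_iff₀ hM0]
    linarith
  calc K * (M - 1) ^ L ≤ Real.exp (L / M) * (M ^ L * Real.exp (-(L / M))) :=
        mul_le_mul h3 h2 (pow_nonneg (by linarith) _) (Real.exp_pos _).le
    _ = M ^ L * (Real.exp (L / M) * Real.exp (-(L / M))) := by ring
    _ = M ^ L := by rw [← Real.exp_add, add_neg_cancel, Real.exp_zero, mul_one]

/-- TARGET 1. -/
theorem na_n5 (d r n N : ℕ) :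
    8 * ((N + 1) ^ d * (n + 1) ^ (2 * r)) * (192 ^ r - 1) ^ (pL d r n N) ≤
      192 ^ (r * pL d r n N) := by
  have hM : (1 : ℝ) ≤ 192 ^ r := one_le_pow₀ (by norm_num)
  have hK : (0 : ℝ) < 8 * (((N : ℝ) + 1) ^ d * ((n : ℝ) + 1) ^ (2 * r)) := by positivity
  have h := h982jx_gen (192 ^ r) (8 * (((N : ℝ) + 1) ^ d * ((n : ℝ) + 1) ^ (2 * r)))
    (pL d r n N) hM hK (by
      have e : Real.log (8 * (((N : ℝ) + 1) ^ d * ((n : ℝ) + 1) ^ (2 * r))) =
          Real.log 8 + d * Real.log ((N : ℝ) + 1) + 2 * r * Real.log ((n : ℝ) + 1) := by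
        rw [Real.log_mul (by norm_num) (by positivity), Real.log_mul (by positivity)
          (by positivity), Real.log_pow, Real.log_pow]
        push_cast
        ring
      rw [e]
      exact Nat.le_ceil _)
  have h2 : ((8 * ((N + 1) ^ d * (n + 1) ^ (2 * r)) * (192 ^ r - 1) ^ (pL d r n N) : ℕ) : ℝ) ≤
      ((192 ^ (r * pL d r n N) : ℕ) : ℝ) := by
    rw [Nat.cast_mul, Nat.cast_pow, Nat.cast_sub (Nat.one_le_pow _ _ (by norm_num))]
    push_cast
    rw [pow_mul (192 : ℝ) r]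
    exact h
  exact_mod_cast h2

/-- TARGET 2. -/
theorem na_n6 (d r k n : ℕ) (hr : 1 ≤ r) (hn : 1 ≤ n) :
    n ^ d * r * (pq r k n - 1) ^ (pL1 d r k n) ≤ (pq r k n) ^ (pL1 d r k n) := by
  have hq : 1 ≤ pq r k n := Nat.le_add_left 1 _
  have hM : (1 : ℝ) ≤ (pq r k n : ℝ) := by exact_mod_cast hq
  have hn' : (0 : ℝ) < n := by exact_mod_cast hn
  have hr' : (0 : ℝ) < r := by exact_mod_cast hr
  have h := h982jx_gen (pq r k n : ℝ) ((n : ℝ) ^ d * r) (pL1 d r k n) hM (by positivity) (by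
      have e : Real.log ((n : ℝ) ^ d * r) = d * Real.log (n : ℝ) + Real.log (r : ℝ) := by
        rw [Real.log_mul (by positivity) (by positivity), Real.log_pow]
      rw [e]
      exact Nat.le_ceil _)
  have h2 : ((n ^ d * r * (pq r k n - 1) ^ (pL1 d r k n) : ℕ) : ℝ) ≤
      (((pq r k n) ^ (pL1 d r k n) : ℕ) : ℝ) := by
    rw [Nat.cast_mul, Nat.cast_pow, Nat.cast_sub hq]
    push_cast
    exact h
  exact_mod_cast h2

/-- TARGET 3. -/
theorem na_n10 (d k n : ℕ) (hk : 1 ≤ k) (hn : 1 ≤ n) (hQ : 1 ≤ pQ d k n) :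
    (k : ℝ) * ((n : ℝ) + 1) ^ k * (1 - 1 / (pQ d k n : ℝ)) ^ (pG d k) ≤ 1 / 4 := by
  have hn0 : (0 : ℝ) ≤ n := Nat.cast_nonneg n
  have hlog : 0 ≤ Real.log ((n : ℝ) + 1) := Real.log_nonneg (by linarith)
  have hden : (0 : ℝ) < 2 * k * Real.log ((n : ℝ) + 1) + 2 := by positivity
  have hQ1 : (1 : ℝ) ≤ (pQ d k n : ℝ) := by exact_mod_cast hQ
  have hQG : (pQ d k n : ℝ) * (2 * k * Real.log ((n : ℝ) + 1) + 2) ≤ pG d k := by
    have : (pQ d k n : ℝ) ≤ (pG d k : ℝ) / (2 * k * Real.log ((n : ℝ) + 1) + 2) :=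
      Nat.floor_le (by positivity)
    rwa [le_div_iff₀ hden] at this
  set Q : ℝ := (pQ d k n : ℝ) with hQdef
  set G := pG d k with hG
  have hQ0 : 0 < Q := by linarith
  have h0 : 0 ≤ 1 - 1 / Q := by
    rw [sub_nonneg, div_le_one hQ0]
    exact hQ1
  have h1 : (1 - 1 / Q) ^ G ≤ Real.exp (-(G / Q)) := by
    calc (1 - 1 / Q) ^ G ≤ (Real.exp (-(1 / Q))) ^ G :=
          pow_le_pow_left₀ h0 (Real.one_sub_le_exp_neg _) G
      _ = Real.exp (-(G / Q)) := by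
        rw [← Real.exp_nat_mul]
        congr 1
        ring
  have h2 : Real.exp (-(G / Q)) ≤ Real.exp (-(2 * k * Real.log ((n : ℝ) + 1) + 2)) := by
    apply Real.exp_le_exp.mpr
    rw [neg_le_neg_iff, le_div_iff₀ hQ0]
    linarith
  have h3 : Real.exp (-(2 * k * Real.log ((n : ℝ) + 1) + 2)) =
      (((n : ℝ) + 1) ^ k)⁻¹ * (((n : ℝ) + 1) ^ k)⁻¹ * Real.exp (-2) := by
    have e1 : ((n : ℝ) + 1) ^ k = Real.exp (k * Real.log ((n : ℝ) + 1)) := by
      rw [Real.exp_nat_mul, Real.exp_log (by linarith)]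
    rw [e1, ← Real.exp_neg, ← Real.exp_add, ← Real.exp_add]
    congr 1
    ring
  have h4 : (k : ℝ) ≤ ((n : ℝ) + 1) ^ k := by
    have a1 : (k : ℝ) ≤ 2 ^ k := by exact_mod_cast (Nat.lt_two_pow_self (n := k)).le
    have a2 : (2 : ℝ) ^ k ≤ ((n : ℝ) + 1) ^ k := by
      apply pow_le_pow_left₀ (by norm_num)
      have : (1 : ℝ) ≤ n := by exact_mod_cast hn
      linarith
    exact a1.trans a2
  have h5 : Real.exp (-2) ≤ 1 / 4 := by
    have b1 : (2 : ℝ) ≤ Real.exp 1 := by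
      have := Real.exp_one_gt_d9
      linarith
    have b2 : Real.exp 2 = Real.exp 1 * Real.exp 1 := by
      rw [← Real.exp_add]
      norm_num
    rw [Real.exp_neg, one_div]
    apply inv_anti₀ (by norm_num)
    rw [b2]
    nlinarith
  have hP : 0 < ((n : ℝ) + 1) ^ k := by positivity
  calc (k : ℝ) * ((n : ℝ) + 1) ^ k * (1 - 1 / Q) ^ G
      ≤ (k : ℝ) * ((n : ℝ) + 1) ^ k *
        ((((n : ℝ) + 1) ^ k)⁻¹ * (((n : ℝ) + 1) ^ k)⁻¹ * Real.exp (-2)) := by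
        apply mul_le_mul_of_nonneg_left _ (by positivity)
        rw [← h3]
        exact h1.trans h2
    _ = ((k : ℝ) * (((n : ℝ) + 1) ^ k)⁻¹) * Real.exp (-2) := by
        field_simp
    _ ≤ 1 * Real.exp (-2) := by
        apply mul_le_mul_of_nonneg_right _ (Real.exp_pos _).le
        rw [← div_eq_mul_inv, div_le_one hP]
        exact h4
    _ ≤ 1 / 4 := by rw [one_mul]; exact h5

/-- TARGET 4. -/
theorem na_n4 (r k n : ℕ) (hk : 1 ≤ k) : 8 * (n * r) ≤ pq r k n * (k / 8 + 1) := by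
  unfold pq
  have h1 : 64 * n * r < (64 * n * r / k + 1) * k := by
    have e1 := Nat.div_add_mod (64 * n * r) k
    have e2 := Nat.mod_lt (64 * n * r) (by omega : k > 0)
    nlinarith
  set a := 64 * n * r / k with ha
  have h2 : k ≤ 8 * (k / 8 + 1) := by omega
  have h3 : (a + 1) * k ≤ (a + 1) * (8 * (k / 8 + 1)) := Nat.mul_le_mul_left _ h2
  have h4 : 8 * (8 * (n * r)) ≤ 8 * ((a + 1) * (k / 8 + 1)) := by
    calc 8 * (8 * (n * r)) = 64 * n * r := by ring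
      _ ≤ (a + 1) * k := h1.le
      _ ≤ (a + 1) * (8 * (k / 8 + 1)) := h3
      _ = 8 * ((a + 1) * (k / 8 + 1)) := by ring
  omega

end Pool.Agent.Helper650_LocX

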