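import Pool.Agent.Helper650_LocX.Defs

/-!
# The parameters
-/

namespace Pool.Agent.Helper650_LocX

/-- the parameter `q` -/
def pq (r k n : ℕ) : ℕ := 64 * n * r / k + 1

/-- the parameter `L` -/
noncomputable def pL (d r n N : ℕ) : ℕ :=
  ⌈(192 : ℝ) ^ r * (Real.log 8 + d * Real.log ((N : ℝ) + 1) + 2 * r * Real.log ((n : ℝ) + 1))⌉₊

/-- the parameter `L₁` -/
noncomputable def pL1 (d r k n : ℕ) : ℕ :=
  ⌈(pq r k n : ℝ) * (d * Real.log (n : ℝ) + Real.log (r : ℝ))⌉₊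

/-- the parameter `G` -/
def pG (d k : ℕ) : ℕ := (3 * k - k / 8 - k).choose (d - 1) / 2

/-- the parameter `Q` -/
noncomputable def pQ (d k n : ℕ) : ℕ :=
  ⌊(pG d k : ℝ) / (2 * k * Real.log ((n : ℝ) + 1) + 2)⌋₊

end Pool.Agent.Helper650_LocX
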