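import Pool.Agent.Helper650_LocX.Defs

/-!
# A random selection

Plain words.  Count the functions `f : Ω → Fin Q`, `P = {ω | f ω = 0}`.  The number of `f` with `κ ⊆ P` is
`Q^(|Ω| - |κ|)`, a fraction `(1 / Q)^|κ|`; the number of `f` with `b` disjoint from `P` is
`(Q - 1)^|b| Q^(|Ω| - |b|)`, a fraction `(1 - 1 / Q)^|b| ≤ (1 - 1 / Q)^G`.  By `h` and the union bound some `f`
has none of these.
-/

namespace Pool.Agent.Helper650_LocX

theorem h238_jx7_prod {Ω : Type*} [Fintype Ω] [DecidableEq Ω] (Q : ℝ) (hQ : Q ≠ 0) (c : ℝ) (κ : Finset Ω) :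
    ∏ ω : Ω, (if ω ∈ κ then c else Q) = Q ^ Fintype.card Ω * (c / Q) ^ κ.card := by
  have h1 : ∀ ω : Ω, (if ω ∈ κ then c else Q) = Q * (if ω ∈ κ then c / Q else 1) := by
    intro ω
    by_cases h : ω ∈ κ
    · rw [if_pos h, if_pos h, mul_div_cancel₀ _ hQ]
    · rw [if_neg h, if_neg h, mul_one]
  rw [Finset.prod_congr rfl (fun ω _ => h1 ω), Finset.prod_mul_distrib, Finset.prod_const,
    Finset.prod_ite_mem, Finset.univ_inter, Finset.prod_const, Finset.card_univ]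

theorem h238_jx7_card {Ω : Type*} [Fintype Ω] [DecidableEq Ω] (m : ℕ) (s : Finset (Fin (m + 1))) (κ : Finset Ω) :
    (((Fintype.piFinset (fun ω : Ω => if ω ∈ κ then s else (Finset.univ : Finset (Fin (m + 1))))).card : ℕ) : ℝ) =
      ((m : ℝ) + 1) ^ Fintype.card Ω * ((s.card : ℝ) / ((m : ℝ) + 1)) ^ κ.card := by
  rw [← h238_jx7_prod ((m : ℝ) + 1) (by positivity) (s.card : ℝ) κ, Fintype.card_piFinset, Nat.cast_prod]
  apply Finset.prod_congr rfl
  intro ω _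
  by_cases h : ω ∈ κ
  · rw [if_pos h, if_pos h]
  · rw [if_neg h, if_neg h]
    simp

/-- TARGET 1. -/
theorem rx_select {Ω : Type*} [Fintype Ω] [DecidableEq Ω] (Q G : ℕ) (hQ : 1 ≤ Q)
    (𝓐 𝓑 : Finset (Finset Ω)) (hB : ∀ b ∈ 𝓑, G ≤ b.card)
    (h : ∑ κ ∈ 𝓐, (1 / (Q : ℝ)) ^ κ.card + 𝓑.card * (1 - 1 / (Q : ℝ)) ^ G < 1) :
    ∃ P : Finset Ω, (∀ κ ∈ 𝓐, ¬ κ ⊆ P) ∧ ∀ b ∈ 𝓑, ¬ Disjoint b P := by
  classical
  by_contra hcon
  push Not at hcon
  obtain ⟨m, rfl⟩ : ∃ m, Q = m + 1 := ⟨Q - 1, by omega⟩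
  let P : (Ω → Fin (m + 1)) → Finset Ω := fun f => Finset.univ.filter (fun ω => f ω = 0)
  let SA : Finset Ω → Finset (Ω → Fin (m + 1)) := fun κ =>
    Fintype.piFinset (fun ω : Ω => if ω ∈ κ then {0} else (Finset.univ : Finset (Fin (m + 1))))
  let SB : Finset Ω → Finset (Ω → Fin (m + 1)) := fun κ =>
    Fintype.piFinset (fun ω : Ω => if ω ∈ κ then Finset.univ.erase 0 else (Finset.univ : Finset (Fin (m + 1))))
  have hSA : ∀ κ f, κ ⊆ P f → f ∈ SA κ := by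
    intro κ f hf
    rw [Fintype.mem_piFinset]
    intro ω
    by_cases hω : ω ∈ κ
    · rw [if_pos hω]
      have := hf hω
      simp only [P, Finset.mem_filter, Finset.mem_univ, true_and] at this
      simp [this]
    · rw [if_neg hω]
      exact Finset.mem_univ _
  have hSB : ∀ κ f, Disjoint κ (P f) → f ∈ SB κ := by
    intro κ f hf
    rw [Fintype.mem_piFinset]
    intro ω
    by_cases hω : ω ∈ κ
    · rw [if_pos hω]
      have := Finset.disjoint_left.1 hf hω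
      simp only [P, Finset.mem_filter, Finset.mem_univ, true_and] at this
      simp [this]
    · rw [if_neg hω]
      exact Finset.mem_univ _
  have hcov : (Finset.univ : Finset (Ω → Fin (m + 1))) ⊆ 𝓐.biUnion SA ∪ 𝓑.biUnion SB := by
    intro f _
    rw [Finset.mem_union, Finset.mem_biUnion, Finset.mem_biUnion]
    by_cases hA : ∃ κ ∈ 𝓐, κ ⊆ P f
    · obtain ⟨κ, h1, h2⟩ := hA
      exact Or.inl ⟨κ, h1, hSA κ f h2⟩
    · push Not at hA
      obtain ⟨b, h1, h2⟩ := hcon (P f) hA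
      exact Or.inr ⟨b, h1, hSB b f h2⟩
  have hcard : (((m : ℝ) + 1) ^ Fintype.card Ω) ≤
      ∑ κ ∈ 𝓐, ((SA κ).card : ℝ) + ∑ b ∈ 𝓑, ((SB b).card : ℝ) := by
    have h1 := Finset.card_le_card hcov
    have h2 := h1.trans ((Finset.card_union_le _ _).trans
      (Nat.add_le_add Finset.card_biUnion_le Finset.card_biUnion_le))
    rw [Finset.card_univ, Fintype.card_fun, Fintype.card_fin] at h2
    exact_mod_cast h2
  have hpos : (0 : ℝ) < (m : ℝ) + 1 := by positivity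
  have hN : (0 : ℝ) < ((m : ℝ) + 1) ^ Fintype.card Ω := by positivity
  have hA' : ∀ κ ∈ 𝓐, ((SA κ).card : ℝ) =
      ((m : ℝ) + 1) ^ Fintype.card Ω * (1 / (((m + 1 : ℕ)) : ℝ)) ^ κ.card := by
    intro κ _
    have := h238_jx7_card m ({0} : Finset (Fin (m + 1))) κ
    rw [Finset.card_singleton] at this
    rw [Nat.cast_add, Nat.cast_one]
    rw [Nat.cast_one] at this
    exact this
  have hB' : ∀ b ∈ 𝓑, ((SB b).card : ℝ) ≤
      ((m : ℝ) + 1) ^ Fintype.card Ω * (1 - 1 / (((m + 1 : ℕ)) : ℝ)) ^ G := by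
    intro b hb
    have h1 := h238_jx7_card m ((Finset.univ : Finset (Fin (m + 1))).erase 0) b
    have h2 : (((Finset.univ : Finset (Fin (m + 1))).erase 0).card : ℝ) / ((m : ℝ) + 1) =
        1 - 1 / (((m + 1 : ℕ)) : ℝ) := by
      rw [Finset.card_erase_of_mem (Finset.mem_univ _), Finset.card_univ, Fintype.card_fin,
        Nat.add_sub_cancel, Nat.cast_add, Nat.cast_one]
      field_simp
      ring
    rw [h2] at h1
    show ((SB b).card : ℝ) ≤ _
    refine h1.le.trans ?_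
    apply mul_le_mul_of_nonneg_left _ hN.le
    have h0 : (0 : ℝ) ≤ 1 - 1 / (((m + 1 : ℕ)) : ℝ) := by
      rw [← h2]
      positivity
    have h3 : 1 - 1 / (((m + 1 : ℕ)) : ℝ) ≤ 1 := by
      have : (0 : ℝ) ≤ 1 / (((m + 1 : ℕ)) : ℝ) := by positivity
      linarith
    exact pow_le_pow_of_le_one h0 h3 (hB b hb)
  have hfin : ∑ κ ∈ 𝓐, ((SA κ).card : ℝ) + ∑ b ∈ 𝓑, ((SB b).card : ℝ) ≤
      ((m : ℝ) + 1) ^ Fintype.card Ω * (∑ κ ∈ 𝓐, (1 / (((m + 1 : ℕ)) : ℝ)) ^ κ.card +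
        𝓑.card * (1 - 1 / (((m + 1 : ℕ)) : ℝ)) ^ G) := by
    rw [mul_add, Finset.mul_sum]
    apply add_le_add
    · exact (Finset.sum_congr rfl hA').le
    · refine (Finset.sum_le_sum hB').trans (le_of_eq ?_)
      rw [Finset.sum_const, nsmul_eq_mul]
      ring
  have hlast := hcard.trans hfin
  have : ((m : ℝ) + 1) ^ Fintype.card Ω * (∑ κ ∈ 𝓐, (1 / (((m + 1 : ℕ)) : ℝ)) ^ κ.card +
        𝓑.card * (1 - 1 / (((m + 1 : ℕ)) : ℝ)) ^ G) < ((m : ℝ) + 1) ^ Fintype.card Ω * 1 :=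
    mul_lt_mul_of_pos_left h hN
  linarith

end Pool.Agent.Helper650_LocX

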