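import Pool.Agent.Helper650_LocX.Defs
import Pool.Agent.Helper650_LocR.Rand
import Pool.Agent.Helper650_LocR.Tree
import Pool.Agent.Helper650_LocR.CoreR

/-!
# Random sets are thin

Plain words.  Call `C` dead on `S` if `Dd C S`.  For `C ∈ 𝒞` and a set `S` with at most `r` elements let
`𝓖 C S` be the family of all sets `ω` with at most `r` elements, all of them below `w₀`, such that
`Dd C (S ∪ B ∪ ω)`.  Let `J` be the set of all triples `(C, S, G₀)`, `C ∈ 𝒞`, `|S| ≤ r`, `|G₀| ≤ r`, for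
which there are `P : Fin L → Finset (Fin n)`, pairwise disjoint, with `P i = G \ G₀` for some `G ∈ 𝓖 C S`
with `G₀ ⊆ G`; `|J| ≤ K (n + 1)^(2 r)` by `h223_count`.  For a triple in `J` with chosen `P`, by
`h93_main` (with `z = 0`, `s = univ`, `|s| = L`) the number of `g` such that no `P i` is contained in
`{x | g x = 0}` is at most `q₀^n (q₀^r - 1)^L / q₀^(r L)`.  So, by `hL`, for all but at most `q₀^n / 8` of the
`g` for each triple in `J` some `P i` is contained in `{x | g x = 0}`, hence in `W1 w₀ g` (since its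
elements are below `w₀`).  Let `g` be such.  To see `Thin` for `Z₁ = W1 w₀ g ∪ B` let `C ∈ 𝒞`, `|S| ≤ r`,
`¬ Dd C (S ∪ Z₁)`.  Apply `lr_tree` to `𝓖 C S` and `W1 w₀ g`: its hypothesis holds by the choice of `g`.
We get `A` and `H`.  Let `w` be a set of vertices below `w₀` with `Dd C (S ∪ Z₁ ∪ w)`.  By `hloc` there is
`G' ⊆ S ∪ Z₁ ∪ w` with at most `r` elements and `Dd C G'`; let `ω` be the set of the elements of `G'` that
are in `W1 w₀ g ∪ w`.  Then `ω ∈ 𝓖 C S` (by `hmono`), so there is `G₀ ∈ H` with `G₀ ⊆ ω`, `G₀ ⊆ A`, and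
`G ∈ 𝓖 C S` with `G₀ ⊆ G ⊆ W1 w₀ g ∪ G₀`.  If `G₀ ⊆ W1 w₀ g` then `G ⊆ W1 w₀ g`, so `Dd C (S ∪ Z₁)`, a
contradiction.  So some `x ∈ G₀` is not in `W1 w₀ g`, hence in `w`, and it is in `A`.
-/

namespace Pool.Agent.Helper650_LocX

open Pool.Agent.Helper650_LocR (h93_main lr_tree h223_count)

open Classical in
/-- TARGET 1. -/
theorem rx_thin {ι : Type*} (n r L q₀ K w₀ : ℕ) (Dd : ι → Finset (Fin n) → Prop)
    (hmono : ∀ C S S', S ⊆ S' → Dd C S → Dd C S')
    (hloc : ∀ C S, Dd C S → ∃ G ⊆ S, G.card ≤ r ∧ Dd C G)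
    (𝒞 : Finset ι) (hK : 𝒞.card ≤ K) (hq : 1 ≤ q₀)
    (hL : 8 * (K * (n + 1) ^ (2 * r)) * (q₀ ^ r - 1) ^ L ≤ q₀ ^ (r * L))
    (B : Finset (Fin n)) :
    8 * ((Finset.univ : Finset (Fin n → Fin q₀)).filter
      (fun g => ¬ Thin Dd r ((r * L + 1) ^ r) w₀ 𝒞 (W1 w₀ g ∪ B))).card ≤ q₀ ^ n := by
  -- the families
  let 𝓖 : ι → Finset (Fin n) → Finset (Finset (Fin n)) := fun C S =>
    Finset.univ.filter
      (fun ω => ω.card ≤ r ∧ (∀ x ∈ ω, x.val < w₀) ∧ Dd C (S ∪ B ∪ ω))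
  have mem𝓖 : ∀ C S ω, ω ∈ 𝓖 C S ↔
      ω.card ≤ r ∧ (∀ x ∈ ω, x.val < w₀) ∧ Dd C (S ∪ B ∪ ω) := by
    intro C S ω
    simp only [𝓖, Finset.mem_filter, Finset.mem_univ, true_and]
  clear_value 𝓖
  let Good : (ι × Finset (Fin n)) × Finset (Fin n) → (Fin L → Finset (Fin n)) → Prop :=
    fun p P => (∀ i, ∃ G ∈ 𝓖 p.1.1 p.1.2, p.2 ⊆ G ∧ P i = G \ p.2) ∧
      ∀ i i', i ≠ i' → Disjoint (P i) (P i')
  let F : Finset (Finset (Fin n)) :=
    (Finset.univ : Finset (Finset (Fin n))).filter (fun G => G.card ≤ r)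
  have hF : F.card ≤ (n + 1) ^ r := h223_count n r
  have memF : ∀ G : Finset (Fin n), G.card ≤ r → G ∈ F := fun G hG =>
    Finset.mem_filter.2 ⟨Finset.mem_univ _, hG⟩
  let J : Finset ((ι × Finset (Fin n)) × Finset (Fin n)) :=
    ((𝒞 ×ˢ F) ×ˢ F).filter (fun p => ∃ P, Good p P)
  have hJcard : J.card ≤ K * (n + 1) ^ (2 * r) := by
    refine (Finset.card_filter_le _ _).trans ?_
    rw [Finset.card_product, Finset.card_product, two_mul, pow_add, ← mul_assoc]
    exact Nat.mul_le_mul (Nat.mul_le_mul hK hF) hF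
  let P : (ι × Finset (Fin n)) × Finset (Fin n) → Fin L → Finset (Fin n) := fun p =>
    if h : ∃ P, Good p P then h.choose else fun _ => ∅
  have hP : ∀ p ∈ J, Good p (P p) := by
    intro p hp
    have h1 : ∃ P, Good p P := (Finset.mem_filter.1 hp).2
    have h2 : P p = h1.choose := dif_pos h1
    rw [h2]
    exact h1.choose_spec
  clear_value P
  -- the bad functions
  let z : Fin q₀ := ⟨0, hq⟩
  let Bd : (ι × Finset (Fin n)) × Finset (Fin n) → Finset (Fin n → Fin q₀) := fun j =>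
    (Finset.univ : Finset (Fin n → Fin q₀)).filter
      (fun g => ∀ i ∈ (Finset.univ : Finset (Fin L)), ∃ v ∈ P j i, g v ≠ z)
  have hBd : ∀ j ∈ J, (Bd j).card * q₀ ^ (r * L) ≤ q₀ ^ n * (q₀ ^ r - 1) ^ L := by
    intro j hj
    have h1 := h93_main hq z (P j)
      (by
        intro i
        obtain ⟨G, hG, h1, h2⟩ := (hP j hj).1 i
        rw [h2]
        exact (Finset.card_le_card Finset.sdiff_subset).trans ((mem𝓖 _ _ _).1 hG).1)
      (hP j hj).2 Finset.univ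
    rw [Finset.card_univ, Fintype.card_fin, ← pow_mul] at h1
    exact h1
  have hbad : 8 * (J.biUnion Bd).card ≤ q₀ ^ n := by
    have hpos : 0 < q₀ ^ (r * L) := Nat.pow_pos hq
    refine Nat.le_of_mul_le_mul_right ?_ hpos
    calc 8 * (J.biUnion Bd).card * q₀ ^ (r * L)
        ≤ 8 * (∑ j ∈ J, (Bd j).card) * q₀ ^ (r * L) :=
          Nat.mul_le_mul_right _ (Nat.mul_le_mul_left _ Finset.card_biUnion_le)
      _ = 8 * ∑ j ∈ J, (Bd j).card * q₀ ^ (r * L) := by
          rw [mul_assoc, Finset.sum_mul]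
      _ ≤ 8 * ∑ _j ∈ J, q₀ ^ n * (q₀ ^ r - 1) ^ L :=
          Nat.mul_le_mul_left _ (Finset.sum_le_sum hBd)
      _ = 8 * (J.card * (q₀ ^ n * (q₀ ^ r - 1) ^ L)) := by
          rw [Finset.sum_const, smul_eq_mul]
      _ ≤ 8 * ((K * (n + 1) ^ (2 * r)) * (q₀ ^ n * (q₀ ^ r - 1) ^ L)) :=
          Nat.mul_le_mul_left _ (Nat.mul_le_mul_right _ hJcard)
      _ = q₀ ^ n * (8 * (K * (n + 1) ^ (2 * r)) * (q₀ ^ r - 1) ^ L) := by ring
      _ ≤ q₀ ^ n * q₀ ^ (r * L) := Nat.mul_le_mul_left _ hL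
  refine le_trans (Nat.mul_le_mul_left _ (Finset.card_le_card ?_)) hbad
  intro g hg
  rw [Finset.mem_filter] at hg
  by_contra hgb
  apply hg.2
  have hgood : ∀ j ∈ J, ∃ i, P j i ⊆ W1 w₀ g := by
    intro j hj
    by_contra hcon
    push Not at hcon
    apply hgb
    refine Finset.mem_biUnion.2 ⟨j, hj, Finset.mem_filter.2 ⟨Finset.mem_univ _, ?_⟩⟩
    intro i _
    obtain ⟨v, hv, hv'⟩ := Finset.not_subset.1 (hcon i)
    refine ⟨v, hv, fun hz => hv' ?_⟩
    obtain ⟨G, hG, h1, h2⟩ := (hP j hj).1 i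
    refine Finset.mem_filter.2 ⟨Finset.mem_univ _, ?_, ?_⟩
    · rw [h2] at hv
      exact ((mem𝓖 _ _ _).1 hG).2.1 v (Finset.mem_sdiff.1 hv).1
    · rw [hz]
  -- thinness
  intro C hC S hS hnd
  obtain ⟨A, H, hA, hH1, hH2⟩ := lr_tree n r L (𝓖 C S) (fun G hG => ((mem𝓖 _ _ _).1 hG).1)
    (W1 w₀ g) (by
      intro G₀ hG₀
      by_cases hj : ((C, S), G₀) ∈ J
      · left
        obtain ⟨i, hi⟩ := hgood _ hj
        obtain ⟨G, hG, h1, h2⟩ := (hP _ hj).1 i
        refine ⟨G, hG, h1, ?_⟩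
        rw [h2] at hi
        intro v hv
        rw [Finset.mem_union]
        by_cases hv0 : v ∈ G₀
        · exact Or.inr hv0
        · exact Or.inl (hi (Finset.mem_sdiff.2 ⟨hv, hv0⟩))
      · right
        intro h1
        exact hj (Finset.mem_filter.2 ⟨Finset.mem_product.2 ⟨Finset.mem_product.2
          ⟨hC, memF S hS⟩, memF G₀ hG₀⟩, h1⟩))
  refine ⟨A, hA, ?_⟩
  intro w hw hdw hdisj
  obtain ⟨G', hG's, hG'r, hG'd⟩ := hloc C _ hdw
  have hω : G'.filter (fun x => x ∈ W1 w₀ g ∪ w) ∈ 𝓖 C S := by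
    rw [mem𝓖]
    refine ⟨(Finset.card_filter_le _ _).trans hG'r, ?_, ?_⟩
    · intro x hx
      rcases Finset.mem_union.1 (Finset.mem_filter.1 hx).2 with h1 | h1
      · exact (Finset.mem_filter.1 h1).2.1
      · exact hw x h1
    · refine hmono C _ _ ?_ hG'd
      intro x hx
      by_cases h1 : x ∈ W1 w₀ g ∪ w
      · exact Finset.mem_union_right _ (Finset.mem_filter.2 ⟨hx, h1⟩)
      · apply Finset.mem_union_left
        rw [Finset.mem_union, not_or] at h1
        rcases Finset.mem_union.1 (hG's hx) with h2 | h2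
        · rcases Finset.mem_union.1 h2 with h3 | h3
          · exact Finset.mem_union_left _ h3
          · rcases Finset.mem_union.1 h3 with h4 | h4
            · exact absurd h4 h1.1
            · exact Finset.mem_union_right _ h4
        · exact absurd h2 h1.2
  obtain ⟨G₀, hG₀H, hG₀ω⟩ := hH2 _ hω
  obtain ⟨hG₀A, -, G, hG, -, hGsub⟩ := hH1 G₀ hG₀H
  have hG₀W : G₀ ⊆ W1 w₀ g := by
    intro x hx
    rcases Finset.mem_union.1 (Finset.mem_filter.1 (hG₀ω hx)).2 with h1 | h1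
    · exact h1
    · exact absurd (hG₀A hx) (Finset.disjoint_left.1 hdisj h1)
  apply hnd
  refine hmono C _ _ ?_ ((mem𝓖 _ _ _).1 hG).2.2
  intro x hx
  rcases Finset.mem_union.1 hx with h1 | h1
  · rcases Finset.mem_union.1 h1 with h2 | h2
    · exact Finset.mem_union_left _ h2
    · exact Finset.mem_union_right _ (Finset.mem_union_right _ h2)
  · refine Finset.mem_union_right _ (Finset.mem_union_left _ ?_)
    rcases Finset.mem_union.1 (hGsub h1) with h2 | h2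
    · exact h2
    · exact hG₀W h2

end Pool.Agent.Helper650_LocX

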